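import Pool.Agent.H890R2.RM.THETA
import Pool.Agent.H460R2.Defs

set_option autoImplicit false
open MeasureTheory
open scoped ENNReal Pointwise RealInnerProductSpace

/-! The reverse Minkowski theorem in the form used by helper460. -/

namespace H890

section
variable {V : Type*} [NormedAddCommGroup V] [InnerProductSpace ℝ V] [FiniteDimensional ℝ V]

/-- convergence of theta series -/
theorem ADAPT_summable {r : ℝ} (hr : 0 < r) {L : AddSubgroup V} (hL : Sep r L) {t : ℝ} (ht : 0 < t) :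
    Summable (fun x : L => Real.exp (-t * ‖(x : V)‖ ^ 2)) := by
  borelize V
  set s := Real.sqrt (2 * t) with hs
  have hs0 : 0 < s := Real.sqrt_pos.2 (by positivity)
  have hs2 : s ^ 2 / 2 = t := by
    rw [hs, Real.sq_sqrt (by positivity)]; ring
  set D : Set V := {x | vn L x < s} with hDdef
  have hDo : IsOpen D := isOpen_lt (vn_cont hr hL) continuous_const
  have hDm : MeasurableSet D := hDo.measurableSet
  have hDs : ∀ x, -x ∈ D ↔ x ∈ D := by
    intro x; simp only [hDdef, Set.mem_setOf_eq, vn_neg hr hL]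
  have h0D : (0 : V) ∈ D := by
    simp only [hDdef, Set.mem_setOf_eq, vn_zero hr hL]
    exact hs0
  have hpos : gam V D ≠ 0 := by
    intro h
    have hac : (volume : Measure V) ≪ gam V := by
      unfold gam
      refine withDensity_absolutelyContinuous' gd_cont.measurable.ennreal_ofReal.aemeasurable ?_
      refine Filter.Eventually.of_forall fun x => ?_
      have : 0 < gd x := by unfold gd; positivity
      simp [this]
    have := hac h
    exact (hDo.measure_pos volume ⟨0, h0D⟩).ne' this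
  have hc : 0 < (gam V D).toReal := ENNReal.toReal_pos hpos (measure_ne_top _ _)
  refine summable_of_sum_le (c := ((gam V D).toReal)⁻¹) (fun x => (Real.exp_pos _).le) (fun S => ?_)
  classical
  have hm : ∀ y : V, MeasurableSet {x : V | x - s • y ∈ D} := fun y =>
    (measurable_id.sub_const _) hDm
  have hdisj : (S : Set L).PairwiseDisjoint (fun y => {x : V | x - s • (y : V) ∈ D}) := by
    intro y hy z hz hyz
    rw [Function.onFun, Set.disjoint_left]
    intro x hx1 hx2
    simp only [Set.mem_setOf_eq, hDdef] at hx1 hx2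
    apply hyz
    have hL' : (z : V) - y ∈ L := L.sub_mem z.2 y.2
    have e1 : vn L (s⁻¹ • (x - s • (y : V))) < 1 := by
      rw [vn_smul hr hL, abs_of_pos (inv_pos.2 hs0), inv_mul_lt_iff₀ hs0, mul_one]
      exact hx1
    have e2 : vn L (s⁻¹ • (x - s • (y : V)) - ((z : V) - y)) < 1 := by
      have : s⁻¹ • (x - s • (y : V)) - ((z : V) - y) = s⁻¹ • (x - s • (z : V)) := by
        rw [smul_sub, smul_sub, smul_smul, smul_smul, inv_mul_cancel₀ hs0.ne', one_smul, one_smul]
        abel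
      rw [this, vn_smul hr hL, abs_of_pos (inv_pos.2 hs0), inv_mul_lt_iff₀ hs0, mul_one]
      exact hx2
    have := vn_disj hr hL hL' e1 e2
    exact Subtype.ext (sub_eq_zero.1 this).symm
  have hsum : ∑ y ∈ S, gam V {x : V | x - s • (y : V) ∈ D} ≤ 1 := by
    rw [← measure_biUnion_finset hdisj (fun y _ => hm y)]
    exact prob_le_one
  have hterm : ∀ y ∈ S, ENNReal.ofReal (Real.exp (-t * ‖(y : V)‖ ^ 2)) * gam V D ≤
      gam V {x : V | x - s • (y : V) ∈ D} := by
    intro y _
    refine le_trans ?_ (theta_translate (s • (y : V)) D hDm hDs)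
    have e : -(‖s • (y : V)‖ ^ 2 / 2) = -t * ‖(y : V)‖ ^ 2 := by
      rw [norm_smul, mul_pow, Real.norm_eq_abs, sq_abs, ← hs2]; ring
    rw [e]
  have hfin : ∑ y ∈ S, ENNReal.ofReal (Real.exp (-t * ‖(y : V)‖ ^ 2)) * gam V D ≤ 1 :=
    (Finset.sum_le_sum hterm).trans hsum
  rw [← Finset.sum_mul, ← ENNReal.ofReal_sum_of_nonneg (fun y _ => (Real.exp_pos _).le)] at hfin
  have h1 : (1 : ℝ≥0∞) = ENNReal.ofReal 1 := by norm_num
  rw [← ENNReal.ofReal_toReal (measure_ne_top (gam V) D), h1,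
    ← ENNReal.ofReal_mul (Finset.sum_nonneg fun y _ => (Real.exp_pos _).le),
    ENNReal.ofReal_le_ofReal_iff (by norm_num)] at hfin
  rw [inv_eq_one_div, le_div_iff₀ hc]
  exact hfin

/-- distance trick: a shifted theta series is bounded by the centred one at a quarter of the parameter -/
theorem ADAPT_shift {r : ℝ} (hr : 0 < r) {L : AddSubgroup V} (hL : Sep r L) {t : ℝ} (ht : 0 < t) (x : V) :
    ∑' g : L, ENNReal.ofReal (Real.exp (-t * ‖(g : V) + x‖ ^ 2)) ≤
      ENNReal.ofReal (∑' g : L, Real.exp (-(t / 4) * ‖(g : V)‖ ^ 2)) := by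
  obtain ⟨y, hy, hxy⟩ := exists_closest hr hL (-x)
  -- `y` is the closest lattice point to `-x`
  have hmin : ∀ g : L, ‖y + x‖ ≤ ‖(g : V) + x‖ := by
    intro g
    have h1 := norm_le_of_vn hr hL (x := -x - y) (y := y - g) (L.sub_mem hy g.2) hxy
    have e1 : ‖-x - y‖ = ‖y + x‖ := by rw [← norm_neg]; congr 1; abel
    have e2 : ‖-x - y + (y - (g : V))‖ = ‖(g : V) + x‖ := by rw [← norm_neg]; congr 1; abel
    rwa [e1, e2] at h1
  rw [ENNReal.ofReal_tsum_of_nonneg (fun g => (Real.exp_pos _).le)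
    (ADAPT_summable hr hL (show 0 < t / 4 by positivity))]
  rw [← (Equiv.addRight (⟨y, hy⟩ : L)).tsum_eq (fun g : L => ENNReal.ofReal (Real.exp (-t * ‖(g : V) + x‖ ^ 2)))]
  refine ENNReal.tsum_le_tsum fun g => ENNReal.ofReal_le_ofReal (Real.exp_le_exp.2 ?_)
  have h2 := hmin (g + ⟨y, hy⟩)
  simp only [Equiv.coe_addRight, AddSubgroup.coe_add] at h2 ⊢
  have h3 : ‖(g : V)‖ ≤ 2 * ‖(g : V) + y + x‖ := by
    calc ‖(g : V)‖ = ‖((g : V) + y + x) - (y + x)‖ := by congr 1; abel
      _ ≤ ‖(g : V) + y + x‖ + ‖y + x‖ := norm_sub_le _ _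
      _ ≤ _ := by linarith
  have h4 : ‖(g : V)‖ ^ 2 ≤ 4 * ‖(g : V) + y + x‖ ^ 2 := by nlinarith [norm_nonneg (g : V)]
  nlinarith

theorem ADAPT_vol {m : ℕ} [MeasurableSpace V] [BorelSpace V] (B : Module.Basis (Fin m) ℝ V) :
    volume (ZSpan.fundamentalDomain B) = ENNReal.ofReal (Real.sqrt (gdet B)) := by
  have hm : Module.finrank ℝ V = m := by
    rw [Module.finrank_eq_card_basis B, Fintype.card_fin]
  let o : OrthonormalBasis (Fin m) ℝ V := (stdOrthonormalBasis ℝ V).reindex (finCongr hm)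
  rw [VOL_gram o, Real.sqrt_sq_eq_abs, ZSpan.measure_fundamentalDomain B volume o.toBasis,
      measure_congr (ZSpan.fundamentalDomain_ae_parallelepiped o.toBasis volume)]
  have : volume (parallelepiped o.toBasis) = 1 := by
    rw [OrthonormalBasis.coe_toBasis]
    exact o.volume_parallelepiped
  rw [this, mul_one]

/-- lower bound for the theta function of the lattice spanned by a basis -/
theorem ADAPT_lower {m : ℕ} (B : Module.Basis (Fin m) ℝ V) {r : ℝ} (hr : 0 < r)
    (hL : Sep r (Submodule.span ℤ (Set.range B)).toAddSubgroup) {t : ℝ} (ht : 0 < t) :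
    (Real.sqrt (Real.pi / t)) ^ m ≤ Real.sqrt (gdet B) *
      ∑' g : (Submodule.span ℤ (Set.range B)).toAddSubgroup, Real.exp (-(t / 4) * ‖(g : V)‖ ^ 2) := by
  borelize V
  have hm : Module.finrank ℝ V = m := by
    rw [Module.finrank_eq_card_basis B, Fintype.card_fin]
  set L := (Submodule.span ℤ (Set.range B)).toAddSubgroup with hLdef
  have hcount : Countable L := (sep_countable hr hL).to_subtype
  have hfd : IsAddFundamentalDomain L (ZSpan.fundamentalDomain B) (volume : Measure V) :=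
    ZSpan.isAddFundamentalDomain' B volume
  have h1 := lintegral_gauss (V := V) t ht
  rw [hm, hfd.lintegral_eq_tsum''] at h1
  have h2 : ∑' g : L, ∫⁻ x in ZSpan.fundamentalDomain B, ENNReal.ofReal (Real.exp (-t * ‖g +ᵥ x‖ ^ 2)) =
      ∫⁻ x in ZSpan.fundamentalDomain B, ∑' g : L, ENNReal.ofReal (Real.exp (-t * ‖(g : V) + x‖ ^ 2)) := by
    rw [lintegral_tsum]
    · rfl
    · intro g
      exact (by fun_prop : Measurable fun x : V => ENNReal.ofReal (Real.exp (-t * ‖(g : V) + x‖ ^ 2))).aemeasurable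
  rw [h2] at h1
  have h3 : ∫⁻ x in ZSpan.fundamentalDomain B, ∑' g : L, ENNReal.ofReal (Real.exp (-t * ‖(g : V) + x‖ ^ 2)) ≤
      ∫⁻ _x in ZSpan.fundamentalDomain B, ENNReal.ofReal (∑' g : L, Real.exp (-(t / 4) * ‖(g : V)‖ ^ 2)) :=
    lintegral_mono fun x => ADAPT_shift hr hL ht x
  rw [setLIntegral_const, h1, ADAPT_vol, ← ENNReal.ofReal_mul (tsum_nonneg fun g => (Real.exp_pos _).le),
    ENNReal.ofReal_le_ofReal_iff (mul_nonneg (tsum_nonneg fun g => (Real.exp_pos _).le) (Real.sqrt_nonneg _))] at h3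
  rw [mul_comm]
  exact h3

end

theorem ADAPT_disc_sep {E : Type*} [NormedAddCommGroup E] [InnerProductSpace ℝ E] {M : AddSubgroup E}
    (hM : H460.Disc M) : ∃ r : ℝ, 0 < r ∧ Sep r M := by
  have hfin := hM 1
  by_cases hne : ({x : E | (x ∈ M ∧ ‖x‖ ≤ 1) ∧ x ≠ 0}).Nonempty
  · have hf2 : ({x : E | (x ∈ M ∧ ‖x‖ ≤ 1) ∧ x ≠ 0}).Finite := hfin.subset (fun x hx => hx.1)
    obtain ⟨y, hy, hmin⟩ := Set.exists_min_image _ (fun x : E => ‖x‖) hf2 hne
    refine ⟨‖y‖, norm_pos_iff.2 hy.2, fun x hx hx0 => ?_⟩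
    by_cases h1 : ‖x‖ ≤ 1
    · exact hmin x ⟨⟨hx, h1⟩, hx0⟩
    · push Not at h1
      exact hy.1.2.trans h1.le
  · refine ⟨1, one_pos, fun x hx hx0 => ?_⟩
    by_contra h
    push Not at h
    exact hne ⟨x, ⟨hx, h.le⟩, hx0⟩

/-- lower bound for `w` of the lattice generated by an independent family -/
theorem ADAPT_w {E : Type*} [NormedAddCommGroup E] [InnerProductSpace ℝ E] [FiniteDimensional ℝ E]
    {M : AddSubgroup E} {r : ℝ} (hr : 0 < r) (hM : Sep r M) {j : ℕ} (u : Fin j → E)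
    (hu : ∀ i, u i ∈ M) (hi : LinearIndependent ℝ u) :
    (1 / 2 : ℝ) ^ j / Real.sqrt (gdet u) ≤ H460.w (AddSubgroup.closure (Set.range u)) := by
  set Γ := AddSubgroup.closure (Set.range u) with hΓ
  have hΓM : Γ ≤ M := by
    rw [hΓ, AddSubgroup.closure_le]
    rintro _ ⟨i, rfl⟩
    exact hu i
  have hrk : H460.rk Γ = j := by
    unfold H460.rk
    have : Submodule.span ℝ (Γ : Set E) = Submodule.span ℝ (Set.range u) := by
      apply le_antisymm
      · rw [Submodule.span_le]
        intro x hx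
        have : Γ ≤ (Submodule.span ℝ (Set.range u)).toAddSubgroup := by
          rw [hΓ, AddSubgroup.closure_le]
          exact Submodule.subset_span
        exact this hx
      · exact Submodule.span_mono AddSubgroup.subset_closure
    rw [this, finrank_span_eq_card hi, Fintype.card_fin]
  set W := Submodule.span ℝ (Set.range u) with hW
  let B : Module.Basis (Fin j) ℝ W := Module.Basis.span hi
  have hB : ∀ i, ((B i : W) : E) = u i := fun i => congrArg Subtype.val (Module.Basis.span_apply hi i)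
  set LW := (Submodule.span ℤ (Set.range B)).toAddSubgroup with hLW
  have hmap : LW.map W.subtype.toAddMonoidHom = Γ := by
    rw [hLW, Submodule.span_int_eq_addSubgroupClosure, AddMonoidHom.map_closure, hΓ]
    congr 1
    ext x
    constructor
    · rintro ⟨_, ⟨i, rfl⟩, rfl⟩
      exact ⟨i, (hB i).symm⟩
    · rintro ⟨i, rfl⟩
      exact ⟨B i, ⟨i, rfl⟩, hB i⟩
  have hsep : Sep r LW := by
    intro y hy hy0
    have h1 : ((y : W) : E) ∈ Γ := by
      rw [← hmap]
      exact ⟨y, hy, rfl⟩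
    have := hM _ (hΓM h1) (by
      intro h
      exact hy0 (Subtype.ext h))
    simpa using this
  have hg : gdet B = gdet u := by
    have := gdet_isometry (fun i => B i) W.subtype (fun x y => rfl)
    rw [← this]
    congr 1
    funext i
    exact hB i
  have hgpos : 0 < Real.sqrt (gdet u) := Real.sqrt_pos.2 (gdet_pos u hi)
  unfold H460.w
  refine le_ciInf fun m => ?_
  rw [hrk]
  have hlow := ADAPT_lower B hr hsep (t := 4 * (1 / 4 : ℝ) ^ m) (by positivity)
  rw [hg] at hlow
  have hth : H460.th Γ 0 ((1 / 4 : ℝ) ^ m) = ∑' g : LW, Real.exp (-((4 * (1 / 4 : ℝ) ^ m) / 4) * ‖(g : W)‖ ^ 2) := by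
    unfold H460.th
    have hinj : Function.Injective W.subtype.toAddMonoidHom := Subtype.val_injective
    let e : LW ≃ Γ := (LW.equivMapOfInjective _ hinj).toEquiv.trans (Equiv.setCongr (by rw [hmap]))
    rw [← e.tsum_eq]
    refine tsum_congr fun g => ?_
    have he : ((e g : Γ) : E) = ((g : W) : E) := rfl
    rw [he, add_zero]
    congr 1
    rw [mul_div_cancel_left₀ _ (by norm_num : (4 : ℝ) ≠ 0)]
    rfl
  rw [← hth] at hlow
  have h4 : Real.sqrt (Real.pi / (4 * (1 / 4 : ℝ) ^ m)) = Real.sqrt Real.pi / 2 * 2 ^ m := by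
    rw [Real.sqrt_eq_iff_mul_self_eq (by positivity) (by positivity)]
    have hp : Real.sqrt Real.pi * Real.sqrt Real.pi = Real.pi := Real.mul_self_sqrt Real.pi_pos.le
    have h44 : ((1 / 4 : ℝ) ^ m) = ((2 : ℝ) ^ m * 2 ^ m)⁻¹ := by
      rw [← mul_pow, ← inv_pow]; norm_num
    rw [h44]
    field_simp
    nlinarith
  rw [h4] at hlow
  rw [div_le_div_iff₀ hgpos (by positivity)]
  have h5 : (1 / 2 : ℝ) ≤ Real.sqrt Real.pi / 2 := by
    have : 1 ≤ Real.sqrt Real.pi := by
      rw [Real.one_le_sqrt]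
      linarith [Real.pi_gt_three]
    linarith
  have h6 : (1 / 2 : ℝ) ^ j ≤ (Real.sqrt Real.pi / 2) ^ j := pow_le_pow_left₀ (by norm_num) h5 j
  calc (1 / 2 : ℝ) ^ j * 2 ^ (m * j) ≤ (Real.sqrt Real.pi / 2) ^ j * 2 ^ (m * j) := by
        exact mul_le_mul_of_nonneg_right h6 (by positivity)
    _ = (Real.sqrt Real.pi / 2 * 2 ^ m) ^ j := by rw [mul_pow, pow_mul]
    _ ≤ Real.sqrt (gdet u) * H460.th Γ 0 ((1 / 4 : ℝ) ^ m) := hlow
    _ = _ := mul_comm _ _

theorem rm_statement : H460.RMStatement := by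
  intro ε κ b hε hκ hb
  obtain ⟨N0, hN0⟩ := reverse_minkowski ε hε
  -- size conditions
  have hlim : Filter.Tendsto (fun n : ℕ => (4 * (κ + 2) ^ ε) * ((n : ℝ) ^ (-ε))) Filter.atTop (nhds 0) := by
    have h1 := (tendsto_rpow_neg_atTop hε).comp tendsto_natCast_atTop_atTop
    have h2 := h1.const_mul (4 * (κ + 2) ^ ε)
    rw [mul_zero] at h2
    exact h2
  have hev := hlim.eventually (ge_mem_nhds (show (0 : ℝ) < 1 by norm_num))
  obtain ⟨n1, hn1⟩ := Filter.eventually_atTop.1 hev
  refine ⟨max (max N0 n1) (max 1 ⌈1 / b⌉₊), fun n hn E _ _ _ M hMd hMr hw => ?_⟩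
  have hnN0 : N0 ≤ n := (le_max_left _ _).trans ((le_max_left _ _).trans hn)
  have hnn1 : n1 ≤ n := (le_max_right _ _).trans ((le_max_left _ _).trans hn)
  have hn1' : 1 ≤ n := (le_max_left _ _).trans ((le_max_right _ _).trans hn)
  have hnb : ⌈1 / b⌉₊ ≤ n := (le_max_right _ _).trans ((le_max_right _ _).trans hn)
  have hn0 : (0 : ℝ) < n := by exact_mod_cast hn1'
  have hnR : (1 : ℝ) ≤ n := by exact_mod_cast hn1'
  have hbn : 1 ≤ b * n := by
    have h1 : 1 / b ≤ n := (Nat.le_ceil _).trans (by exact_mod_cast hnb)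
    rw [div_le_iff₀ hb] at h1
    linarith
  obtain ⟨r, hr, hsep⟩ := ADAPT_disc_sep hMd
  set s : ℝ := 2 * (n : ℝ) ^ (-ε) with hs
  have hs0 : 0 < s := by positivity
  have hgood : Good (sc s M) := by
    intro j v hv hvi
    choose u hu huv using hv
    have huv' : ∀ i, v i = s • u i := fun i => (huv i).symm
    have hui : LinearIndependent ℝ u := by
      have h1 : LinearIndependent ℝ (fun i => s⁻¹ • v i) := by
        have := hvi.units_smul (fun _ => Units.mk0 (s⁻¹) (inv_ne_zero hs0.ne'))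
        exact this
      have h2 : (fun i => s⁻¹ • v i) = u := by
        funext i
        rw [huv' i, smul_smul, inv_mul_cancel₀ hs0.ne', one_smul]
      rwa [h2] at h1
    have hfun : v = fun i => s • u i := funext huv'
    rw [hfun, gdet_smul]
    have h1 := ADAPT_w hr hsep u hu hui
    have h2 := hw (AddSubgroup.closure (Set.range u)) (by
      rw [AddSubgroup.closure_le]
      rintro _ ⟨i, rfl⟩
      exact hu i)
    have hrk : H460.rk (AddSubgroup.closure (Set.range u)) = j := by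
      unfold H460.rk
      have : Submodule.span ℝ ((AddSubgroup.closure (Set.range u) : AddSubgroup E) : Set E) =
          Submodule.span ℝ (Set.range u) := by
        apply le_antisymm
        · rw [Submodule.span_le]
          intro x hx
          have : AddSubgroup.closure (Set.range u) ≤ (Submodule.span ℝ (Set.range u)).toAddSubgroup := by
            rw [AddSubgroup.closure_le]
            exact Submodule.subset_span
          exact this hx
        · exact Submodule.span_mono AddSubgroup.subset_closure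
      rw [this, finrank_span_eq_card hui, Fintype.card_fin]
    rw [hrk] at h2
    have hgpos := gdet_pos u hui
    have hsq : 0 < Real.sqrt (gdet u) := Real.sqrt_pos.2 hgpos
    have h3 := h1.trans h2
    rw [div_le_iff₀ hsq] at h3
    have h4 : (n : ℝ) ^ (-(ε * j)) = ((n : ℝ) ^ (-ε)) ^ j := by
      rw [← Real.rpow_natCast, ← Real.rpow_mul hn0.le]
      congr 1
      ring
    rw [h4] at h3
    have h5 : 1 ≤ s ^ j * Real.sqrt (gdet u) := by
      have h6 : s ^ j = 2 ^ j * ((n : ℝ) ^ (-ε)) ^ j := by rw [hs, mul_pow]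
      rw [h6, mul_assoc]
      have h7 : (2 : ℝ) ^ j * (1 / 2) ^ j = 1 := by
        rw [← mul_pow]; norm_num
      calc (1 : ℝ) = 2 ^ j * (1 / 2) ^ j := h7.symm
        _ ≤ _ := mul_le_mul_of_nonneg_left h3 (by positivity)
    have h8 : s ^ (2 * j) * gdet u = (s ^ j * Real.sqrt (gdet u)) ^ 2 := by
      have h9 : Real.sqrt (gdet u) ^ 2 = gdet u := Real.sq_sqrt hgpos.le
      have h10 : ∀ a b : ℝ, (a ^ j * b) ^ 2 = a ^ (2 * j) * b ^ 2 := by intro a b; ring
      rw [h10, h9]
    rw [h8]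
    nlinarith
  set W := Submodule.span ℝ (M : Set E) with hW
  set N : ℕ := ⌈(κ + 1) * n⌉₊ with hN
  have hNn : (κ + 1) * n ≤ N := Nat.le_ceil _
  have hNle : (N : ℝ) ≤ (κ + 2) * n := by
    have := Nat.ceil_lt_add_one (show 0 ≤ (κ + 1) * (n : ℝ) by positivity)
    rw [← hN] at this
    linarith
  have hNN0 : N0 ≤ N := by
    have h1 : (n : ℝ) ≤ N := by nlinarith
    exact hnN0.trans (by exact_mod_cast h1)
  have hfr : Module.finrank ℝ W ≤ N := by
    have h1 : (Module.finrank ℝ W : ℝ) ≤ κ * n := hMr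
    have h2 : (Module.finrank ℝ W : ℝ) ≤ N := by nlinarith
    exact_mod_cast h2
  have hNs : (N : ℝ) ^ ε * s ^ 2 ≤ 1 := by
    have h1 := hn1 n hnn1
    have h2 : (N : ℝ) ^ ε ≤ (κ + 2) ^ ε * (n : ℝ) ^ ε := by
      rw [← Real.mul_rpow (by positivity) hn0.le]
      exact Real.rpow_le_rpow (by positivity) hNle hε.le
    have h3 : (n : ℝ) ^ ε * (n : ℝ) ^ (-ε) = 1 := by
      rw [← Real.rpow_add hn0]; simp
    calc (N : ℝ) ^ ε * s ^ 2 ≤ ((κ + 2) ^ ε * (n : ℝ) ^ ε) * s ^ 2 := by
          exact mul_le_mul_of_nonneg_right h2 (by positivity)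
      _ = (4 * (κ + 2) ^ ε) * ((n : ℝ) ^ (-ε)) * ((n : ℝ) ^ ε * (n : ℝ) ^ (-ε)) := by
          rw [hs]; ring
      _ = (4 * (κ + 2) ^ ε) * ((n : ℝ) ^ (-ε)) := by rw [h3, mul_one]
      _ ≤ 1 := h1
  have hmain := hN0 N hNN0 W hfr (secL W (sc s M)) (good_sec hgood W)
  have hfinal : ∀ S : Finset M, ∑ x ∈ S, Real.exp (-1 * ‖(x : E) + 0‖ ^ 2) ≤ 2 := by
    classical
    intro S
    let f : M → W := fun x => ⟨s • (x : E), W.smul_mem _ (Submodule.subset_span x.2)⟩
    have hf : Function.Injective f := by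
      intro x y hxy
      have h1 : s • (x : E) = s • (y : E) := congrArg Subtype.val hxy
      exact Subtype.ext (smul_right_injective E hs0.ne' h1)
    have h1 := hmain (S.image f) (by
      intro y hy
      obtain ⟨x, _, rfl⟩ := Finset.mem_image.1 hy
      exact ⟨x, x.2, rfl⟩)
    rw [Finset.sum_image (fun x _ y _ h => hf h)] at h1
    refine le_trans (Finset.sum_le_sum fun x _ => Real.exp_le_exp.2 ?_) h1
    have h2 : ‖f x‖ = s * ‖(x : E)‖ := by
      change ‖s • (x : E)‖ = _
      rw [norm_smul, Real.norm_eq_abs, abs_of_pos hs0]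
    rw [h2, add_zero, mul_pow]
    have h3 : (N : ℝ) ^ ε * (s ^ 2 * ‖(x : E)‖ ^ 2) ≤ 1 * ‖(x : E)‖ ^ 2 := by
      rw [← mul_assoc]
      exact mul_le_mul_of_nonneg_right hNs (by positivity)
    linarith
  have hth : H460.th M 0 1 ≤ 2 := by
    unfold H460.th
    exact Real.tsum_le_of_sum_le (fun x => (Real.exp_pos _).le) hfinal
  refine hth.trans ?_
  calc (2 : ℝ) = 2 ^ (1 : ℝ) := (Real.rpow_one 2).symm
    _ ≤ 2 ^ (b * n) := Real.rpow_le_rpow_of_exponent_le (by norm_num) hbn

end H890
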