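import Pool.Agent.H890R2.RM.Defs

set_option autoImplicit false
open MeasureTheory
open scoped ENNReal Pointwise RealInnerProductSpace

/-! Comparison of Gaussian and Rademacher averages. -/

namespace H890

namespace GSIGN

lemma sg_sq (b : Bool) : sg b * sg b = 1 := by cases b <;> simp [sg]

lemma sg_mul (a b : Bool) : sg a * sg b = sg (a == b) := by cases a <;> cases b <;> simp [sg]

lemma sum_bool (f : Bool → ℝ) : ∑ b, f b = f true + f false := by
  simp

section wts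
variable {d : ℕ} (y : Fin d → ℝ)

/-- product weights with mean `y` -/
noncomputable def wt (τ : Fin d → Bool) : ℝ := ∏ i, (1 + y i * sg (τ i)) / 2

lemma wt_nonneg (hy : ∀ i, |y i| ≤ 1) (τ : Fin d → Bool) : 0 ≤ wt y τ := by
  unfold wt
  refine Finset.prod_nonneg fun i _ => ?_
  have h := abs_le.mp (hy i)
  cases τ i <;> simp [sg] <;> linarith

lemma sum_prod_bool (f : Fin d → Bool → ℝ) :
    ∑ τ : Fin d → Bool, ∏ i, f i (τ i) = ∏ i, ∑ b, f i b := by
  rw [Finset.prod_univ_sum, Fintype.piFinset_univ]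

lemma wt_sum : ∑ τ, wt y τ = 1 := by
  unfold wt
  rw [sum_prod_bool (fun i b => (1 + y i * sg b) / 2)]
  refine Finset.prod_eq_one fun i _ => ?_
  rw [sum_bool]
  simp only [sg]
  norm_num
  ring

lemma wt_mean (i : Fin d) : ∑ τ, wt y τ * sg (τ i) = y i := by
  have h1 : ∀ τ : Fin d → Bool, wt y τ * sg (τ i) =
      ∏ j, ((1 + y j * sg (τ j)) / 2 * (if j = i then sg (τ j) else 1)) := by
    intro τ
    rw [Finset.prod_mul_distrib, Finset.prod_ite_eq' Finset.univ i (fun j => sg (τ j)),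
      if_pos (Finset.mem_univ _)]
    rfl
  simp_rw [h1]
  rw [sum_prod_bool (fun j b => (1 + y j * sg b) / 2 * (if j = i then sg b else 1))]
  have h2 : ∀ j : Fin d, ∑ b : Bool, ((1 + y j * sg b) / 2 * (if j = i then sg b else 1)) =
      if j = i then y j else 1 := by
    intro j
    rw [sum_bool]
    split_ifs <;> simp only [sg] <;> norm_num <;> ring
  simp_rw [h2]
  rw [Finset.prod_ite_eq' Finset.univ i (fun j => y j), if_pos (Finset.mem_univ _)]

end wts

variable {V : Type*} [NormedAddCommGroup V] [InnerProductSpace ℝ V]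

/-- `q` of a convex combination -/
lemma q_sum {ι : Type*} (q : V → ℝ) (h0 : ∀ x, 0 ≤ q x) (hadd : ∀ x y, q (x + y) ≤ q x + q y)
    (hsm : ∀ (c : ℝ) (x : V), q (c • x) = |c| * q x) (s : Finset ι) (w : ι → ℝ) (z : ι → V)
    (hw : ∀ i ∈ s, 0 ≤ w i) : q (∑ i ∈ s, w i • z i) ≤ ∑ i ∈ s, w i * q (z i) := by
  classical
  induction s using Finset.induction_on with
  | empty =>
    have := hsm 0 0
    simp only [zero_smul, abs_zero, zero_mul] at this
    simp [this]
  | insert a s ha ih =>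
    rw [Finset.sum_insert ha, Finset.sum_insert ha]
    refine (hadd _ _).trans ?_
    have h1 := ih fun i hi => hw i (Finset.mem_insert_of_mem hi)
    rw [hsm, abs_of_nonneg (hw a (Finset.mem_insert_self _ _))]
    linarith

/-- contraction principle -/
lemma contraction {d : ℕ} (b : OrthonormalBasis (Fin d) ℝ V) (q : V → ℝ) (h0 : ∀ x, 0 ≤ q x)
    (hadd : ∀ x y, q (x + y) ≤ q x + q y) (hsm : ∀ (c : ℝ) (x : V), q (c • x) = |c| * q x)
    (r : ℕ) (y : Fin d → ℝ) (hy : ∀ i, |y i| ≤ 1) :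
    ∑ σ : Fin d → Bool, q (∑ i, (sg (σ i) * y i) • b i) ^ r ≤
      ∑ σ : Fin d → Bool, q (bv b σ) ^ r := by
  have h1 : ∀ σ : Fin d → Bool, ∑ i, (sg (σ i) * y i) • b i =
      ∑ τ : Fin d → Bool, wt y τ • bv b (fun i => σ i == τ i) := by
    intro σ
    unfold bv
    simp_rw [Finset.smul_sum, smul_smul]
    rw [Finset.sum_comm]
    refine Finset.sum_congr rfl fun i _ => ?_
    rw [← Finset.sum_smul]
    congr 1
    conv_lhs => rw [← wt_mean y i]
    rw [Finset.mul_sum]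
    refine Finset.sum_congr rfl fun τ _ => ?_
    rw [← sg_mul]
    ring
  have hre : ∀ τ : Fin d → Bool, ∑ σ : Fin d → Bool, q (bv b (fun i => σ i == τ i)) ^ r =
      ∑ σ : Fin d → Bool, q (bv b σ) ^ r := by
    intro τ
    refine Fintype.sum_bijective (fun σ : Fin d → Bool => fun i => σ i == τ i) ?_ _ _ (fun _ => rfl)
    apply Function.Involutive.bijective
    intro σ
    funext i
    show ((σ i == τ i) == τ i) = σ i
    generalize σ i = s1
    generalize τ i = s2
    cases s1 <;> cases s2 <;> rfl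
  calc ∑ σ : Fin d → Bool, q (∑ i, (sg (σ i) * y i) • b i) ^ r
      ≤ ∑ σ : Fin d → Bool, ∑ τ : Fin d → Bool, wt y τ * q (bv b (fun i => σ i == τ i)) ^ r := by
        refine Finset.sum_le_sum fun σ _ => ?_
        rw [h1 σ]
        calc q (∑ τ : Fin d → Bool, wt y τ • bv b (fun i => σ i == τ i)) ^ r
            ≤ (∑ τ : Fin d → Bool, wt y τ * q (bv b (fun i => σ i == τ i))) ^ r := by
              apply pow_le_pow_left₀ (h0 _)
              exact q_sum q h0 hadd hsm _ _ _ fun τ _ => wt_nonneg y hy τ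
          _ ≤ _ := Real.pow_arith_mean_le_arith_mean_pow _ _ _ (fun τ _ => wt_nonneg y hy τ)
              (wt_sum y) (fun τ _ => h0 _) r
    _ = ∑ τ : Fin d → Bool, wt y τ * ∑ σ : Fin d → Bool, q (bv b σ) ^ r := by
        rw [Finset.sum_comm]
        refine Finset.sum_congr rfl fun τ _ => ?_
        rw [← Finset.mul_sum, hre τ]
    _ = _ := by rw [← Finset.sum_mul, wt_sum, one_mul]

/-- sign change in an orthonormal basis -/
noncomputable def Rs {d : ℕ} (b : OrthonormalBasis (Fin d) ℝ V) (σ : Fin d → Bool) : V →L[ℝ] V :=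
  ∑ i, sg (σ i) • ((innerSL ℝ (b i)).smulRight (b i))

lemma Rs_apply {d : ℕ} (b : OrthonormalBasis (Fin d) ℝ V) (σ : Fin d → Bool) (x : V) :
    Rs b σ x = ∑ i, (sg (σ i) * ⟪b i, x⟫) • b i := by
  unfold Rs
  simp [smul_smul]

lemma inner_Rs {d : ℕ} (b : OrthonormalBasis (Fin d) ℝ V) (σ : Fin d → Bool) (x t : V) :
    ⟪Rs b σ x, t⟫ = ⟪x, Rs b σ t⟫ := by
  rw [Rs_apply, Rs_apply, sum_inner, inner_sum]
  refine Finset.sum_congr rfl fun i _ => ?_
  rw [real_inner_smul_left, real_inner_smul_right, real_inner_comm x (b i)]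
  ring

lemma Rs_Rs {d : ℕ} (b : OrthonormalBasis (Fin d) ℝ V) (σ : Fin d → Bool) (x : V) :
    Rs b σ (Rs b σ x) = x := by
  have h1 : ∀ i, ⟪b i, Rs b σ x⟫ = sg (σ i) * ⟪b i, x⟫ := by
    intro i
    rw [Rs_apply, inner_sum]
    simp_rw [real_inner_smul_right]
    have h2 : ∀ j, sg (σ j) * ⟪b j, x⟫ * ⟪b i, b j⟫ = if i = j then sg (σ j) * ⟪b j, x⟫ else 0 := by
      intro j
      rw [orthonormal_iff_ite.mp b.orthonormal i j]
      split_ifs <;> simp
    simp_rw [h2]
    rw [Finset.sum_ite_eq, if_pos (Finset.mem_univ _)]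
  rw [Rs_apply]
  simp_rw [h1, ← mul_assoc, sg_sq, one_mul]
  exact b.sum_repr' x

lemma norm_Rs {d : ℕ} (b : OrthonormalBasis (Fin d) ℝ V) (σ : Fin d → Bool) (x : V) :
    ‖Rs b σ x‖ = ‖x‖ := by
  have h : ‖Rs b σ x‖ ^ 2 = ‖x‖ ^ 2 := by
    rw [← real_inner_self_eq_norm_sq, ← real_inner_self_eq_norm_sq, inner_Rs, Rs_Rs]
  exact (pow_left_inj₀ (norm_nonneg _) (norm_nonneg _) (by norm_num)).mp h

variable [FiniteDimensional ℝ V] [MeasurableSpace V] [BorelSpace V]

lemma map_Rs {d : ℕ} (b : OrthonormalBasis (Fin d) ℝ V) (σ : Fin d → Bool) :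
    (gam V).map (Rs b σ) = gam V :=
  map_gam (Rs b σ) (Rs b σ) (inner_Rs b σ) (norm_Rs b σ)

lemma integral_Rs {d : ℕ} (b : OrthonormalBasis (Fin d) ℝ V) (σ : Fin d → Bool) (f : V → ℝ)
    (hf : Continuous f) : ∫ x, f (Rs b σ x) ∂(gam V) = ∫ x, f x ∂(gam V) := by
  conv_rhs => rw [← map_Rs b σ]
  rw [integral_map (Rs b σ).continuous.measurable.aemeasurable hf.aestronglyMeasurable]

/-- polynomial bound of a seminorm -/
lemma q_le {d : ℕ} (b : OrthonormalBasis (Fin d) ℝ V) (q : V → ℝ) (h0 : ∀ x, 0 ≤ q x)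
    (hadd : ∀ x y, q (x + y) ≤ q x + q y) (hsm : ∀ (c : ℝ) (x : V), q (c • x) = |c| * q x)
    (x : V) : q x ≤ (∑ i, q (b i)) * ‖x‖ := by
  have h1 : x = ∑ i, |⟪b i, x⟫| • ((if 0 ≤ ⟪b i, x⟫ then (1 : ℝ) else -1) • b i) := by
    conv_lhs => rw [← b.sum_repr' x]
    refine Finset.sum_congr rfl fun i _ => ?_
    rw [smul_smul]
    congr 1
    split_ifs with h
    · rw [abs_of_nonneg h, mul_one]
    · rw [abs_of_neg (not_le.mp h)]; ring
  calc q x = q (∑ i, |⟪b i, x⟫| • ((if 0 ≤ ⟪b i, x⟫ then (1 : ℝ) else -1) • b i)) := by rw [← h1]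
    _ ≤ ∑ i, |⟪b i, x⟫| * q ((if 0 ≤ ⟪b i, x⟫ then (1 : ℝ) else -1) • b i) :=
        q_sum q h0 hadd hsm _ _ _ fun i _ => abs_nonneg _
    _ ≤ ∑ i, ‖x‖ * q (b i) := by
        refine Finset.sum_le_sum fun i _ => ?_
        rw [hsm]
        have h2 : |(if 0 ≤ ⟪b i, x⟫ then (1 : ℝ) else -1)| = 1 := by split_ifs <;> simp
        rw [h2, one_mul]
        apply mul_le_mul_of_nonneg_right _ (h0 _)
        have := abs_real_inner_le_norm (b i) x
        rwa [b.norm_eq_one, one_mul] at this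
    _ = (∑ i, q (b i)) * ‖x‖ := by rw [← Finset.mul_sum, mul_comm]

lemma q_integrable {d : ℕ} (b : OrthonormalBasis (Fin d) ℝ V) (q : V → ℝ) (hc : Continuous q)
    (h0 : ∀ x, 0 ≤ q x)
    (hadd : ∀ x y, q (x + y) ≤ q x + q y) (hsm : ∀ (c : ℝ) (x : V), q (c • x) = |c| * q x)
    (r : ℕ) : Integrable (fun x => q x ^ r) (gam V) := by
  have h1 : Integrable (fun x : V => (∑ i, q (b i)) ^ r * ‖x‖ ^ r) (gam V) :=
    (integrable_norm_pow r).const_mul _
  refine h1.mono' (hc.pow r).aestronglyMeasurable (Filter.Eventually.of_forall fun x => ?_)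
  rw [Real.norm_of_nonneg (pow_nonneg (h0 x) r), ← mul_pow]
  exact pow_le_pow_left₀ (h0 x) (q_le b q h0 hadd hsm x) r

/-- pointwise estimate after averaging over signs, integrated -/
lemma main {d : ℕ} (b : OrthonormalBasis (Fin d) ℝ V) (q : V → ℝ) (hc : Continuous q)
    (h0 : ∀ x, 0 ≤ q x)
    (hadd : ∀ x y, q (x + y) ≤ q x + q y) (hsm : ∀ (c : ℝ) (x : V), q (c • x) = |c| * q x)
    (r : ℕ) (hr : 1 ≤ r) (a : V → ℝ) (ha0 : ∀ x, 0 ≤ a x) (ha : ∀ x i, |⟪x, b i⟫| ≤ a x)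
    (hai : Integrable (fun x => a x ^ r) (gam V)) :
    ∫ x, q x ^ r ∂(gam V) ≤ (∫ x, a x ^ r ∂(gam V)) * avg (fun ε => q (bv b ε) ^ r) := by
  have hcr : Continuous (fun x => q x ^ r) := hc.pow r
  have h1 : ∀ σ : Fin d → Bool, ∫ x, q (Rs b σ x) ^ r ∂(gam V) = ∫ x, q x ^ r ∂(gam V) := fun σ =>
    integral_Rs b σ (fun x => q x ^ r) hcr
  have h2 : ∀ σ : Fin d → Bool, Integrable (fun x => q (Rs b σ x) ^ r) (gam V) := by
    intro σ
    have := q_integrable b (fun x => q (Rs b σ x)) (hc.comp (Rs b σ).continuous) (fun x => h0 _)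
      (fun x y => by rw [map_add]; exact hadd _ _) (fun c x => by rw [map_smul]; exact hsm _ _) r
    exact this
  have h3 : ∫ x, q x ^ r ∂(gam V) =
      ∫ x, (2 ^ d : ℝ)⁻¹ * ∑ σ : Fin d → Bool, q (Rs b σ x) ^ r ∂(gam V) := by
    rw [integral_const_mul, integral_finsetSum _ fun σ _ => h2 σ]
    simp_rw [h1]
    rw [Finset.sum_const, Finset.card_univ, Fintype.card_fun, Fintype.card_bool, Fintype.card_fin,
      nsmul_eq_mul]
    push_cast
    rw [← mul_assoc, inv_mul_cancel₀ (by positivity), one_mul]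
  rw [h3, ← integral_mul_const]
  refine integral_mono ((integrable_finsetSum _ fun σ _ => h2 σ).const_mul _)
    (hai.mul_const _) fun x => ?_
  -- pointwise
  show (2 ^ d : ℝ)⁻¹ * ∑ σ : Fin d → Bool, q (Rs b σ x) ^ r ≤ a x ^ r * avg (fun ε => q (bv b ε) ^ r)
  have h4 : ∀ i, |⟪b i, x⟫| ≤ a x := fun i => by
    have := ha x i
    rwa [real_inner_comm] at this
  by_cases hax : a x = 0
  · have h5 : ∀ σ : Fin d → Bool, Rs b σ x = 0 := by
      intro σ
      rw [Rs_apply]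
      refine Finset.sum_eq_zero fun i _ => ?_
      have h6 := h4 i
      rw [hax] at h6
      rw [abs_nonpos_iff.mp h6, mul_zero, zero_smul]
    have hq0 : q 0 = 0 := by
      have := hsm 0 0
      simpa using this
    simp only [h5, hq0, hax]
    rw [zero_pow (by omega)]
    simp
  · have hax' : 0 < a x := lt_of_le_of_ne (ha0 x) (Ne.symm hax)
    have h5 : ∀ σ : Fin d → Bool, q (Rs b σ x) ^ r =
        a x ^ r * q (∑ i, (sg (σ i) * (⟪b i, x⟫ / a x)) • b i) ^ r := by
      intro σ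
      rw [← mul_pow]
      congr 1
      have h6 : Rs b σ x = a x • ∑ i, (sg (σ i) * (⟪b i, x⟫ / a x)) • b i := by
        rw [Rs_apply, Finset.smul_sum]
        refine Finset.sum_congr rfl fun i _ => ?_
        rw [smul_smul]
        congr 1
        field_simp
      rw [h6, hsm, abs_of_pos hax']
    simp_rw [h5]
    rw [← Finset.mul_sum]
    unfold avg
    have h7 := contraction b q h0 hadd hsm r (fun i => ⟪b i, x⟫ / a x) (fun i => by
      rw [abs_div, abs_of_pos hax', div_le_one hax']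
      exact h4 i)
    have h8 : 0 ≤ (2 ^ d : ℝ)⁻¹ * a x ^ r := by positivity
    calc _ = (2 ^ d : ℝ)⁻¹ * a x ^ r *
          ∑ σ : Fin d → Bool, q (∑ i, (sg (σ i) * (⟪b i, x⟫ / a x)) • b i) ^ r := by ring
      _ ≤ (2 ^ d : ℝ)⁻¹ * a x ^ r * ∑ σ : Fin d → Bool, q (bv b σ) ^ r :=
          mul_le_mul_of_nonneg_left h7 h8
      _ = _ := by ring

end GSIGN

open GSIGN in
theorem gsign (p : ℕ) (hp : 1 ≤ p) : ∃ C : ℝ, 0 < C ∧
    ∀ (V : Type) [NormedAddCommGroup V] [InnerProductSpace ℝ V] [FiniteDimensional ℝ V]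
      [MeasurableSpace V] [BorelSpace V] (d : ℕ) (b : OrthonormalBasis (Fin d) ℝ V) (q : V → ℝ),
      Continuous q → (∀ x, 0 ≤ q x) → (∀ x y, q (x + y) ≤ q x + q y) →
      (∀ (c : ℝ) (x : V), q (c • x) = |c| * q x) →
      ∫ x, q x ^ p ∂(gam V) ≤ d * C * avg (fun ε => q (bv b ε) ^ p) ∧
      (∫ x, q x ∂(gam V)) ^ p ≤ d * C * (avg (fun ε => q (bv b ε))) ^ p := by
  obtain ⟨c, hc, hmom⟩ := marginal_moment p
  refine ⟨c, hc, ?_⟩
  intro V _ _ _ _ _ d b q hcont h0 hadd hsm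
  -- the function `a`
  set S : V → ℝ := fun x => ∑ i, |⟪x, b i⟫| ^ p with hS
  set a : V → ℝ := fun x => S x ^ ((p : ℝ)⁻¹) with ha
  have hS0 : ∀ x, 0 ≤ S x := fun x => Finset.sum_nonneg fun i _ => by positivity
  have hap : ∀ x, a x ^ p = S x := fun x => Real.rpow_inv_natCast_pow (hS0 x) (by omega)
  have ha0 : ∀ x, 0 ≤ a x := fun x => Real.rpow_nonneg (hS0 x) _
  have hai : ∀ x i, |⟪x, b i⟫| ≤ a x := by
    intro x i
    have h1 : |⟪x, b i⟫| ^ p ≤ a x ^ p := by
      rw [hap]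
      exact Finset.single_le_sum (f := fun i => |⟪x, b i⟫| ^ p) (fun i _ => by positivity)
        (Finset.mem_univ i)
    exact (pow_le_pow_iff_left₀ (abs_nonneg _) (ha0 x) (by omega)).mp h1
  have hSi : Integrable S (gam V) :=
    integrable_finsetSum _ fun i _ => (hmom V (b i) (b.norm_eq_one i)).1
  have hSint : ∫ x, S x ∂(gam V) ≤ d * c := by
    rw [hS]
    rw [integral_finsetSum _ fun i _ => (hmom V (b i) (b.norm_eq_one i)).1]
    calc ∑ i : Fin d, ∫ x, |⟪x, b i⟫| ^ p ∂(gam V) ≤ ∑ i : Fin d, c :=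
          Finset.sum_le_sum fun i _ => (hmom V (b i) (b.norm_eq_one i)).2
      _ = d * c := by simp
  have hapi : Integrable (fun x => a x ^ p) (gam V) := by simp_rw [hap]; exact hSi
  have hapint : ∫ x, a x ^ p ∂(gam V) ≤ d * c := by simp_rw [hap]; exact hSint
  have hScont : Continuous S := by
    rw [hS]
    refine continuous_finsetSum _ fun i _ => ?_
    fun_prop
  have hacont : Continuous a := by
    rw [ha]
    exact hScont.rpow_const fun x => Or.inr (by positivity)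
  have ha1 : Integrable a (gam V) := by
    refine ((integrable_const (1 : ℝ)).add hapi).mono' hacont.aestronglyMeasurable
      (Filter.Eventually.of_forall fun x => ?_)
    rw [Real.norm_of_nonneg (ha0 x)]
    show a x ≤ 1 + a x ^ p
    by_cases h1 : a x ≤ 1
    · have := pow_nonneg (ha0 x) p
      linarith
    · have h2 : a x ≤ a x ^ p := le_self_pow₀ (not_le.mp h1).le (by omega)
      linarith
  have havg : 0 ≤ avg (fun ε => q (bv b ε) ^ p) := by
    unfold avg
    have : 0 ≤ ∑ ε : Fin d → Bool, q (bv b ε) ^ p := Finset.sum_nonneg fun ε _ => pow_nonneg (h0 _) p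
    positivity
  have havg1 : 0 ≤ avg (fun ε => q (bv b ε)) := by
    unfold avg
    have : 0 ≤ ∑ ε : Fin d → Bool, q (bv b ε) := Finset.sum_nonneg fun ε _ => h0 _
    positivity
  constructor
  · refine (main b q hcont h0 hadd hsm p hp a ha0 hai hapi).trans ?_
    exact mul_le_mul_of_nonneg_right hapint havg
  · have h1 := main b q hcont h0 hadd hsm 1 le_rfl a ha0 hai (by simpa using ha1)
    simp only [pow_one] at h1
    have h2 : (∫ x, a x ∂(gam V)) ^ p ≤ ∫ x, a x ^ p ∂(gam V) := by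
      have h3 := (convexOn_pow p).map_integral_le (μ := gam V) (f := a)
        (continuous_pow p).continuousOn isClosed_Ici
        (Filter.Eventually.of_forall fun x => ha0 x) ha1 hapi
      exact h3
    have h4 : 0 ≤ ∫ x, q x ∂(gam V) := integral_nonneg fun x => h0 x
    calc (∫ x, q x ∂(gam V)) ^ p ≤ ((∫ x, a x ∂(gam V)) * avg (fun ε => q (bv b ε))) ^ p :=
          pow_le_pow_left₀ h4 h1 p
      _ = (∫ x, a x ∂(gam V)) ^ p * (avg (fun ε => q (bv b ε))) ^ p := mul_pow _ _ _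
      _ ≤ (d * c) * (avg (fun ε => q (bv b ε))) ^ p := by
          apply mul_le_mul_of_nonneg_right (h2.trans hapint) (by positivity)

end H890
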