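import Pool.Agent.H890R2.RM.Defs
import Pool.Agent.H845R2.Sa

set_option autoImplicit false
open MeasureTheory
open scoped ENNReal Pointwise RealInnerProductSpace

/-! Gaussian width of a body of volume at least one. -/

namespace H890

section WIDTHbasic

variable {V : Type*} [NormedAddCommGroup V] [InnerProductSpace ℝ V]

lemma WIDTH_sb {K : Set V} (hK : Body K) : Pool.Agent.H845R2.SB K :=
  ⟨hK.comp, hK.conv, hK.symm, hK.int⟩

lemma WIDTH_zero {K : Set V} (hK : Body K) : (0 : V) ∈ K := (WIDTH_sb hK).zero_mem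

lemma WIDTH_att {K : Set V} (hK : Body K) (x : V) :
    (∃ y ∈ K, ⟪x, y⟫ = hs K x) ∧ ∀ y ∈ K, ⟪x, y⟫ ≤ hs K x := by
  obtain ⟨y, hy, hmax⟩ := hK.comp.exists_isMaxOn ⟨0, WIDTH_zero hK⟩
    (f := fun y => ⟪x, y⟫) (by fun_prop)
  have hg : IsGreatest ((fun y => ⟪x, y⟫) '' K) ⟪x, y⟫ := by
    refine ⟨⟨y, hy, rfl⟩, ?_⟩
    rintro _ ⟨z, hz, rfl⟩
    exact hmax hz
  have h1 : hs K x = ⟪x, y⟫ := hg.csSup_eq
  refine ⟨⟨y, hy, h1.symm⟩, fun z hz => ?_⟩
  rw [h1]
  exact hmax hz

lemma WIDTH_abs {K : Set V} (hK : Body K) (x y : V) (hy : y ∈ K) : |⟪x, y⟫| ≤ hs K x := by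
  rw [abs_le]
  constructor
  · have := (WIDTH_att hK x).2 (-y) (hK.symm y hy)
    rw [inner_neg_right] at this
    linarith
  · exact (WIDTH_att hK x).2 y hy

lemma WIDTH_nonneg {K : Set V} (hK : Body K) (x : V) : 0 ≤ hs K x := by
  have := (WIDTH_att hK x).2 0 (WIDTH_zero hK)
  simpa using this

lemma WIDTH_add {K : Set V} (hK : Body K) (x y : V) : hs K (x + y) ≤ hs K x + hs K y := by
  obtain ⟨z, hz, h⟩ := (WIDTH_att hK (x + y)).1
  rw [← h, inner_add_left]
  exact add_le_add ((WIDTH_att hK x).2 z hz) ((WIDTH_att hK y).2 z hz)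

lemma WIDTH_smul {K : Set V} (hK : Body K) (c : ℝ) (x : V) : hs K (c • x) = |c| * hs K x := by
  apply le_antisymm
  · obtain ⟨z, hz, h⟩ := (WIDTH_att hK (c • x)).1
    rw [← h, inner_smul_left]
    simp only [conj_trivial]
    calc c * ⟪x, z⟫ ≤ |c * ⟪x, z⟫| := le_abs_self _
      _ = |c| * |⟪x, z⟫| := abs_mul _ _
      _ ≤ _ := mul_le_mul_of_nonneg_left (WIDTH_abs hK x z hz) (abs_nonneg _)
  · obtain ⟨z, hz, h⟩ := (WIDTH_att hK x).1
    rw [← h]
    rcases le_total 0 c with hc | hc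
    · have := (WIDTH_att hK (c • x)).2 z hz
      rw [inner_smul_left] at this
      rw [abs_of_nonneg hc]
      simpa using this
    · have := (WIDTH_att hK (c • x)).2 (-z) (hK.symm z hz)
      rw [inner_smul_left, inner_neg_right] at this
      rw [abs_of_nonpos hc]
      simp only [conj_trivial] at this
      linarith

lemma WIDTH_bound {K : Set V} (hK : Body K) : ∃ R : ℝ, 0 < R ∧ ∀ x, hs K x ≤ R * ‖x‖ := by
  obtain ⟨R, hR, h⟩ := (WIDTH_sb hK).exists_bound
  refine ⟨R, hR, fun x => ?_⟩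
  obtain ⟨z, hz, h1⟩ := (WIDTH_att hK x).1
  rw [← h1]
  calc ⟪x, z⟫ ≤ ‖x‖ * ‖z‖ := real_inner_le_norm x z
    _ ≤ ‖x‖ * R := mul_le_mul_of_nonneg_left (h z hz) (norm_nonneg _)
    _ = R * ‖x‖ := mul_comm _ _

end WIDTHbasic

theorem hs_cont {V : Type*} [NormedAddCommGroup V] [InnerProductSpace ℝ V] [FiniteDimensional ℝ V]
    {K : Set V} (hK : Body K) : Continuous (hs K) := by
  obtain ⟨R, hR, h⟩ := WIDTH_bound hK
  refine (LipschitzWith.of_dist_le_mul (K := ⟨R, hR.le⟩) fun x y => ?_).continuous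
  rw [Real.dist_eq, dist_eq_norm]
  have h1 : ∀ x y : V, hs K x - hs K y ≤ R * ‖x - y‖ := by
    intro x y
    have := WIDTH_add hK (x - y) y
    rw [sub_add_cancel] at this
    linarith [h (x - y)]
  rw [abs_le]
  constructor
  · have := h1 y x
    rw [norm_sub_rev] at this
    show -(R * ‖x - y‖) ≤ _
    linarith
  · exact h1 x y

theorem hs_seminorm {V : Type*} [NormedAddCommGroup V] [InnerProductSpace ℝ V] [FiniteDimensional ℝ V]
    {K : Set V} (hK : Body K) : (∀ x, 0 ≤ hs K x) ∧ (∀ x y, hs K (x + y) ≤ hs K x + hs K y) ∧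
      (∀ (c : ℝ) (x : V), hs K (c • x) = |c| * hs K x) ∧ (∀ x, ∃ y ∈ K, ⟪x, y⟫ = hs K x) :=
  ⟨WIDTH_nonneg hK, WIDTH_add hK, WIDTH_smul hK, fun x => (WIDTH_att hK x).1⟩

/-- Santalo's inequality in an arbitrary space -/
theorem WIDTH_santalo {V : Type*} [NormedAddCommGroup V] [InnerProductSpace ℝ V]
    [FiniteDimensional ℝ V] [MeasurableSpace V] [BorelSpace V] (hd : 0 < Module.finrank ℝ V)
    {K : Set V} (hK : Body K) :
    (volume K).toReal * (volume (Pool.Agent.H845R2.pol K)).toReal ≤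
      (2 * Real.pi * Real.exp 1 / (Module.finrank ℝ V : ℝ)) ^ Module.finrank ℝ V := by
  set e := (stdOrthonormalBasis ℝ V).repr with he
  set K' : Set (EuclideanSpace ℝ (Fin (Module.finrank ℝ V))) := e.symm ⁻¹' K with hK'
  have himg : K' = e '' K := by
    rw [hK']
    ext y
    constructor
    · intro hy
      exact ⟨e.symm y, hy, by simp⟩
    · rintro ⟨x, hx, rfl⟩
      simpa using hx
  have hSB : Pool.Agent.H845R2.SB K' := by
    refine ⟨?_, ?_, ?_, ?_⟩
    · rw [himg]; exact hK.comp.image e.continuous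
    · exact hK.conv.is_linear_preimage e.symm.toLinearEquiv.toLinearMap.isLinear
    · intro x hx
      show e.symm (-x) ∈ K
      rw [map_neg]
      exact hK.symm _ hx
    · have h1 : e.symm.toHomeomorph ⁻¹' (interior K) = interior (e.symm.toHomeomorph ⁻¹' K) :=
        e.symm.toHomeomorph.preimage_interior K
      have h2 : interior K' = e.symm.toHomeomorph ⁻¹' (interior K) := h1.symm
      rw [h2]
      obtain ⟨x, hx⟩ := hK.int
      exact ⟨e x, by show e.symm (e x) ∈ interior K; simpa using hx⟩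
  have hpol : Pool.Agent.H845R2.pol K' = e.symm ⁻¹' (Pool.Agent.H845R2.pol K) := by
    ext y
    constructor
    · intro hy x hx
      have := hy (e x) (by show e.symm (e x) ∈ K; simpa using hx)
      rwa [← e.inner_map_map x (e.symm y), e.apply_symm_apply]
    · intro hy x hx
      have := hy (e.symm x) hx
      rwa [e.symm.inner_map_map] at this
  have hmp : MeasurePreserving e.symm := e.symm.measurePreserving
  have hv1 : volume K' = volume K :=
    hmp.measure_preimage hK.comp.measurableSet.nullMeasurableSet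
  have hv2 : volume (Pool.Agent.H845R2.pol K') = volume (Pool.Agent.H845R2.pol K) := by
    rw [hpol]
    exact hmp.measure_preimage
      (Pool.Agent.H845R2.pol_closed K).measurableSet.nullMeasurableSet
  have := Pool.Agent.H845R2.santalo_bound hd hSB
  rwa [hv1, hv2] at this

theorem width : ∃ c : ℝ, 0 < c ∧ ∀ (V : Type) [NormedAddCommGroup V] [InnerProductSpace ℝ V]
    [FiniteDimensional ℝ V] [MeasurableSpace V] [BorelSpace V] (d : ℕ), Module.finrank ℝ V = d → 1 ≤ d →
    ∀ K : Set V, Body K → 1 ≤ volume K → c * d ≤ ∫ x, hs K x ∂(gam V) := by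
  have hpi := Real.pi_pos
  have he := Real.exp_pos 1
  refine ⟨1 / (8 * Real.pi * Real.exp 1), by positivity, ?_⟩
  intro V _ _ _ _ _ d hd hd1 K hK hvol
  subst hd
  by_contra hcon
  push Not at hcon
  set n := Module.finrank ℝ V with hn
  have hn0 : (0 : ℝ) < n := by exact_mod_cast hd1
  set w : ℝ := ∫ x, hs K x ∂(gam V) with hw
  set s : ℝ := 2 * (1 / (8 * Real.pi * Real.exp 1) * n) with hs'
  have hs0 : 0 < s := by positivity
  obtain ⟨R, hR, hRb⟩ := WIDTH_bound hK
  have hint : Integrable (hs K) (gam V) := by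
    have h1 := (integrable_norm_pow (V := V) 1).const_mul R
    refine h1.mono' (hs_cont hK).aestronglyMeasurable (Filter.Eventually.of_forall fun x => ?_)
    rw [Real.norm_eq_abs, abs_of_nonneg (WIDTH_nonneg hK x), pow_one]
    exact hRb x
  have hmark := mul_meas_ge_le_integral_of_nonneg
    (Filter.Eventually.of_forall (WIDTH_nonneg hK)) hint s
  -- the set where the support function is small
  have hsmall : 1 / 2 < (gam V).real {x | hs K x ≤ s} := by
    have h1 : (gam V).real {x | s ≤ hs K x} < 1 / 2 := by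
      by_contra hc
      push Not at hc
      have : s * (1 / 2) ≤ w := (mul_le_mul_of_nonneg_left hc hs0.le).trans hmark
      linarith
    have h2 : (gam V).real {x | s ≤ hs K x}ᶜ = 1 - (gam V).real {x | s ≤ hs K x} :=
      probReal_compl_eq_one_sub (measurableSet_le measurable_const (hs_cont hK).measurable)
    have h3 : (gam V).real {x | s ≤ hs K x}ᶜ ≤ (gam V).real {x | hs K x ≤ s} := by
      apply measureReal_mono _ (measure_ne_top _ _)
      intro x hx
      simp only [Set.mem_compl_iff, Set.mem_ofPred_eq, not_le] at hx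
      exact hx.le
    linarith
  have hsub : {x | hs K x ≤ s} ⊆ s • Pool.Agent.H845R2.pol K := by
    intro x hx
    rw [Set.mem_smul_set_iff_inv_smul_mem₀ hs0.ne']
    intro y hy
    rw [inner_smul_right, real_inner_comm, inv_mul_le_iff₀ hs0, mul_one]
    exact ((WIDTH_att hK x).2 y hy).trans hx
  have hPc : IsCompact (Pool.Agent.H845R2.pol K) := (WIDTH_sb hK).pol.comp
  have hPfin : volume (Pool.Agent.H845R2.pol K) ≠ ∞ := hPc.measure_lt_top.ne
  have hKfin : volume K ≠ ∞ := hK.comp.measure_lt_top.ne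
  have hvol' : 1 ≤ (volume K).toReal := by
    rw [← ENNReal.toReal_one]
    exact ENNReal.toReal_mono hKfin hvol
  have hsan := WIDTH_santalo (V := V) hd1 hK
  have hpolb : (volume (Pool.Agent.H845R2.pol K)).toReal ≤ (2 * Real.pi * Real.exp 1 / n) ^ n := by
    have h0 : 0 ≤ (volume (Pool.Agent.H845R2.pol K)).toReal := ENNReal.toReal_nonneg
    calc (volume (Pool.Agent.H845R2.pol K)).toReal
        = 1 * (volume (Pool.Agent.H845R2.pol K)).toReal := (one_mul _).symm
      _ ≤ (volume K).toReal * (volume (Pool.Agent.H845R2.pol K)).toReal :=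
          mul_le_mul_of_nonneg_right hvol' h0
      _ ≤ _ := hsan
  have hg : (gam V).real {x | hs K x ≤ s} ≤
      (Real.sqrt (2 * Real.pi))⁻¹ ^ n * (s ^ n * (2 * Real.pi * Real.exp 1 / n) ^ n) := by
    have hm : MeasurableSet {x | hs K x ≤ s} :=
      measurableSet_le (hs_cont hK).measurable measurable_const
    have h1 : gam V {x | hs K x ≤ s} ≤
        ENNReal.ofReal ((Real.sqrt (2 * Real.pi))⁻¹ ^ n) *
          (ENNReal.ofReal (s ^ n) * ENNReal.ofReal ((2 * Real.pi * Real.exp 1 / n) ^ n)) := by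
      refine (gam_le _ hm).trans ?_
      gcongr
      refine (measure_mono hsub).trans ?_
      rw [Measure.addHaar_smul, ← hn, abs_of_nonneg (by positivity)]
      gcongr
      rw [← ENNReal.ofReal_toReal hPfin]
      exact ENNReal.ofReal_le_ofReal hpolb
    rw [← ENNReal.ofReal_mul (by positivity), ← ENNReal.ofReal_mul (by positivity)] at h1
    exact ENNReal.toReal_le_of_le_ofReal (by positivity) h1
  have he1 : (Real.sqrt (2 * Real.pi))⁻¹ ^ n * (s ^ n * (2 * Real.pi * Real.exp 1 / n) ^ n) ≤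
      1 / 2 := by
    have h1 : s * (2 * Real.pi * Real.exp 1 / n) = 1 / 2 := by
      rw [hs']
      field_simp
      norm_num
    rw [← mul_pow, h1]
    have h2 : (Real.sqrt (2 * Real.pi))⁻¹ ≤ 1 := by
      apply inv_le_one_of_one_le₀
      rw [Real.one_le_sqrt]
      linarith [Real.pi_gt_three]
    have h3 : (Real.sqrt (2 * Real.pi))⁻¹ ^ n ≤ 1 := pow_le_one₀ (by positivity) h2
    have h4 : (1 / 2 : ℝ) ^ n ≤ 1 / 2 := by
      calc (1 / 2 : ℝ) ^ n ≤ (1 / 2 : ℝ) ^ 1 :=
            pow_le_pow_of_le_one (by norm_num) (by norm_num) hd1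
        _ = 1 / 2 := pow_one _
    calc (Real.sqrt (2 * Real.pi))⁻¹ ^ n * (1 / 2 : ℝ) ^ n ≤ 1 * (1 / 2) :=
          mul_le_mul h3 h4 (by positivity) zero_le_one
      _ = 1 / 2 := one_mul _
  linarith

end H890
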