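import Pool.Agent.H890R2.RM.KC
import Pool.Agent.H890R2.RM.GSIGN
import Pool.Agent.H890R2.RM.WIDTH

set_option autoImplicit false
open MeasureTheory
open scoped ENNReal Pointwise RealInnerProductSpace

/-! Main convexity estimate. -/

namespace H890

namespace CM

variable {V : Type*} [NormedAddCommGroup V] [InnerProductSpace ℝ V]

lemma inner_bv {d : ℕ} (b : OrthonormalBasis (Fin d) ℝ V) (ε ε' : Fin d → Bool) :
    ⟪bv b ε, bv b ε'⟫ = ∑ i, sg (ε i) * sg (ε' i) := by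
  unfold bv
  rw [sum_inner]
  refine Finset.sum_congr rfl fun i _ => ?_
  rw [inner_sum]
  have h2 : ∀ j, ⟪sg (ε i) • b i, sg (ε' j) • b j⟫ = if i = j then sg (ε i) * sg (ε' j) else 0 := by
    intro j
    rw [real_inner_smul_left, real_inner_smul_right, orthonormal_iff_ite.mp b.orthonormal i j]
    split_ifs <;> simp
  simp_rw [h2]
  rw [Finset.sum_ite_eq, if_pos (Finset.mem_univ _)]

lemma norm_bv_sq {d : ℕ} (b : OrthonormalBasis (Fin d) ℝ V) (ε : Fin d → Bool) :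
    ‖bv b ε‖ ^ 2 = d := by
  rw [← real_inner_self_eq_norm_sq, inner_bv]
  simp_rw [GSIGN.sg_sq]
  simp

lemma norm_bv_le {d : ℕ} (hd : 1 ≤ d) (b : OrthonormalBasis (Fin d) ℝ V) (ε : Fin d → Bool) :
    ‖bv b ε‖ ≤ d := by
  have h1 := norm_bv_sq b ε
  have h2 : (1 : ℝ) ≤ d := by exact_mod_cast hd
  have h3 : ‖bv b ε‖ ^ 2 ≤ (d : ℝ) ^ 2 := by rw [h1]; nlinarith
  exact (pow_le_pow_iff_left₀ (norm_nonneg _) (by linarith) (by norm_num)).mp h3

/-- the linear map -/
noncomputable def Hm {d : ℕ} (b : OrthonormalBasis (Fin d) ℝ V) (f : (Fin d → Bool) → V) :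
    V →ₗ[ℝ] V :=
  ∑ ε : Fin d → Bool, (2 ^ d : ℝ)⁻¹ • ((innerSL ℝ (bv b ε)).smulRight (f ε) : V →L[ℝ] V).toLinearMap

lemma Hm_apply {d : ℕ} (b : OrthonormalBasis (Fin d) ℝ V) (f : (Fin d → Bool) → V) (x : V) :
    Hm b f x = ∑ ε : Fin d → Bool, ((2 ^ d : ℝ)⁻¹ * ⟪bv b ε, x⟫) • f ε := by
  unfold Hm
  simp [LinearMap.sum_apply, smul_smul]

lemma Hm_bv {d : ℕ} (b : OrthonormalBasis (Fin d) ℝ V) (f : (Fin d → Bool) → V)
    (ε' : Fin d → Bool) : Hm b f (bv b ε') = rad f ε' := by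
  rw [Hm_apply]
  unfold rad
  refine Finset.sum_congr rfl fun ε _ => ?_
  rw [inner_bv]

lemma trace_Hm {d : ℕ} [FiniteDimensional ℝ V] (b : OrthonormalBasis (Fin d) ℝ V)
    (f : (Fin d → Bool) → V) : LinearMap.trace ℝ V (Hm b f) = avg (fun ε => ⟪bv b ε, f ε⟫) := by
  rw [LinearMap.trace_eq_sum_inner (Hm b f) b]
  unfold avg
  simp_rw [Hm_apply, inner_sum]
  rw [Finset.sum_comm, Finset.mul_sum]
  refine Finset.sum_congr rfl fun ε _ => ?_
  simp_rw [real_inner_smul_right]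
  rw [← b.sum_inner_mul_inner (bv b ε) (f ε), Finset.mul_sum]
  refine Finset.sum_congr rfl fun i _ => ?_
  ring

/-- averages of constants -/
lemma avg_const {d : ℕ} (c : ℝ) : avg (fun _ : Fin d → Bool => c) = c := by
  unfold avg
  rw [Finset.sum_const, Finset.card_univ, Fintype.card_fun, Fintype.card_bool, Fintype.card_fin,
    nsmul_eq_mul]
  push_cast
  rw [← mul_assoc, inv_mul_cancel₀ (by positivity), one_mul]

lemma norm_Hm {d : ℕ} (hd : 1 ≤ d) (b : OrthonormalBasis (Fin d) ℝ V) (f : (Fin d → Bool) → V)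
    (R : ℝ) (hf : ∀ ε, ‖f ε‖ ≤ R) (x : V) : ‖Hm b f x‖ ≤ d * R * ‖x‖ := by
  rw [Hm_apply]
  have hR : 0 ≤ R := (norm_nonneg _).trans (hf (fun _ => true))
  calc ‖∑ ε : Fin d → Bool, ((2 ^ d : ℝ)⁻¹ * ⟪bv b ε, x⟫) • f ε‖
      ≤ ∑ ε : Fin d → Bool, (2 ^ d : ℝ)⁻¹ * (d * R * ‖x‖) := by
        refine (norm_sum_le _ _).trans (Finset.sum_le_sum fun ε _ => ?_)
        rw [norm_smul, norm_mul, Real.norm_of_nonneg (show (0 : ℝ) ≤ (2 ^ d)⁻¹ by positivity),
          mul_assoc]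
        apply mul_le_mul_of_nonneg_left _ (by positivity)
        calc ‖⟪bv b ε, x⟫‖ * ‖f ε‖ ≤ (d * ‖x‖) * R := by
              apply mul_le_mul _ (hf ε) (norm_nonneg _) (by positivity)
              refine (abs_real_inner_le_norm _ _).trans ?_
              exact mul_le_mul_of_nonneg_right (norm_bv_le hd b ε) (norm_nonneg _)
          _ = _ := by ring
    _ = d * R * ‖x‖ := by
        rw [← Finset.mul_sum]
        exact avg_const (d := d) (d * R * ‖x‖)

lemma body_nhds {K : Set V} (hK : Body K) : K ∈ nhds (0 : V) := by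
  obtain ⟨x, hx⟩ := hK.int
  have hx' : -x ∈ interior K := by
    rw [mem_interior_iff_mem_nhds] at hx ⊢
    have h1 : (fun y : V => -y) ⁻¹' K ∈ nhds (-x) := by
      apply continuous_neg.continuousAt.preimage_mem_nhds
      rw [neg_neg]
      exact hx
    filter_upwards [h1] with y hy
    have := hK.symm (-y) hy
    rwa [neg_neg] at this
  have h2 := hK.conv.interior hx hx' (show (0 : ℝ) ≤ 1 / 2 by norm_num)
    (show (0 : ℝ) ≤ 1 / 2 by norm_num) (by norm_num)
  have h3 : (1 / 2 : ℝ) • x + (1 / 2 : ℝ) • (-x) = 0 := by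
    rw [smul_neg, add_neg_cancel]
  rw [h3] at h2
  exact mem_interior_iff_mem_nhds.mp h2

lemma gauge_abs {K : Set V} (hK : Body K) (c : ℝ) (x : V) :
    gauge K (c • x) = |c| * gauge K x := by
  rcases le_or_gt 0 c with hc | hc
  · rw [gauge_smul_of_nonneg hc, abs_of_nonneg hc, smul_eq_mul]
  · have h1 : c • x = -((-c) • x) := by rw [neg_smul, neg_neg]
    rw [h1, gauge_neg hK.symm, gauge_smul_of_nonneg (by linarith : 0 ≤ -c), abs_of_neg hc,
      smul_eq_mul]

end CM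

open CM in
theorem convex_main (p : ℕ) (hp : 2 ≤ p) (e : ℝ) (he : 0 < e) : ∃ C : ℝ, 0 < C ∧ ∀ N : ℕ, 1 ≤ N →
    ∀ (V : Type) [NormedAddCommGroup V] [InnerProductSpace ℝ V] [FiniteDimensional ℝ V]
      [MeasurableSpace V] [BorelSpace V] (d : ℕ),
    Module.finrank ℝ V = d → 1 ≤ d → d ≤ N → ∀ K : Set V, Body K → 1 ≤ volume K →
    ∀ R : ℝ, K ⊆ Metric.closedBall 0 R →
    ∃ H : V →ₗ[ℝ] V, (∀ x, ‖H x‖ ≤ d * R * ‖x‖) ∧ 0 < LinearMap.trace ℝ V H ∧
      (d : ℝ) ^ p ≤ C * N * LinearMap.trace ℝ V H ^ p ∧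
      (d / LinearMap.trace ℝ V H) ^ p * ∫ x, gauge K (H x) ^ p ∂(gam V) ≤ C * (N : ℝ) ^ (e * p + 2) := by
  obtain ⟨C1, hC1, hgs⟩ := gsign p (by omega)
  obtain ⟨C2, hC2, hkc⟩ := kc p hp e he
  obtain ⟨c, hc, hw⟩ := width
  refine ⟨C1 / c ^ p + C1 / c ^ p * (C1 * C2), by positivity, ?_⟩
  intro N hN V _ _ _ _ _ d hd hd1 hdN K hK hvol R hR
  have hsem := hs_seminorm hK
  set b : OrthonormalBasis (Fin d) ℝ V := (stdOrthonormalBasis ℝ V).reindex (finCongr hd) with hb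
  choose f hfK hf using fun ε : Fin d → Bool => hsem.2.2.2 (bv b ε)
  have hd0 : (0 : ℝ) < d := by exact_mod_cast hd1
  have hN0 : (0 : ℝ) < N := by exact_mod_cast hN
  have hdN' : (d : ℝ) ≤ N := by exact_mod_cast hdN
  have htr : LinearMap.trace ℝ V (Hm b f) = avg (fun ε => hs K (bv b ε)) := by
    rw [trace_Hm]
    congr 1
    funext ε
    exact hf ε
  set T := LinearMap.trace ℝ V (Hm b f) with hT
  have hT0 : 0 ≤ T := by
    rw [htr]
    unfold avg
    have : 0 ≤ ∑ ε : Fin d → Bool, hs K (bv b ε) := Finset.sum_nonneg fun ε _ => hsem.1 _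
    positivity
  -- the width
  have h1 : (c * d) ^ p ≤ d * C1 * T ^ p := by
    have h2 := hw V d hd hd1 K hK hvol
    have h3 := (hgs V d b (hs K) (hs_cont hK) hsem.1 hsem.2.1 hsem.2.2.1).2
    rw [← htr] at h3
    exact (pow_le_pow_left₀ (by positivity) h2 p).trans h3
  have hTp : 0 < T ^ p := by
    by_contra hcon
    have h4 : T ^ p = 0 := le_antisymm (not_lt.mp hcon) (pow_nonneg hT0 p)
    rw [h4, mul_zero] at h1
    have : 0 < (c * (d : ℝ)) ^ p := by positivity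
    linarith
  have hTpos : 0 < T := by
    rcases hT0.lt_or_eq with h | h
    · exact h
    · rw [← h, zero_pow (by omega)] at hTp
      exact absurd hTp (lt_irrefl _)
  have h5 : (d : ℝ) ^ p ≤ C1 / c ^ p * N * T ^ p := by
    have h6 : (d : ℝ) ^ p ≤ C1 / c ^ p * d * T ^ p := by
      rw [mul_pow] at h1
      have h7 : C1 / c ^ p * d * T ^ p = (d * C1 * T ^ p) / c ^ p := by ring
      rw [h7, le_div_iff₀ (by positivity)]
      linarith
    refine h6.trans ?_
    gcongr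
  refine ⟨Hm b f, norm_Hm hd1 b f R (fun ε => by simpa using hR (hfK ε)), hTpos, ?_, ?_⟩
  · refine h5.trans ?_
    have h8 : C1 / c ^ p ≤ C1 / c ^ p + C1 / c ^ p * (C1 * C2) := by
      have : 0 ≤ C1 / c ^ p * (C1 * C2) := by positivity
      linarith
    gcongr
  · -- the gauge
    have hnh := body_nhds hK
    have hcont : Continuous (fun x => gauge K (Hm b f x)) :=
      (continuous_gauge hK.conv hnh).comp (LinearMap.continuous_of_finiteDimensional _)
    have hadd : ∀ x y, gauge K (Hm b f (x + y)) ≤ gauge K (Hm b f x) + gauge K (Hm b f y) := by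
      intro x y
      rw [map_add]
      exact gauge_add_le hK.conv (absorbent_nhds_zero hnh) _ _
    have hsm : ∀ (c : ℝ) (x : V), gauge K (Hm b f (c • x)) = |c| * gauge K (Hm b f x) := by
      intro c x
      rw [map_smul]
      exact gauge_abs hK _ _
    have h9 := (hgs V d b (fun x => gauge K (Hm b f x)) hcont (fun x => gauge_nonneg _) hadd hsm).1
    simp only [Hm_bv] at h9
    have h10 := hkc N hN V d hd hd1 hdN K hK f hfK
    have h11 : ∫ x, gauge K (Hm b f x) ^ p ∂(gam V) ≤ N * C1 * (C2 * (N : ℝ) ^ (e * p)) := by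
      refine h9.trans ?_
      have h12 : 0 ≤ C2 * (N : ℝ) ^ (e * p) := by positivity
      calc d * C1 * avg (fun ε => gauge K (rad f ε) ^ p) ≤ d * C1 * (C2 * (N : ℝ) ^ (e * p)) := by
            gcongr
        _ ≤ N * C1 * (C2 * (N : ℝ) ^ (e * p)) := by gcongr
    have h13 : (d / T) ^ p ≤ C1 / c ^ p * N := by
      rw [div_pow, div_le_iff₀ hTp]
      exact h5
    have h14 : 0 ≤ ∫ x, gauge K (Hm b f x) ^ p ∂(gam V) :=
      integral_nonneg fun x => pow_nonneg (gauge_nonneg _) p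
    calc (d / T) ^ p * ∫ x, gauge K (Hm b f x) ^ p ∂(gam V)
        ≤ (C1 / c ^ p * N) * (N * C1 * (C2 * (N : ℝ) ^ (e * p))) := by
          apply mul_le_mul h13 h11 h14 (by positivity)
      _ = C1 / c ^ p * (C1 * C2) * ((N : ℝ) ^ (e * p) * (N : ℝ) ^ (2 : ℝ)) := by
          rw [Real.rpow_two]; ring
      _ = C1 / c ^ p * (C1 * C2) * (N : ℝ) ^ (e * p + 2) := by
          rw [← Real.rpow_add hN0]
      _ ≤ _ := by
          have h15 : 0 < C1 / c ^ p := by positivity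
          have h16 : 0 < (N : ℝ) ^ (e * p + 2) := by positivity
          nlinarith [mul_pos h15 h16]

end H890
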