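import Mathlib

set_option autoImplicit false

/-! Uniform second order expansion of the determinant. -/

namespace H890

theorem det_prod_expand {ι : Type*} [DecidableEq ι] (h : ℝ) (hh : 0 ≤ h) (s : Finset ι) :
    ∃ C : ℝ, 0 ≤ C ∧ ∀ a : ι → ℝ, (∀ i, |a i| ≤ h) → ∀ u : ℝ, 0 ≤ u → u ≤ 1 →
      |∏ i ∈ s, (1 + u * a i) - 1 - u * ∑ i ∈ s, a i| ≤ C * u ^ 2 := by
  induction s using Finset.induction_on with
  | empty => exact ⟨0, le_refl _, fun a _ u _ _ => by simp⟩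
  | insert i s hi ih =>
    obtain ⟨C, hC, ih⟩ := ih
    refine ⟨C + h * (s.card * h) + h * C, by positivity, ?_⟩
    intro a ha u hu0 hu1
    have h1 := ih a ha u hu0 hu1
    rw [Finset.prod_insert hi, Finset.sum_insert hi]
    set P := ∏ i ∈ s, (1 + u * a i) with hP
    set S := ∑ i ∈ s, a i with hS
    have hSb : |S| ≤ s.card * h := by
      calc |S| ≤ ∑ i ∈ s, |a i| := Finset.abs_sum_le_sum_abs _ _
        _ ≤ ∑ _i ∈ s, h := Finset.sum_le_sum fun i _ => ha i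
        _ = s.card * h := by simp
    have e : (1 + u * a i) * P - 1 - u * (a i + S) =
        (P - 1 - u * S) + u ^ 2 * (a i * S) + u * (a i * (P - 1 - u * S)) := by ring
    rw [e]
    have hai := ha i
    have b1 : |u ^ 2 * (a i * S)| ≤ u ^ 2 * (h * (s.card * h)) := by
      rw [abs_mul, abs_mul, abs_of_nonneg (by positivity : (0 : ℝ) ≤ u ^ 2)]
      exact mul_le_mul_of_nonneg_left (mul_le_mul hai hSb (abs_nonneg _) hh) (by positivity)
    have b2 : |u * (a i * (P - 1 - u * S))| ≤ 1 * (h * (C * u ^ 2)) := by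
      rw [abs_mul, abs_mul, abs_of_nonneg hu0]
      exact mul_le_mul hu1 (mul_le_mul hai h1 (abs_nonneg _) hh) (by positivity) (by norm_num)
    calc |(P - 1 - u * S) + u ^ 2 * (a i * S) + u * (a i * (P - 1 - u * S))|
        ≤ |(P - 1 - u * S) + u ^ 2 * (a i * S)| + |u * (a i * (P - 1 - u * S))| := abs_add_le _ _
      _ ≤ |P - 1 - u * S| + |u ^ 2 * (a i * S)| + |u * (a i * (P - 1 - u * S))| := by
          gcongr; exact abs_add_le _ _
      _ ≤ C * u ^ 2 + u ^ 2 * (h * (s.card * h)) + 1 * (h * (C * u ^ 2)) := by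
          gcongr
      _ = (C + h * (s.card * h) + h * C) * u ^ 2 := by ring

theorem det_perm_bound (d : ℕ) (h : ℝ) (hh : 0 ≤ h) (M : Matrix (Fin d) (Fin d) ℝ)
    (hM : ∀ i j, |M i j| ≤ h) (u : ℝ) (hu0 : 0 ≤ u) (hu1 : u ≤ 1) (σ : Equiv.Perm (Fin d))
    (hσ : σ ≠ 1) :
    |∏ i, (1 + u • M) (σ i) i| ≤ (h ^ 2 * (1 + h) ^ d) * u ^ 2 := by
  obtain ⟨i, hi⟩ : ∃ i, σ i ≠ i := by
    by_contra hcon
    push Not at hcon
    exact hσ (Equiv.ext hcon)
  have hj : σ (σ i) ≠ σ i := fun e => hi (σ.injective e)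
  have hgen : ∀ k, |(1 + u • M) (σ k) k| ≤ 1 + h := by
    intro k
    rw [Matrix.add_apply, Matrix.smul_apply, smul_eq_mul]
    have h1 : |(1 : Matrix (Fin d) (Fin d) ℝ) (σ k) k| ≤ 1 := by
      rw [Matrix.one_apply]; split_ifs <;> simp
    have h2 : |u * M (σ k) k| ≤ h := by
      rw [abs_mul, abs_of_nonneg hu0]
      calc u * |M (σ k) k| ≤ 1 * h := mul_le_mul hu1 (hM _ _) (abs_nonneg _) (by norm_num)
        _ = h := one_mul _
    calc |(1 : Matrix (Fin d) (Fin d) ℝ) (σ k) k + u * M (σ k) k|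
        ≤ |(1 : Matrix (Fin d) (Fin d) ℝ) (σ k) k| + |u * M (σ k) k| := abs_add_le _ _
      _ ≤ 1 + h := add_le_add h1 h2
  have hoff : ∀ k, σ k ≠ k → |(1 + u • M) (σ k) k| ≤ u * h := by
    intro k hk
    rw [Matrix.add_apply, Matrix.smul_apply, smul_eq_mul, Matrix.one_apply_ne hk, zero_add, abs_mul,
      abs_of_nonneg hu0]
    exact mul_le_mul_of_nonneg_left (hM _ _) hu0
  rw [Finset.abs_prod, ← Finset.mul_prod_erase Finset.univ _ (Finset.mem_univ i),
    ← Finset.mul_prod_erase (Finset.univ.erase i) _ (Finset.mem_erase.2 ⟨hi, Finset.mem_univ (σ i)⟩)]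
  have hrest : ∏ k ∈ (Finset.univ.erase i).erase (σ i), |(1 + u • M) (σ k) k| ≤ (1 + h) ^ d := by
    calc ∏ k ∈ (Finset.univ.erase i).erase (σ i), |(1 + u • M) (σ k) k|
        ≤ ∏ _k ∈ (Finset.univ.erase i).erase (σ i), (1 + h) :=
          Finset.prod_le_prod (fun _ _ => abs_nonneg _) (fun k _ => hgen k)
      _ = (1 + h) ^ ((Finset.univ.erase i).erase (σ i)).card := by simp
      _ ≤ (1 + h) ^ d := by
          apply pow_le_pow_right₀ (by linarith)
          calc ((Finset.univ.erase i).erase (σ i)).card ≤ (Finset.univ : Finset (Fin d)).card :=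
                Finset.card_le_card ((Finset.erase_subset _ _).trans (Finset.erase_subset _ _))
            _ = d := by simp
  have h0 : 0 ≤ ∏ k ∈ (Finset.univ.erase i).erase (σ i), |(1 + u • M) (σ k) k| :=
    Finset.prod_nonneg fun _ _ => abs_nonneg _
  calc |(1 + u • M) (σ i) i| * (|(1 + u • M) (σ (σ i)) (σ i)| *
        ∏ k ∈ (Finset.univ.erase i).erase (σ i), |(1 + u • M) (σ k) k|)
      ≤ (u * h) * ((u * h) * (1 + h) ^ d) := by
        apply mul_le_mul (hoff i hi) _ (by positivity) (by positivity)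
        exact mul_le_mul (hoff _ hj) hrest h0 (by positivity)
    _ = (h ^ 2 * (1 + h) ^ d) * u ^ 2 := by ring

theorem det_expand (d : ℕ) (h : ℝ) (hh : 0 ≤ h) : ∃ C : ℝ, 0 < C ∧ ∀ (M : Matrix (Fin d) (Fin d) ℝ),
    (∀ i j, |M i j| ≤ h) → ∀ u : ℝ, 0 ≤ u → u ≤ 1 →
    |(1 + u • M).det - 1 - u * M.trace| ≤ C * u ^ 2 := by
  obtain ⟨C, hC, hP⟩ := det_prod_expand h hh (Finset.univ : Finset (Fin d))
  set K : ℝ := h ^ 2 * (1 + h) ^ d with hK
  have hK0 : 0 ≤ K := by positivity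
  refine ⟨C + (Finset.univ.erase (1 : Equiv.Perm (Fin d))).card * K + 1, by positivity, ?_⟩
  intro M hM u hu0 hu1
  have h1 := hP (fun i => M i i) (fun i => hM i i) u hu0 hu1
  rw [Matrix.det_apply, ← Finset.add_sum_erase Finset.univ _ (Finset.mem_univ (1 : Equiv.Perm (Fin d)))]
  have e1 : (Equiv.Perm.sign (1 : Equiv.Perm (Fin d)) • ∏ i, (1 + u • M) ((1 : Equiv.Perm (Fin d)) i) i)
      = ∏ i, (1 + u * M i i) := by
    simp [Matrix.add_apply, Matrix.smul_apply]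
  rw [e1]
  have e2 : M.trace = ∑ i, M i i := rfl
  rw [e2]
  have h2 : |∑ σ ∈ Finset.univ.erase (1 : Equiv.Perm (Fin d)),
      Equiv.Perm.sign σ • ∏ i, (1 + u • M) (σ i) i| ≤
      (Finset.univ.erase (1 : Equiv.Perm (Fin d))).card * K * u ^ 2 := by
    calc |∑ σ ∈ Finset.univ.erase (1 : Equiv.Perm (Fin d)),
          Equiv.Perm.sign σ • ∏ i, (1 + u • M) (σ i) i|
        ≤ ∑ σ ∈ Finset.univ.erase (1 : Equiv.Perm (Fin d)),
          |Equiv.Perm.sign σ • ∏ i, (1 + u • M) (σ i) i| := Finset.abs_sum_le_sum_abs _ _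
      _ ≤ ∑ _σ ∈ Finset.univ.erase (1 : Equiv.Perm (Fin d)), K * u ^ 2 := by
          apply Finset.sum_le_sum
          intro σ hσ
          have hσ1 : σ ≠ 1 := (Finset.mem_erase.1 hσ).1
          have hb := det_perm_bound d h hh M hM u hu0 hu1 σ hσ1
          have hs : |Equiv.Perm.sign σ • ∏ i, (1 + u • M) (σ i) i| = |∏ i, (1 + u • M) (σ i) i| := by
            rcases Int.units_eq_one_or (Equiv.Perm.sign σ) with hs | hs <;> rw [hs] <;> simp
          rw [hs]; exact hb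
      _ = (Finset.univ.erase (1 : Equiv.Perm (Fin d))).card * K * u ^ 2 := by
          rw [Finset.sum_const, nsmul_eq_mul]; ring
  have h3 : 0 ≤ u ^ 2 := by positivity
  have e3 : ∏ i, (1 + u * M i i) + ∑ σ ∈ Finset.univ.erase (1 : Equiv.Perm (Fin d)),
      Equiv.Perm.sign σ • ∏ i, (1 + u • M) (σ i) i - 1 - u * ∑ i, M i i =
      (∏ i, (1 + u * M i i) - 1 - u * ∑ i, M i i) + ∑ σ ∈ Finset.univ.erase (1 : Equiv.Perm (Fin d)),
      Equiv.Perm.sign σ • ∏ i, (1 + u • M) (σ i) i := by ring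
  rw [e3]
  refine (abs_add_le _ _).trans ?_
  calc _ ≤ C * u ^ 2 + (Finset.univ.erase (1 : Equiv.Perm (Fin d))).card * K * u ^ 2 :=
        add_le_add h1 h2
    _ ≤ (C + (Finset.univ.erase (1 : Equiv.Perm (Fin d))).card * K + 1) * u ^ 2 := by
        nlinarith

theorem one_add_pow_le (d : ℕ) : ∃ K : ℝ, 0 ≤ K ∧ ∀ x : ℝ, |x| ≤ 1 →
    (1 + x) ^ d ≤ 1 + d * x + K * x ^ 2 := by
  induction d with
  | zero => exact ⟨0, le_refl _, fun x _ => by simp⟩
  | succ d ih =>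
    obtain ⟨K, hK, ih⟩ := ih
    refine ⟨d + 2 * K, by positivity, fun x hx => ?_⟩
    have h1 := ih x hx
    have hx' := abs_le.1 hx
    have h2 : (1 + x) ^ (d + 1) ≤ (1 + x) * (1 + d * x + K * x ^ 2) := by
      rw [pow_succ, mul_comm]
      exact mul_le_mul_of_nonneg_left h1 (by linarith)
    have h3 : K * x ^ 2 * (1 - x) ≥ 0 := by
      have : 0 ≤ 1 - x := by linarith
      positivity
    push_cast
    nlinarith

/-- lower bound for the determinant of `(1 + u M) / c`, `c = 1 + u tr M / d - C u²` -/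
theorem det_norm_ge (d : ℕ) (hd : 1 ≤ d) (h : ℝ) (hh : 0 ≤ h) : ∃ C u₀ : ℝ, 0 < C ∧ 0 < u₀ ∧ u₀ ≤ 1 ∧
    ∀ (M : Matrix (Fin d) (Fin d) ℝ), (∀ i j, |M i j| ≤ h) → ∀ u : ℝ, 0 ≤ u → u ≤ u₀ →
    1 / 2 ≤ 1 + u * M.trace / d - C * u ^ 2 ∧
    (1 + u * M.trace / d - C * u ^ 2) ^ d ≤ (1 + u • M).det := by
  obtain ⟨C₁, hC₁, hE⟩ := det_expand d h hh
  obtain ⟨K, hK, hKp⟩ := one_add_pow_le d
  set C : ℝ := C₁ + K * (h + 1) ^ 2 with hC
  have hC0 : 0 < C := by positivity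
  refine ⟨C, min (1 / C) (1 / (2 * (h + 1))), hC0, ?_, ?_, ?_⟩
  · exact lt_min (by positivity) (by positivity)
  · refine (min_le_right _ _).trans ?_
    rw [div_le_one (by positivity)]; linarith
  intro M hM u hu0 hu
  have hd0 : (0 : ℝ) < d := by exact_mod_cast hd
  have hu1 : u * C ≤ 1 := by
    have := hu.trans (min_le_left _ _)
    rwa [le_div_iff₀ hC0] at this
  have hu2 : u * (2 * (h + 1)) ≤ 1 := by
    have := hu.trans (min_le_right _ _)
    rwa [le_div_iff₀ (by positivity)] at this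
  have hu3 : u ≤ 1 := by nlinarith
  set τ : ℝ := M.trace / d with hτ
  have htr : |M.trace| ≤ d * h := by
    calc |M.trace| ≤ ∑ i, |M i i| := by
          rw [Matrix.trace]; exact Finset.abs_sum_le_sum_abs _ _
      _ ≤ ∑ _i : Fin d, h := Finset.sum_le_sum fun i _ => hM i i
      _ = d * h := by simp
  have hτb : |τ| ≤ h := by
    rw [hτ, abs_div, abs_of_pos hd0, div_le_iff₀ hd0]; linarith
  have hτ' := abs_le.1 hτb
  have e1 : 1 + u * M.trace / d - C * u ^ 2 = 1 + (u * τ - C * u ^ 2) := by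
    rw [hτ]; ring
  set x : ℝ := u * τ - C * u ^ 2 with hx
  have hxa : |x| ≤ u * (h + 1) := by
    have h4 : C * u ^ 2 = u * (u * C) := by ring
    have h5 : 0 ≤ u * C := by positivity
    rw [abs_le, hx, h4]
    constructor
    · nlinarith
    · nlinarith
  have hxh : |x| ≤ 1 / 2 := by linarith
  have hx1 := abs_le.1 hxh
  rw [e1]
  refine ⟨by linarith, ?_⟩
  have h6 := hKp x (by linarith)
  have h7 := (abs_le.1 (hE M hM u hu0 hu3)).1
  have h8 : x ^ 2 ≤ (u * (h + 1)) ^ 2 := by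
    rw [← sq_abs x]
    exact pow_le_pow_left₀ (abs_nonneg _) hxa 2
  have h9 : (d : ℝ) * x = u * M.trace - d * (C * u ^ 2) := by
    rw [hx, hτ]; field_simp
  have h10 : K * x ^ 2 ≤ K * (u * (h + 1)) ^ 2 := mul_le_mul_of_nonneg_left h8 hK
  have h11 : C * u ^ 2 ≤ d * (C * u ^ 2) := by
    have : (1 : ℝ) ≤ d := by exact_mod_cast hd
    have h12 : 0 ≤ C * u ^ 2 := by positivity
    nlinarith
  have h13 : C * u ^ 2 = C₁ * u ^ 2 + K * (u * (h + 1)) ^ 2 := by rw [hC]; ring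
  linarith

end H890
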