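import Pool.Agent.H890R2.RM.GD

set_option autoImplicit false
open MeasureTheory
open scoped ENNReal Pointwise RealInnerProductSpace

/-! Stability of `Good` under sections, quotients, deformations. -/

namespace H890

section
variable {V : Type*} [NormedAddCommGroup V] [InnerProductSpace ℝ V] [FiniteDimensional ℝ V]
  {L : AddSubgroup V}

omit [FiniteDimensional ℝ V] in
theorem good_sec (hL : Good L) (U : Submodule ℝ V) : Good (secL U L) := by
  intro j v hv hi
  have h1 := hL j (fun i => U.subtype (v i)) (fun i => hv i)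
    (hi.map' U.subtype (Submodule.ker_subtype U))
  rwa [gdet_isometry v U.subtype (fun x y => rfl)] at h1

omit [FiniteDimensional ℝ V] in
theorem full_sec {j : ℕ} (v : Fin j → V) (hv : ∀ i, v i ∈ L) :
    Full (secL (Submodule.span ℝ (Set.range v)) L) := by
  unfold Full
  rw [eq_top_iff, ← Submodule.span_span_coe_preimage (R := ℝ) (s := Set.range v)]
  apply Submodule.span_mono
  rintro x ⟨i, hi⟩
  change (x : V) ∈ L
  rw [← hi]
  exact hv i

theorem full_quo (hL : Full L) (U : Submodule ℝ V) : Full (quoL U L) := by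
  unfold Full quoL
  rw [AddSubgroup.coe_map]
  have h1 : (⇑(Uᗮ.orthogonalProjectionOnto : V →L[ℝ] Uᗮ).toLinearMap.toAddMonoidHom '' (L : Set V)) =
      ((Uᗮ.orthogonalProjectionOnto : V →L[ℝ] Uᗮ).toLinearMap '' (L : Set V)) := rfl
  rw [h1, ← Submodule.map_span]
  unfold Full at hL
  rw [hL, Submodule.map_top, LinearMap.range_eq_top]
  intro x
  exact ⟨x, Submodule.orthogonalProjectionOnto_mem_subspace_eq_self x⟩

/-- quotient by a sublattice of determinant at most `1+κ` -/
theorem good_quo (hL : Good L) {κ : ℝ} (hκ : 0 ≤ κ) {j : ℕ} (v : Fin j → V) (hv : ∀ i, v i ∈ L)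
    (hi : LinearIndependent ℝ v) (hd : gdet v ≤ (1 + κ) ^ 2) :
    Good (sc (1 + κ) (quoL (Submodule.span ℝ (Set.range v)) L)) := by
  set U := Submodule.span ℝ (Set.range v) with hU
  have hk0 : (1 + κ) ≠ 0 := by positivity
  intro i w hw hwi
  rcases Nat.eq_zero_or_pos i with rfl | hi0
  · rw [gdet_zero]
  have hy : ∀ k, ∃ y ∈ L, w k = (1 + κ) • (Uᗮ.orthogonalProjectionOnto y) := by
    intro k
    obtain ⟨z, ⟨y, hy, rfl⟩, hz⟩ := hw k
    exact ⟨y, hy, hz.symm⟩
  choose y hyL hwy using hy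
  have hw' : w = fun k => (1 + κ) • (Uᗮ.orthogonalProjectionOnto (y k)) := funext hwy
  have hπi : LinearIndependent ℝ ((Uᗮ.orthogonalProjectionOnto : V →L[ℝ] Uᗮ).toLinearMap ∘ y) := by
    have h1 := hwi.units_smul (fun _ => (Units.mk0 (1 + κ) hk0)⁻¹)
    have h0 : ((Uᗮ.orthogonalProjectionOnto : V →L[ℝ] Uᗮ).toLinearMap ∘ y) =
        (fun _ : Fin i => (Units.mk0 (1 + κ) hk0)⁻¹) • w := by
      funext k
      rw [Pi.smul_apply', hwy k, Units.smul_def, smul_smul]
      simp [inv_mul_cancel₀ hk0]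
    rw [h0]
    exact h1
  have hdis : Disjoint (Submodule.span ℝ (Set.range v)) (Submodule.span ℝ (Set.range y)) := by
    have h1 := Submodule.range_ker_disjoint hπi
    refine (h1.mono_right ?_).symm
    intro x hx
    rw [LinearMap.mem_ker]
    change Uᗮ.orthogonalProjectionOnto x = 0
    rw [Submodule.orthogonalProjectionOnto_eq_zero_iff, Submodule.orthogonal_orthogonal]
    exact hx
  have happ : LinearIndependent ℝ (Fin.append v y) := by
    have h1 := hi.sum_type (LinearIndependent.of_comp _ hπi) hdis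
    refine (linearIndependent_equiv' finSumFinEquiv ?_).1 h1
    funext s
    rcases s with s | s
    · simp
    · simp
  have h1 := hL (j + i) (Fin.append v y) (by
    intro k
    refine Fin.addCases (fun k => ?_) (fun k => ?_) k
    · rw [Fin.append_left]; exact hv k
    · rw [Fin.append_right]; exact hyL k) happ
  rw [gdet_append] at h1
  have h2 : gdet w = (1 + κ) ^ (2 * i) * gdet (fun k => Uᗮ.orthogonalProjectionOnto (y k)) := by
    rw [hw', gdet_smul]
  rw [h2]
  set g := gdet (fun k => Uᗮ.orthogonalProjectionOnto (y k)) with hg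
  have hg0 : 0 ≤ g := gdet_nonneg _
  have h3 : 1 ≤ (1 + κ) ^ 2 * g := h1.trans (mul_le_mul_of_nonneg_right hd hg0)
  refine h3.trans (mul_le_mul_of_nonneg_right ?_ hg0)
  exact pow_le_pow_right₀ (by linarith) (by omega)

/-- small deformations of determinant `≥ 1` keep strictly good lattices good -/
theorem good_deform (hL : Good L) {κ δ : ℝ} (hκ : 0 ≤ κ) (hδ0 : 0 ≤ δ) (hδ : δ ≤ 1)
    (hprop : ∀ (j : ℕ), 1 ≤ j → j < Module.finrank ℝ V → ∀ v : Fin j → V, (∀ i, v i ∈ L) →
      LinearIndependent ℝ v → (1 + κ) ^ 2 ≤ gdet v)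
    (hδκ : 1 ≤ (1 - δ) ^ (Module.finrank ℝ V) * (1 + κ))
    (B : V →ₗ[ℝ] V) (hB : ∀ x, (1 - δ) * ‖x‖ ≤ ‖B x‖) (hdet : 1 ≤ LinearMap.det B) :
    Good (im B L) := by
  intro j w hw hwi
  rcases Nat.eq_zero_or_pos j with rfl | hj0
  · rw [gdet_zero]
  have hy : ∀ k, ∃ y ∈ L, w k = B y := by
    intro k
    obtain ⟨y, hy, hz⟩ := hw k
    exact ⟨y, hy, hz.symm⟩
  choose y hyL hwy using hy
  have hw' : w = fun k => B (y k) := funext hwy
  have hyi : LinearIndependent ℝ y := by
    rw [hw'] at hwi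
    exact LinearIndependent.of_comp B hwi
  rw [hw']
  have hjle : j ≤ Module.finrank ℝ V := by
    simpa using hyi.fintype_card_le_finrank
  rcases hjle.eq_or_lt with hj | hj
  · rw [gdet_map_full hj.symm hj0]
    have h1 := hL j y hyL hyi
    nlinarith
  · have h1 := gdet_map_ge y B (sub_nonneg.2 hδ) hB
    have h2 := hprop j hj0 hj y hyL hyi
    have h3 : (1 - δ) ^ (Module.finrank ℝ V) ≤ (1 - δ) ^ j :=
      pow_le_pow_of_le_one (sub_nonneg.2 hδ) (by linarith) hjle
    have h4 : 1 ≤ (1 - δ) ^ j * (1 + κ) :=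
      hδκ.trans (mul_le_mul_of_nonneg_right h3 (by linarith))
    have h5 : 1 ≤ ((1 - δ) ^ j * (1 + κ)) ^ 2 := one_le_pow₀ h4
    have h6 : ((1 - δ) ^ j * (1 + κ)) ^ 2 = (1 - δ) ^ (2 * j) * (1 + κ) ^ 2 := by
      rw [mul_pow, ← pow_mul, mul_comm j 2]
    rw [h6] at h5
    refine h5.trans ((mul_le_mul_of_nonneg_left h2 ?_).trans h1)
    exact pow_nonneg (sub_nonneg.2 hδ) _

omit [FiniteDimensional ℝ V] in
theorem full_im (hL : Full L) (B : V →ₗ[ℝ] V) (hB : Function.Surjective B) : Full (im B L) := by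
  unfold Full im
  rw [AddSubgroup.coe_map]
  have h1 : (⇑B.toAddMonoidHom '' (L : Set V)) = (B '' (L : Set V)) := rfl
  rw [h1, ← Submodule.map_span]
  unfold Full at hL
  rw [hL, Submodule.map_top, LinearMap.range_eq_top]
  exact hB

omit [FiniteDimensional ℝ V] in
theorem sc_sc (L : AddSubgroup V) (a b : ℝ) : sc a (sc b L) = sc (a * b) L := by
  unfold sc
  rw [AddSubgroup.map_map]
  congr 1
  ext x
  change a • (b • x) = (a * b) • x
  rw [smul_smul]

omit [FiniteDimensional ℝ V] in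
theorem full_sc (hL : Full L) {c : ℝ} (hc : 0 < c) : Full (sc c L) := by
  refine full_im hL (c • LinearMap.id) fun x => ⟨c⁻¹ • x, ?_⟩
  change c • (c⁻¹ • x) = x
  rw [smul_smul, mul_inv_cancel₀ hc.ne', one_smul]

end

end H890
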