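import Pool.Agent.H890R2.RM.EXT
import Pool.Agent.H890R2.RM.GOOD
import Pool.Agent.H890R2.RM.DET

set_option autoImplicit false
set_option linter.unusedSectionVars false
open MeasureTheory Filter Topology
open scoped ENNReal Pointwise RealInnerProductSpace

/-! First order condition at a near maximiser of the functional. -/

namespace H890


/-- three term Jensen -/
lemma crit_jensen3 (p : ℕ) {w1 w2 w3 A B E : ℝ} (h1 : 0 < w1) (h2 : 0 < w2) (h3 : 0 < w3)
    (hw : w1 + w2 + w3 = 1) (hA : 0 ≤ A) (hB : 0 ≤ B) (hE : 0 ≤ E) :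
    (A + B + E) ^ p ≤ w1 * (A / w1) ^ p + w2 * (B / w2) ^ p + w3 * (E / w3) ^ p := by
  have h := Real.pow_arith_mean_le_arith_mean_pow (Finset.univ : Finset (Fin 3)) ![w1, w2, w3]
    ![A / w1, B / w2, E / w3] (by
      intro i _
      fin_cases i
      · exact h1.le
      · exact h2.le
      · exact h3.le) (by
      simp only [Fin.sum_univ_three]
      exact hw) (by
      intro i _
      fin_cases i
      · exact (div_nonneg hA h1.le)
      · exact (div_nonneg hB h2.le)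
      · exact (div_nonneg hE h3.le)) p
  simp only [Fin.sum_univ_three] at h
  have e1 : w1 * (A / w1) = A := by field_simp
  have e2 : w2 * (B / w2) = B := by field_simp
  have e3 : w3 * (E / w3) = E := by field_simp
  calc (A + B + E) ^ p = (w1 * (A / w1) + w2 * (B / w2) + w3 * (E / w3)) ^ p := by rw [e1, e2, e3]
    _ ≤ _ := h

section
variable {V : Type*} [NormedAddCommGroup V] [InnerProductSpace ℝ V] [FiniteDimensional ℝ V]
  [MeasurableSpace V] [BorelSpace V] {L : AddSubgroup V}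

/-- comparison of the Voronoi norms of `L` and of a small deformation -/
lemma crit_vn_im (hL : Sep 1 L) (B : V →ₗ[ℝ] V) (hL' : Sep 1 (im B L)) {t : ℝ} (ht0 : 0 ≤ t) (ht : t < 1)
    (hB : ∀ x, (1 - t) * ‖x‖ ≤ ‖B x‖) (hB2 : ∀ x, ‖B x - x‖ ≤ t * ‖x‖) (x : V) :
    vn (im B L) x ≤ ((1 - t) ^ 2)⁻¹ * (vn L x + 2 * t * ‖x‖) := by
  have hn : 0 ≤ vn L x := vn_nonneg one_pos hL x
  have h1t : 0 < 1 - t := by linarith
  rw [vn_le_iff one_pos hL' (by positivity)]
  intro y' hy'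
  obtain ⟨y, hy, rfl⟩ := hy'
  have hyB : (B.toAddMonoidHom y) = B y := rfl
  rw [hyB]
  by_cases h0 : y = 0
  · subst h0
    simp
  have hy1 : 1 ≤ ‖y‖ := hL y hy h0
  have e1 : 2 * ⟪x, B y⟫ = 2 * ⟪x, y⟫ + 2 * ⟪x, B y - y⟫ := by
    rw [inner_sub_right]; ring
  have e2 : 2 * ⟪x, y⟫ ≤ vn L x * ‖y‖ ^ 2 := (vn_le_iff one_pos hL hn x).1 le_rfl y hy
  have e3 : ⟪x, B y - y⟫ ≤ ‖x‖ * (t * ‖y‖) :=
    (real_inner_le_norm _ _).trans (mul_le_mul_of_nonneg_left (hB2 y) (norm_nonneg _))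
  have e4 : ‖x‖ * (t * ‖y‖) ≤ ‖x‖ * t * ‖y‖ ^ 2 := by
    have : ‖y‖ ≤ ‖y‖ ^ 2 := by nlinarith
    have h5 : 0 ≤ ‖x‖ * t := by positivity
    nlinarith
  have e5 : (1 - t) ^ 2 * ‖y‖ ^ 2 ≤ ‖B y‖ ^ 2 := by
    rw [← mul_pow]
    exact pow_le_pow_left₀ (by positivity) (hB y) 2
  calc 2 * ⟪x, B y⟫ ≤ (vn L x + 2 * t * ‖x‖) * ‖y‖ ^ 2 := by
        rw [e1]; nlinarith
    _ = ((1 - t) ^ 2)⁻¹ * (vn L x + 2 * t * ‖x‖) * ((1 - t) ^ 2 * ‖y‖ ^ 2) := by
        field_simp
    _ ≤ ((1 - t) ^ 2)⁻¹ * (vn L x + 2 * t * ‖x‖) * ‖B y‖ ^ 2 := by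
        exact mul_le_mul_of_nonneg_left e5 (by positivity)

/-- entries of the matrix of a bounded operator in an orthonormal basis -/
lemma crit_det (hd : 1 ≤ Module.finrank ℝ V) (h' : ℝ) (hh' : 0 ≤ h') : ∃ C u₀ : ℝ, 0 < C ∧ 0 < u₀ ∧ u₀ ≤ 1 ∧
    ∀ (M : V →ₗ[ℝ] V), (∀ x, ‖M x‖ ≤ h' * ‖x‖) → ∀ u : ℝ, 0 ≤ u → u ≤ u₀ →
    1 / 2 ≤ 1 + u * LinearMap.trace ℝ V M / Module.finrank ℝ V - C * u ^ 2 ∧
    (1 + u * LinearMap.trace ℝ V M / Module.finrank ℝ V - C * u ^ 2) ^ Module.finrank ℝ V ≤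
      LinearMap.det (1 + u • M : V →ₗ[ℝ] V) := by
  obtain ⟨C, u₀, hC, hu₀, hu₁, hM⟩ := det_norm_ge (Module.finrank ℝ V) hd h' hh'
  refine ⟨C, u₀, hC, hu₀, hu₁, fun M hMb u hu hu' => ?_⟩
  set b := stdOrthonormalBasis ℝ V with hb
  have hent : ∀ i j, |(LinearMap.toMatrix b.toBasis b.toBasis M) i j| ≤ h' := by
    intro i j
    rw [LinearMap.toMatrix_apply]
    have e1 : (b.toBasis.repr (M (b.toBasis j))) i = ⟪b i, M (b j)⟫ := by
      simp [OrthonormalBasis.coe_toBasis_repr_apply, OrthonormalBasis.repr_apply_apply]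
    rw [e1]
    have e2 := abs_real_inner_le_norm (b i) (M (b j))
    have e3 := hMb (b j)
    rw [b.norm_eq_one i] at e2
    rw [b.norm_eq_one j] at e3
    linarith
  have h2 := hM _ hent u hu hu'
  have e1 : (LinearMap.toMatrix b.toBasis b.toBasis M).trace = LinearMap.trace ℝ V M :=
    (LinearMap.trace_eq_matrix_trace ℝ b.toBasis M).symm
  have e2 : (1 + u • (LinearMap.toMatrix b.toBasis b.toBasis M)).det = LinearMap.det (1 + u • M : V →ₗ[ℝ] V) := by
    rw [← LinearMap.det_toMatrix b.toBasis]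
    congr 1
    rw [map_add, map_smul]
    congr 1
    exact (LinearMap.toMatrix_one b.toBasis).symm
  rw [e1, e2] at h2
  exact h2

end



section
variable {V : Type*} [NormedAddCommGroup V] [InnerProductSpace ℝ V] [FiniteDimensional ℝ V]
  [MeasurableSpace V] [BorelSpace V] {L : AddSubgroup V}

lemma crit_int (hL : Sep 1 L) (p : ℕ) (A : V →ₗ[ℝ] V) (K : ℝ) (hA : ∀ x, ‖A x‖ ≤ K * ‖x‖) :
    Integrable (fun x => vn L (A x) ^ p) (gam V) := by
  refine integrable_of_le (fun x => vn L (A x)) ?_ (2 * K) ?_ p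
  · exact (vn_cont one_pos hL).comp (LinearMap.continuous_of_finiteDimensional A)
  · intro x
    have h1 := vn_nonneg one_pos hL (A x)
    have h2 := vn_le one_pos hL (A x)
    rw [abs_of_nonneg h1]
    have h3 := hA x
    linarith

lemma crit_step {p : ℕ} (hp : 1 ≤ p) {h' C u κ η S c a : ℝ} (hh' : 0 ≤ h') (hC : 0 < C) (hu : 0 < u)
    (hu1 : u ≤ 1) (hLg : Good L) (hLf : Full L)
    (hprop : ∀ (j : ℕ), 1 ≤ j → j < Module.finrank ℝ V → ∀ v : Fin j → V, (∀ i, v i ∈ L) →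
        LinearIndependent ℝ v → (1 + κ) ^ 2 ≤ gdet v)
    (M : V →ₗ[ℝ] V) (hM : ∀ x, ‖M x‖ ≤ h' * ‖x‖)
    (hc : c = 1 + 2 * u / p - C * u ^ 2) (hc2 : 1 / 2 ≤ c)
    (hdet : c ^ Module.finrank ℝ V ≤ LinearMap.det (1 + u • M : V →ₗ[ℝ] V))
    (ha : a = 2 * (h' + 2 + C)) (hau : a * u < 1) (hκ : 0 < κ)
    (hau2 : 1 ≤ (1 - a * u) ^ Module.finrank ℝ V * (1 + κ))
    (hS : ∀ L' : AddSubgroup V, Good L' → Full L' → FF p L' ≤ S) (hSη : S - η ≤ FF p L) :
    ∃ B : V →ₗ[ℝ] V, Good (im B L) ∧ (∀ x, (1 - a * u) * ‖x‖ ≤ ‖B x‖) ∧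
      (∀ x, ‖B x - x‖ ≤ a * u * ‖x‖) ∧
      (3 - p * C * u) * FF p L ≤ η / u + ∫ x, vn (im B L) (x + M x) ^ p ∂(gam V) := by
  have hc0 : 0 < c := by linarith
  have hpr : (1 : ℝ) ≤ p := by exact_mod_cast hp
  have hp0 : (0 : ℝ) < p := by linarith
  have hsep : Sep 1 L := hLg.sep
  set B : V →ₗ[ℝ] V := c⁻¹ • (1 + u • M) with hBdef
  have hBx : ∀ x, B x = c⁻¹ • (x + u • M x) := by intro x; simp [hBdef]
  have hcB : ∀ x, x + u • M x = c • B x := by
    intro x
    rw [hBx, smul_smul, mul_inv_cancel₀ hc0.ne', one_smul]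
  have hup : 2 * u / p ≤ 2 * u := div_le_self (by linarith) hpr
  have hc3 : c ≤ 1 + 2 * u := by
    rw [hc]; nlinarith [sq_nonneg u]
  have hb1 : ∀ x, (1 - a * u) * ‖x‖ ≤ ‖B x‖ := by
    intro x
    rw [hBx, norm_smul, norm_inv, Real.norm_of_nonneg hc0.le]
    have e1 : (1 - u * h') * ‖x‖ ≤ ‖x + u • M x‖ := by
      have e2 : ‖x‖ - ‖u • M x‖ ≤ ‖x + u • M x‖ := by
        have := norm_sub_le (x + u • M x) (u • M x)
        simp only [add_sub_cancel_right] at this
        linarith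
      have e3 : ‖u • M x‖ ≤ u * (h' * ‖x‖) := by
        rw [norm_smul, Real.norm_of_nonneg hu.le]
        exact mul_le_mul_of_nonneg_left (hM x) hu.le
      have e30 : (1 - u * h') * ‖x‖ = ‖x‖ - u * (h' * ‖x‖) := by ring
      linarith
    have e4 : (1 - a * u) * c ≤ 1 - u * h' := by
      have h5 : (1 - a * u) * c ≤ (1 - a * u) * (1 + 2 * u) :=
        mul_le_mul_of_nonneg_left hc3 (by linarith)
      have h6 : (1 - a * u) * (1 + 2 * u) ≤ 1 - u * h' := by
        rw [ha]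
        have : 0 ≤ (h' + 2 + C) * u ^ 2 := by positivity
        nlinarith
      linarith
    rw [inv_mul_eq_div, le_div_iff₀ hc0]
    have e40 := mul_le_mul_of_nonneg_right e4 (norm_nonneg x)
    have e41 : (1 - a * u) * ‖x‖ * c = (1 - a * u) * c * ‖x‖ := by ring
    rw [e41]
    exact e40.trans e1
  have hb2 : ∀ x, ‖B x - x‖ ≤ a * u * ‖x‖ := by
    intro x
    have e1 : B x - x = c⁻¹ • (u • M x + (1 - c) • x) := by
      rw [hBx]
      have : u • M x + (1 - c) • x = (x + u • M x) - c • x := by module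
      rw [this, smul_sub, smul_smul c⁻¹ c x, inv_mul_cancel₀ hc0.ne', one_smul]
    rw [e1, norm_smul, norm_inv, Real.norm_of_nonneg hc0.le, inv_mul_eq_div, div_le_iff₀ hc0]
    have e2 : ‖u • M x + (1 - c) • x‖ ≤ u * (h' * ‖x‖) + |1 - c| * ‖x‖ := by
      refine (norm_add_le _ _).trans (add_le_add ?_ ?_)
      · rw [norm_smul, Real.norm_of_nonneg hu.le]
        exact mul_le_mul_of_nonneg_left (hM x) hu.le
      · rw [norm_smul, Real.norm_eq_abs]
    have e3 : |1 - c| ≤ (2 + C) * u := by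
      rw [abs_le, hc]
      have h7 : 0 ≤ 2 * u / p := by positivity
      have h8 : u ^ 2 ≤ u := by nlinarith
      constructor
      · nlinarith [mul_nonneg hC.le (sq_nonneg u), mul_nonneg hC.le hu.le]
      · nlinarith [mul_nonneg hC.le (sq_nonneg u)]
    have e4 : |1 - c| * ‖x‖ ≤ (2 + C) * u * ‖x‖ := mul_le_mul_of_nonneg_right e3 (norm_nonneg x)
    have e5 : (h' + 2 + C) * u * ‖x‖ ≤ a * u * ‖x‖ * c := by
      rw [ha]
      have e50 : 0 ≤ (h' + 2 + C) * u * ‖x‖ := by positivity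
      have e51 := mul_le_mul_of_nonneg_left (show (1 : ℝ) ≤ 2 * c by linarith) e50
      calc (h' + 2 + C) * u * ‖x‖ = (h' + 2 + C) * u * ‖x‖ * 1 := (mul_one _).symm
        _ ≤ (h' + 2 + C) * u * ‖x‖ * (2 * c) := e51
        _ = _ := by ring
    have e52 : u * (h' * ‖x‖) + (2 + C) * u * ‖x‖ = (h' + 2 + C) * u * ‖x‖ := by ring
    linarith
  have hBinj : ∀ x, B x = 0 → x = 0 := by
    intro x hx
    have := hb1 x
    rw [hx, norm_zero] at this
    have h9 : 0 < 1 - a * u := by linarith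
    have h10 : ‖x‖ ≤ 0 := by nlinarith [norm_nonneg x]
    exact norm_le_zero_iff.1 h10
  have hBsurj : Function.Surjective B := by
    have : Function.Injective B := (injective_iff_map_eq_zero B).2 hBinj
    exact LinearMap.injective_iff_surjective.1 this
  have ha0 : 0 ≤ a * u := by rw [ha]; positivity
  have hdetB : 1 ≤ LinearMap.det B := by
    rw [hBdef, LinearMap.det_smul, inv_pow, inv_mul_eq_div, le_div_iff₀ (by positivity), one_mul]
    exact hdet
  have hGood : Good (im B L) := good_deform hLg hκ.le ha0 hau.le hprop hau2 B hb1 hdetB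
  have hFull : Full (im B L) := full_im hLf B hBsurj
  have hsep' : Sep 1 (im B L) := hGood.sep
  refine ⟨B, hGood, hb1, hb2, ?_⟩
  -- (i)
  have hi : FF p L ≤ ∫ x, vn (im B L) (B x) ^ p ∂(gam V) := by
    refine FF_le one_pos hsep p hp (fun x => vn (im B L) (B x))
      ((vn_cont one_pos hsep').comp (LinearMap.continuous_of_finiteDimensional B))
      (fun x => vn_nonneg one_pos hsep' _) ?_ ?_
    · intro t x ht
      rw [map_smul, vn_smul one_pos hsep', abs_of_pos ht]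
    · intro x y hy hy0 hx
      by_contra hlt
      push Not at hlt
      rw [map_sub] at hlt
      exact hy0 (hBinj y (vn_disj one_pos hsep' (x := B x) (y := B y) ⟨y, hy, rfl⟩ hx hlt))
  -- (ii)
  have hint1 : Integrable (fun x => vn (im B L) x ^ p) (gam V) := FF_integrable one_pos hsep' p
  have hint2 : Integrable (fun x => vn (im B L) (x + M x) ^ p) (gam V) := by
    have := crit_int hsep' p (1 + M : V →ₗ[ℝ] V) (1 + h') (by
      intro x
      have : (1 + M : V →ₗ[ℝ] V) x = x + M x := by simp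
      rw [this]
      have h11 := norm_add_le x (M x)
      have h12 := hM x
      have h13 : (1 + h') * ‖x‖ = ‖x‖ + h' * ‖x‖ := by ring
      rw [h13]
      exact h11.trans (add_le_add_right h12 _))
    refine this.congr (Filter.Eventually.of_forall fun x => ?_)
    simp
  have hint3 : Integrable (fun x => vn (im B L) (x + u • M x) ^ p) (gam V) := by
    have := crit_int hsep' p (1 + u • M : V →ₗ[ℝ] V) (1 + u * h') (by
      intro x
      have : (1 + u • M : V →ₗ[ℝ] V) x = x + u • M x := by simp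
      rw [this]
      have h11 := norm_add_le x (u • M x)
      have h12 := mul_le_mul_of_nonneg_left (hM x) hu.le
      rw [norm_smul, Real.norm_of_nonneg hu.le] at h11
      have h13 : (1 + u * h') * ‖x‖ = ‖x‖ + u * (h' * ‖x‖) := by ring
      linarith)
    refine this.congr (Filter.Eventually.of_forall fun x => ?_)
    simp
  have hii : ∫ x, vn (im B L) (x + u • M x) ^ p ∂(gam V) ≤
      (1 - u) * FF p (im B L) + u * ∫ x, vn (im B L) (x + M x) ^ p ∂(gam V) := by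
    unfold FF
    rw [← integral_const_mul, ← integral_const_mul, ← integral_add (hint1.const_mul _) (hint2.const_mul _)]
    refine integral_mono hint3 ((hint1.const_mul _).add (hint2.const_mul _)) fun x => ?_
    have e1 : x + u • M x = (1 - u) • x + u • (x + M x) := by module
    have e2 : vn (im B L) (x + u • M x) ≤ (1 - u) * vn (im B L) x + u * vn (im B L) (x + M x) := by
      rw [e1]
      refine (vn_add_le one_pos hsep' _ _).trans (le_of_eq ?_)
      rw [vn_smul one_pos hsep', vn_smul one_pos hsep', abs_of_nonneg (by linarith : (0 : ℝ) ≤ 1 - u),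
        abs_of_pos hu]
    have hA := vn_nonneg one_pos hsep' x
    have hB := vn_nonneg one_pos hsep' (x + M x)
    have e3 := (convexOn_pow p).2 (show vn (im B L) x ∈ Set.Ici (0 : ℝ) from hA)
      (show vn (im B L) (x + M x) ∈ Set.Ici (0 : ℝ) from hB) (show (0 : ℝ) ≤ 1 - u by linarith) hu.le
      (by ring)
    simp only [smul_eq_mul] at e3
    exact (pow_le_pow_left₀ (vn_nonneg one_pos hsep' _) e2 p).trans e3
  have hiii : c ^ p * FF p L ≤ ∫ x, vn (im B L) (x + u • M x) ^ p ∂(gam V) := by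
    have e1 : ∀ x, vn (im B L) (x + u • M x) ^ p = c ^ p * vn (im B L) (B x) ^ p := by
      intro x
      rw [hcB, vn_smul one_pos hsep', abs_of_pos hc0, mul_pow]
    simp_rw [e1]
    rw [integral_const_mul]
    exact mul_le_mul_of_nonneg_left hi (by positivity)
  have hF0 : 0 ≤ FF p L := FF_nonneg one_pos hsep p
  have hFS : FF p (im B L) ≤ FF p L + η := by
    have := hS _ hGood hFull
    linarith
  have hcp : 1 + 2 * u - p * C * u ^ 2 ≤ c ^ p := by
    have e1 := one_add_mul_le_pow (a := 2 * u / p - C * u ^ 2) (by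
      have : 1 + (2 * u / p - C * u ^ 2) = c := by rw [hc]; ring
      linarith) p
    have e2 : 1 + (2 * u / p - C * u ^ 2) = c := by rw [hc]; ring
    rw [e2] at e1
    have e3 : (p : ℝ) * (2 * u / p - C * u ^ 2) = 2 * u - p * C * u ^ 2 := by
      field_simp
    linarith
  set G := ∫ x, vn (im B L) (x + M x) ^ p ∂(gam V) with hG
  have hfin : (1 + 2 * u - p * C * u ^ 2) * FF p L ≤ (1 - u) * (FF p L + η) + u * G := by
    have e1 : (1 + 2 * u - p * C * u ^ 2) * FF p L ≤ c ^ p * FF p L := mul_le_mul_of_nonneg_right hcp hF0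
    have e2 : (1 - u) * FF p (im B L) ≤ (1 - u) * (FF p L + η) :=
      mul_le_mul_of_nonneg_left hFS (by linarith)
    linarith
  have hη0 : 0 ≤ η := by
    have := hS L hLg hLf
    linarith
  have hfin2 : u * ((3 - p * C * u) * FF p L) ≤ u * (η / u + G) := by
    have e3 : u * (η / u + G) = η + u * G := by field_simp
    rw [e3]
    have e4 : u * ((3 - p * C * u) * FF p L) = (1 + 2 * u - p * C * u ^ 2) * FF p L - (1 - u) * FF p L := by ring
    rw [e4]
    have e5 : (1 - u) * (FF p L + η) = (1 - u) * FF p L + η - u * η := by ring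
    have e6 := mul_nonneg hu.le hη0
    linarith
  exact le_of_mul_le_mul_left hfin2 hu

end



lemma crit_w1 (p : ℕ) (hp : 1 ≤ p) : 0 < 1 - 1 / (2 * (p : ℝ)) - 1 / (4 * (p : ℝ) ^ 2) ∧
    ∀ A : ℝ, 0 ≤ A → (1 - 1 / (2 * (p : ℝ)) - 1 / (4 * (p : ℝ) ^ 2)) *
      (A / (1 - 1 / (2 * (p : ℝ)) - 1 / (4 * (p : ℝ) ^ 2))) ^ p ≤ 2 * A ^ p := by
  have hpr : (1 : ℝ) ≤ p := by exact_mod_cast hp
  set w := 1 - 1 / (2 * (p : ℝ)) - 1 / (4 * (p : ℝ) ^ 2) with hw
  have hw0 : 0 < w := by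
    have h1 : 1 / (2 * (p : ℝ)) ≤ 1 / 2 := by
      apply one_div_le_one_div_of_le (by norm_num); linarith
    have h2 : 1 / (4 * (p : ℝ) ^ 2) ≤ 1 / 4 := by
      apply one_div_le_one_div_of_le (by norm_num); nlinarith
    rw [hw]; linarith
  refine ⟨hw0, fun A hA => ?_⟩
  obtain ⟨k, rfl⟩ : ∃ k, p = k + 1 := ⟨p - 1, by omega⟩
  have hk : (1 : ℝ) / 2 ≤ w ^ k := by
    have h1 := one_add_mul_le_pow (a := w - 1) (by linarith) k
    have h2 : 1 + (w - 1) = w := by ring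
    rw [h2] at h1
    have h3 : (1 : ℝ) / 2 ≤ 1 + k * (w - 1) := by
      rw [hw]
      push_cast
      have hk0 : (0 : ℝ) ≤ k := Nat.cast_nonneg k
      have h4 : (1 : ℝ) + k * (1 - 1 / (2 * ((k : ℝ) + 1)) - 1 / (4 * ((k : ℝ) + 1) ^ 2) - 1) - 1 / 2 =
          (k + 2) / (4 * ((k : ℝ) + 1) ^ 2) := by
        field_simp
        ring
      have h5 : 0 ≤ (k + 2) / (4 * ((k : ℝ) + 1) ^ 2) := by positivity
      linarith
    linarith
  rw [div_pow, pow_succ w k]
  have h6 : w * (A ^ (k + 1) / (w ^ k * w)) = A ^ (k + 1) / w ^ k := by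
    field_simp
  rw [h6, div_le_iff₀ (by positivity)]
  have h7 : 0 ≤ A ^ (k + 1) := by positivity
  nlinarith

theorem crit (V : Type*) [NormedAddCommGroup V] [InnerProductSpace ℝ V] [FiniteDimensional ℝ V]
    [MeasurableSpace V] [BorelSpace V] (hd : 1 ≤ Module.finrank ℝ V) (p : ℕ) (hp : 1 ≤ p)
    (h T0 κ δ : ℝ) (hh : 0 < h) (hT0 : 0 < T0) (hκ : 0 < κ) (hδ : 0 < δ) :
    ∃ η : ℝ, 0 < η ∧ ∀ L : AddSubgroup V, Good L → Full L →
      (∀ (j : ℕ), 1 ≤ j → j < Module.finrank ℝ V → ∀ v : Fin j → V, (∀ i, v i ∈ L) →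
        LinearIndependent ℝ v → (1 + κ) ^ 2 ≤ gdet v) →
      ∀ S : ℝ, (∀ L' : AddSubgroup V, Good L' → Full L' → FF p L' ≤ S) → S - η ≤ FF p L →
      ∀ H : V →ₗ[ℝ] V, (∀ x, ‖H x‖ ≤ h * ‖x‖) → T0 ≤ LinearMap.trace ℝ V H →
      FF p L ≤ (4 * Module.finrank ℝ V / LinearMap.trace ℝ V H) ^ p * ∫ x, vn L (H x) ^ p ∂(gam V) + δ := by
  have hpr : (1 : ℝ) ≤ p := by exact_mod_cast hp
  have hp0 : (0 : ℝ) < p := by linarith
  have hdr : (1 : ℝ) ≤ Module.finrank ℝ V := by exact_mod_cast hd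
  have hd0 : (0 : ℝ) < Module.finrank ℝ V := by linarith
  set dd : ℝ := (Module.finrank ℝ V : ℝ) with hdd
  set h' : ℝ := 2 * dd / (p * T0) * h with hh'def
  have hh' : 0 ≤ h' := by positivity
  obtain ⟨C, u₀, hC, hu₀, hu₁, hdetM⟩ := crit_det (V := V) hd h' hh'
  set a : ℝ := 2 * (h' + 2 + C) with ha
  have ha0 : 0 < a := by positivity
  set m : ℝ := ∫ x : V, ‖x‖ ^ p ∂(gam V) with hm
  have hm0 : 0 ≤ m := integral_nonneg fun x => by positivity
  set w3 : ℝ := 1 / (4 * (p : ℝ) ^ 2) with hw3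
  have hw30 : 0 < w3 := by positivity
  set K : ℝ := w3 * (2 * a * (1 + h') / w3) ^ p with hK
  have hK0 : 0 ≤ K := by positivity
  -- choice of u
  have ev : ∀ᶠ u : ℝ in 𝓝[>] 0, u ≤ u₀ ∧ a * u < 1 ∧ 1 ≤ (1 - a * u) ^ Module.finrank ℝ V * (1 + κ) ∧
      (((1 - a * u) ^ 2)⁻¹) ^ p ≤ 17 / 16 ∧ p * C * u ≤ 1 / 8 ∧ 4 / 3 * (17 / 16) * (K * u * m) ≤ δ / 2 := by
    have t1 : Tendsto (fun u : ℝ => u) (𝓝[>] 0) (𝓝 0) := tendsto_nhdsWithin_of_tendsto_nhds tendsto_id
    have t2 : Tendsto (fun u : ℝ => a * u) (𝓝[>] 0) (𝓝 0) := by simpa using t1.const_mul a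
    have t3 : Tendsto (fun u : ℝ => 1 - a * u) (𝓝[>] 0) (𝓝 1) := by simpa using t2.const_sub 1
    have t4 : Tendsto (fun u : ℝ => (1 - a * u) ^ Module.finrank ℝ V * (1 + κ)) (𝓝[>] 0) (𝓝 (1 + κ)) := by
      simpa using (t3.pow (Module.finrank ℝ V)).mul_const (1 + κ)
    have t5 : Tendsto (fun u : ℝ => (((1 - a * u) ^ 2)⁻¹) ^ p) (𝓝[>] 0) (𝓝 1) := by
      have := ((t3.pow 2).inv₀ (by norm_num)).pow p
      simpa using this
    have t6 : Tendsto (fun u : ℝ => p * C * u) (𝓝[>] 0) (𝓝 0) := by simpa using t1.const_mul (p * C)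
    have t7 : Tendsto (fun u : ℝ => 4 / 3 * (17 / 16) * (K * u * m)) (𝓝[>] 0) (𝓝 0) := by
      have := ((t1.const_mul K).mul_const m).const_mul (4 / 3 * (17 / 16))
      simpa using this
    have f1 := t1.eventually (gt_mem_nhds hu₀)
    have f2 := t2.eventually (gt_mem_nhds (zero_lt_one' ℝ))
    have f3 := t4.eventually (lt_mem_nhds (show (1 : ℝ) < 1 + κ by linarith))
    have f4 := t5.eventually (gt_mem_nhds (show (1 : ℝ) < 17 / 16 by norm_num))
    have f5 := t6.eventually (gt_mem_nhds (show (0 : ℝ) < 1 / 8 by norm_num))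
    have f6 := t7.eventually (gt_mem_nhds (show (0 : ℝ) < δ / 2 by linarith))
    filter_upwards [f1, f2, f3, f4, f5, f6] with u g1 g2 g3 g4 g5 g6
    exact ⟨g1.le, g2, g3.le, g4.le, g5.le, g6.le⟩
  obtain ⟨u, ⟨huu₀, hau, hau2, hq, hpC, hKu⟩, hu⟩ := (ev.and self_mem_nhdsWithin).exists
  have hu : 0 < u := hu
  have hu1 : u ≤ 1 := huu₀.trans hu₁
  refine ⟨3 / 8 * u * δ, by positivity, ?_⟩
  intro L hLg hLf hprop S hS hSη H hH hT
  set T : ℝ := LinearMap.trace ℝ V H with hTdef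
  have hT0' : 0 < T := by linarith
  set lam : ℝ := 2 * dd / (p * T) with hlam
  have hlam0 : 0 < lam := by positivity
  have hlam1 : lam * h ≤ h' := by
    rw [hh'def, hlam]
    refine mul_le_mul_of_nonneg_right ?_ hh.le
    exact div_le_div_of_nonneg_left (by positivity) (by positivity) (mul_le_mul_of_nonneg_left hT hp0.le)
  have hsep : Sep 1 L := hLg.sep
  set M : V →ₗ[ℝ] V := lam • H with hMdef
  have hMx : ∀ x, M x = lam • H x := fun x => rfl
  have hM : ∀ x, ‖M x‖ ≤ h' * ‖x‖ := by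
    intro x
    rw [hMx, norm_smul, Real.norm_of_nonneg hlam0.le]
    have h21 := mul_le_mul_of_nonneg_left (hH x) hlam0.le
    have h22 := mul_le_mul_of_nonneg_right hlam1 (norm_nonneg x)
    rw [mul_assoc] at h22
    exact h21.trans h22
  have htr : u * LinearMap.trace ℝ V M / dd = 2 * u / p := by
    rw [hMdef, map_smul, smul_eq_mul, ← hTdef, hlam]
    field_simp
  obtain ⟨hc2, hdet⟩ := hdetM M hM u hu.le huu₀
  rw [← hdd] at hc2 hdet
  rw [htr] at hc2 hdet
  obtain ⟨B, hBg, hB1, hB2, hB3⟩ := crit_step (p := p) hp hh' hC hu hu1 hLg hLf hprop M hM rfl hc2 hdet ha hau hκ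
    hau2 hS hSη
  have hsep' : Sep 1 (im B L) := hBg.sep
  obtain ⟨hw1, hw1A⟩ := crit_w1 p hp
  set w1 : ℝ := 1 - 1 / (2 * (p : ℝ)) - 1 / (4 * (p : ℝ) ^ 2) with hw1def
  set q : ℝ := (((1 - a * u) ^ 2)⁻¹) ^ p with hqdef
  have h1au : 0 < 1 - a * u := by linarith
  have hq0 : 0 ≤ q := by positivity
  -- integrability
  have i1 : Integrable (fun x => vn L x ^ p) (gam V) := FF_integrable one_pos hsep p
  have i2 : Integrable (fun x => vn L (H x) ^ p) (gam V) := crit_int hsep p H h hH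
  have i3 : Integrable (fun x : V => ‖x‖ ^ p) (gam V) := integrable_norm_pow p
  have i4 : Integrable (fun x => vn (im B L) (x + M x) ^ p) (gam V) := by
    have := crit_int hsep' p (1 + M : V →ₗ[ℝ] V) (1 + h') (by
      intro x
      have : (1 + M : V →ₗ[ℝ] V) x = x + M x := by simp
      rw [this]
      have h11 := norm_add_le x (M x)
      have h12 := hM x
      have h13 : (1 + h') * ‖x‖ = ‖x‖ + h' * ‖x‖ := by ring
      rw [h13]
      exact h11.trans (add_le_add_right h12 _))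
    refine this.congr (Filter.Eventually.of_forall fun x => ?_)
    simp
  set J : ℝ := ∫ x, vn L (H x) ^ p ∂(gam V) with hJ
  have hJ0 : 0 ≤ J := integral_nonneg fun x => pow_nonneg (vn_nonneg one_pos hsep _) p
  have hG : ∫ x, vn (im B L) (x + M x) ^ p ∂(gam V) ≤
      q * (2 * FF p L + (2 * (p : ℝ))⁻¹ * (4 * dd / T) ^ p * J + K * u * m) := by
    have e0 : q * (2 * FF p L + (2 * (p : ℝ))⁻¹ * (4 * dd / T) ^ p * J + K * u * m) =
        ∫ x, q * (2 * vn L x ^ p + (2 * (p : ℝ))⁻¹ * (4 * dd / T) ^ p * vn L (H x) ^ p + K * u * ‖x‖ ^ p) ∂(gam V) := by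
      have j12 : Integrable (fun x => 2 * vn L x ^ p + (2 * (p : ℝ))⁻¹ * (4 * dd / T) ^ p * vn L (H x) ^ p)
          (gam V) := (i1.const_mul 2).add (i2.const_mul _)
      rw [integral_const_mul, integral_add j12 (i3.const_mul (K * u)),
        integral_add (i1.const_mul 2) (i2.const_mul _), integral_const_mul, integral_const_mul, integral_const_mul]
      rfl
    rw [e0]
    refine integral_mono i4 ((((i1.const_mul 2).add (i2.const_mul _)).add (i3.const_mul _)).const_mul q) fun x => ?_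
    have v0 := vn_nonneg one_pos hsep x
    have v1 := vn_nonneg one_pos hsep (H x)
    have g1 := crit_vn_im hsep B hsep' (t := a * u) (by positivity) hau hB1 hB2 (x + M x)
    have g2 : vn L (x + M x) ≤ vn L x + lam * vn L (H x) := by
      refine (vn_add_le one_pos hsep _ _).trans (le_of_eq ?_)
      rw [hMx, vn_smul one_pos hsep, abs_of_pos hlam0]
    have g3 : ‖x + M x‖ ≤ (1 + h') * ‖x‖ := by
      have h11 := norm_add_le x (M x)
      have h12 := hM x
      have h13 : (1 + h') * ‖x‖ = ‖x‖ + h' * ‖x‖ := by ring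
      rw [h13]
      exact h11.trans (add_le_add_right h12 _)
    have g4 : vn (im B L) (x + M x) ≤ ((1 - a * u) ^ 2)⁻¹ *
        (vn L x + lam * vn L (H x) + 2 * (a * u) * (1 + h') * ‖x‖) := by
      refine g1.trans (mul_le_mul_of_nonneg_left ?_ (by positivity))
      have g5 : 2 * (a * u) * ‖x + M x‖ ≤ 2 * (a * u) * ((1 + h') * ‖x‖) :=
        mul_le_mul_of_nonneg_left g3 (by positivity)
      have g50 : 2 * (a * u) * ((1 + h') * ‖x‖) = 2 * (a * u) * (1 + h') * ‖x‖ := by ring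
      exact add_le_add g2 (g5.trans (le_of_eq g50))
    have g6 := pow_le_pow_left₀ (vn_nonneg one_pos hsep' _) g4 p
    rw [mul_pow] at g6
    have hsum : w1 + 1 / (2 * (p : ℝ)) + w3 = 1 := by rw [hw1def, hw3]; ring
    have g7 := crit_jensen3 p hw1 (show 0 < 1 / (2 * (p : ℝ)) by positivity) hw30 hsum v0
      (show 0 ≤ lam * vn L (H x) by positivity) (show 0 ≤ 2 * (a * u) * (1 + h') * ‖x‖ by positivity)
    have g8 := hw1A _ v0
    have g9 : 1 / (2 * (p : ℝ)) * (lam * vn L (H x) / (1 / (2 * (p : ℝ)))) ^ p =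
        (2 * (p : ℝ))⁻¹ * (4 * dd / T) ^ p * vn L (H x) ^ p := by
      have : lam * vn L (H x) / (1 / (2 * (p : ℝ))) = (4 * dd / T) * vn L (H x) := by
        rw [hlam]; field_simp; ring
      rw [this, mul_pow]; ring
    have g10 : w3 * (2 * (a * u) * (1 + h') * ‖x‖ / w3) ^ p ≤ K * u * ‖x‖ ^ p := by
      have e1 : 2 * (a * u) * (1 + h') * ‖x‖ / w3 = (2 * a * (1 + h') / w3) * u * ‖x‖ := by
        field_simp
      rw [e1, mul_pow, mul_pow, hK]
      have e2 : u ^ p ≤ u := by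
        calc u ^ p ≤ u ^ 1 := pow_le_pow_of_le_one hu.le hu1 hp
          _ = u := pow_one u
      have e3 : 0 ≤ w3 * (2 * a * (1 + h') / w3) ^ p * ‖x‖ ^ p := by positivity
      have e4 := mul_le_mul_of_nonneg_left e2 e3
      calc w3 * ((2 * a * (1 + h') / w3) ^ p * u ^ p * ‖x‖ ^ p)
          = w3 * (2 * a * (1 + h') / w3) ^ p * ‖x‖ ^ p * u ^ p := by ring
        _ ≤ w3 * (2 * a * (1 + h') / w3) ^ p * ‖x‖ ^ p * u := e4
        _ = w3 * (2 * a * (1 + h') / w3) ^ p * u * ‖x‖ ^ p := by ring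
    refine g6.trans (mul_le_mul_of_nonneg_left ?_ hq0)
    linarith
  have hX0 : 0 ≤ (4 * dd / T) ^ p * J := by positivity
  have hF0 : 0 ≤ FF p L := FF_nonneg one_pos hsep p
  have hηu : 3 / 8 * u * δ / u = 3 / 8 * δ := by field_simp
  rw [hηu] at hB3
  have k1 : q * (2 * FF p L + (2 * (p : ℝ))⁻¹ * (4 * dd / T) ^ p * J + K * u * m) ≤
      17 / 16 * (2 * FF p L + (2 * (p : ℝ))⁻¹ * (4 * dd / T) ^ p * J + K * u * m) := by
    refine mul_le_mul_of_nonneg_right hq ?_
    have : 0 ≤ (2 * (p : ℝ))⁻¹ * (4 * dd / T) ^ p * J := by positivity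
    have : 0 ≤ K * u * m := by positivity
    linarith
  have k2 : (2 * (p : ℝ))⁻¹ * (4 * dd / T) ^ p * J ≤ 1 / 2 * ((4 * dd / T) ^ p * J) := by
    rw [mul_assoc]
    refine mul_le_mul_of_nonneg_right ?_ hX0
    rw [← one_div]
    apply one_div_le_one_div_of_le (by norm_num); linarith
  have k3 : (3 - 1 / 8) * FF p L ≤ (3 - p * C * u) * FF p L := mul_le_mul_of_nonneg_right (by linarith) hF0
  linarith

end H890
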