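import Pool.Agent.H890R2.RM.Defs

set_option autoImplicit false
open MeasureTheory
open scoped ENNReal Pointwise RealInnerProductSpace

/-! Noise operators on the discrete cube: nodes, Walsh analysis. -/

namespace H890

/-- interpolation nodes extracting the linear coefficient -/
theorem nodes (N : ℕ) (hN : 1 ≤ N) : ∃ C : ℝ, 0 < C ∧ ∀ θ : ℝ, 0 < θ → θ ≤ 1 →
    ∃ c t : Fin (N + 1) → ℝ, (∀ l, |t l| ≤ θ) ∧
      (∀ k ≤ N, ∑ l, c l * t l ^ k = if k = 1 then 1 else 0) ∧ ∑ l, |c l| ≤ C / θ := by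
  have hN0 : (0 : ℝ) < (N : ℝ) + 1 := by positivity
  let τ : Fin (N + 1) → ℝ := fun l => ((l : ℕ) + 1 : ℝ) / ((N : ℝ) + 1)
  have hτinj : Function.Injective τ := by
    intro a b hab
    have h1 : ((a : ℕ) + 1 : ℝ) / ((N : ℝ) + 1) = ((b : ℕ) + 1 : ℝ) / ((N : ℝ) + 1) := hab
    rw [div_left_inj' hN0.ne'] at h1
    have h2 : ((a : ℕ) : ℝ) = ((b : ℕ) : ℝ) := by linarith
    exact Fin.ext (by exact_mod_cast h2)
  have hτ0 : ∀ l, 0 < τ l := fun l => by
    change 0 < ((l : ℕ) + 1 : ℝ) / ((N : ℝ) + 1)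
    positivity
  have hτ1 : ∀ l, τ l ≤ 1 := fun l => by
    change ((l : ℕ) + 1 : ℝ) / ((N : ℝ) + 1) ≤ 1
    rw [div_le_one hN0]
    have : ((l : ℕ) : ℝ) ≤ N := by exact_mod_cast Nat.lt_succ_iff.mp l.2
    linarith
  have hdet : (Matrix.vandermonde τ).det ≠ 0 := Matrix.det_vandermonde_ne_zero_iff.mpr hτinj
  have hunit : IsUnit (Matrix.vandermonde τ).det := isUnit_iff_ne_zero.mpr hdet
  let e1 : Fin (N + 1) → ℝ := fun k => if (k : ℕ) = 1 then 1 else 0
  let c0 : Fin (N + 1) → ℝ := Matrix.vecMul e1 (Matrix.vandermonde τ)⁻¹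
  have hc0 : Matrix.vecMul c0 (Matrix.vandermonde τ) = e1 := by
    change Matrix.vecMul (Matrix.vecMul e1 (Matrix.vandermonde τ)⁻¹) (Matrix.vandermonde τ) = e1
    rw [Matrix.vecMul_vecMul, Matrix.nonsing_inv_mul _ hunit, Matrix.vecMul_one]
  have hc0' : ∀ k : ℕ, k ≤ N → ∑ l, c0 l * τ l ^ k = if k = 1 then 1 else 0 := by
    intro k hk
    have := congrFun hc0 ⟨k, Nat.lt_succ_iff.mpr hk⟩
    simp only [Matrix.vecMul, dotProduct, Matrix.vandermonde_apply] at this
    exact this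
  refine ⟨∑ l, |c0 l| + 1, by positivity, fun θ hθ hθ1 => ?_⟩
  refine ⟨fun l => c0 l / θ, fun l => θ * τ l, fun l => ?_, fun k hk => ?_, ?_⟩
  · rw [abs_mul, abs_of_pos hθ, abs_of_pos (hτ0 l)]
    nlinarith [hτ1 l]
  · have h1 : ∀ l, c0 l / θ * (θ * τ l) ^ k = (θ ^ k / θ) * (c0 l * τ l ^ k) := by
      intro l
      rw [mul_pow]
      ring
    rw [Finset.sum_congr rfl (fun l _ => h1 l), ← Finset.mul_sum, hc0' k hk]
    by_cases hk1 : k = 1
    · subst hk1
      simp [hθ.ne']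
    · simp [hk1]
  · have h1 : ∀ l, |c0 l / θ| = |c0 l| / θ := by
      intro l
      rw [abs_div, abs_of_pos hθ]
    rw [Finset.sum_congr rfl (fun l _ => h1 l), ← Finset.sum_div]
    apply div_le_div_of_nonneg_right _ hθ.le
    linarith

/-! ### Walsh functions -/

theorem CUBE_sg_sq (b : Bool) : sg b * sg b = 1 := by cases b <;> simp [sg]

/-- Walsh function -/
noncomputable def CUBE_chi {d : ℕ} (S : Finset (Fin d)) (ε : Fin d → Bool) : ℝ :=
  ∏ i ∈ S, sg (ε i)

/-- Walsh coefficient -/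
noncomputable def CUBE_hat {d : ℕ} (f : (Fin d → Bool) → ℝ) (S : Finset (Fin d)) : ℝ :=
  avg (fun ε => CUBE_chi S ε * f ε)

theorem CUBE_kernel {d : ℕ} (t : ℝ) (ε ε' : Fin d → Bool) :
    ∏ i, (1 + t * sg (ε i) * sg (ε' i)) / 2 =
      (2 ^ d : ℝ)⁻¹ * ∑ S : Finset (Fin d), t ^ S.card * (CUBE_chi S ε * CUBE_chi S ε') := by
  rw [Finset.prod_div_distrib, Finset.prod_const, Finset.card_univ, Fintype.card_fin,
    div_eq_inv_mul]
  congr 1
  rw [Finset.prod_one_add, Finset.powerset_univ]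
  apply Finset.sum_congr rfl
  intro S _
  unfold CUBE_chi
  rw [← Finset.prod_mul_distrib, ← Finset.prod_const, ← Finset.prod_mul_distrib]
  apply Finset.prod_congr rfl
  intro i _
  ring

theorem CUBE_noise {d : ℕ} (t : ℝ) (f : (Fin d → Bool) → ℝ) (ε' : Fin d → Bool) :
    noise t f ε' = ∑ S : Finset (Fin d), t ^ S.card * CUBE_hat f S * CUBE_chi S ε' := by
  unfold noise CUBE_hat avg
  have h1 : ∀ ε : Fin d → Bool, (∏ i, (1 + t * sg (ε i) * sg (ε' i)) / 2) • f ε =
      ∑ S : Finset (Fin d), (2 ^ d : ℝ)⁻¹ * (t ^ S.card * (CUBE_chi S ε * CUBE_chi S ε')) * f ε := by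
    intro ε
    rw [CUBE_kernel, smul_eq_mul, Finset.mul_sum, Finset.sum_mul]
  rw [Finset.sum_congr rfl (fun ε _ => h1 ε), Finset.sum_comm]
  apply Finset.sum_congr rfl
  intro S _
  rw [Finset.mul_sum, Finset.mul_sum, Finset.sum_mul]
  apply Finset.sum_congr rfl
  intro ε _
  ring

theorem CUBE_rad {d : ℕ} (f : (Fin d → Bool) → ℝ) (ε' : Fin d → Bool) :
    rad f ε' = ∑ S : Finset (Fin d), (if S.card = 1 then 1 else 0) * CUBE_hat f S *
      CUBE_chi S ε' := by
  have hsub : (Finset.univ.filter (fun S : Finset (Fin d) => S.card = 1)) =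
      (Finset.univ : Finset (Fin d)).map ⟨fun i => ({i} : Finset (Fin d)),
        Finset.singleton_injective⟩ := by
    ext S
    simp only [Finset.mem_filter, Finset.mem_univ, true_and, Finset.mem_map,
      Function.Embedding.coeFn_mk, Finset.card_eq_one]
    exact ⟨fun ⟨a, h⟩ => ⟨a, h.symm⟩, fun ⟨a, h⟩ => ⟨a, h.symm⟩⟩
  have h1 : ∑ S : Finset (Fin d), (if S.card = 1 then (1 : ℝ) else 0) * CUBE_hat f S *
      CUBE_chi S ε' = ∑ i : Fin d, CUBE_hat f {i} * CUBE_chi {i} ε' := by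
    have h2 : ∀ S : Finset (Fin d), (if S.card = 1 then (1 : ℝ) else 0) * CUBE_hat f S *
        CUBE_chi S ε' = if S.card = 1 then CUBE_hat f S * CUBE_chi S ε' else 0 := by
      intro S
      split_ifs <;> ring
    rw [Finset.sum_congr rfl (fun S _ => h2 S), ← Finset.sum_filter, hsub, Finset.sum_map]
    rfl
  rw [h1]
  unfold rad CUBE_hat avg
  have h3 : ∀ ε : Fin d → Bool, ((2 ^ d : ℝ)⁻¹ * ∑ i, sg (ε i) * sg (ε' i)) • f ε =
      ∑ i, (2 ^ d : ℝ)⁻¹ * (sg (ε i) * sg (ε' i)) * f ε := by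
    intro ε
    rw [smul_eq_mul, Finset.mul_sum, Finset.sum_mul]
  rw [Finset.sum_congr rfl (fun ε _ => h3 ε), Finset.sum_comm]
  apply Finset.sum_congr rfl
  intro i _
  rw [Finset.mul_sum, Finset.sum_mul]
  apply Finset.sum_congr rfl
  intro ε _
  unfold CUBE_chi
  rw [Finset.prod_singleton, Finset.prod_singleton]
  ring

/-- sums of products over the cube -/
theorem CUBE_sum_prod {d : ℕ} (h : Fin d → Bool → ℝ) :
    ∑ ε : Fin d → Bool, ∏ i, h i (ε i) = ∏ i, (h i true + h i false) := by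
  have h1 := Fintype.prod_sum (fun i b => h i b)
  rw [← h1]
  apply Finset.prod_congr rfl
  intro i _
  rw [Fintype.sum_bool]

theorem CUBE_orth {d : ℕ} (S T : Finset (Fin d)) :
    avg (fun ε => CUBE_chi S ε * CUBE_chi T ε) = if S = T then 1 else 0 := by
  unfold avg CUBE_chi
  have h1 : ∀ ε : Fin d → Bool, (∏ i ∈ S, sg (ε i)) * ∏ i ∈ T, sg (ε i) =
      ∏ i, ((fun (i : Fin d) (b : Bool) => (if i ∈ S then sg b else 1) * (if i ∈ T then sg b else 1)) i (ε i)) := by
    intro ε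
    rw [Finset.prod_mul_distrib, Finset.prod_ite_mem, Finset.prod_ite_mem, Finset.univ_inter,
      Finset.univ_inter]
  have h5 := (Finset.sum_congr (rfl : (Finset.univ : Finset (Fin d → Bool)) = Finset.univ)
    (fun ε _ => h1 ε)).trans (CUBE_sum_prod (fun (i : Fin d) (b : Bool) =>
      (if i ∈ S then sg b else 1) * (if i ∈ T then sg b else 1)))
  rw [h5]
  by_cases hST : S = T
  · subst hST
    have h2 : ∀ i : Fin d, (if i ∈ S then sg true else 1) * (if i ∈ S then sg true else 1) +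
        (if i ∈ S then sg false else 1) * (if i ∈ S then sg false else 1) = (2 : ℝ) := by
      intro i
      split_ifs <;> simp [sg] <;> norm_num
    rw [Finset.prod_congr rfl (fun i _ => h2 i), Finset.prod_const, Finset.card_univ,
      Fintype.card_fin, if_pos rfl]
    exact inv_mul_cancel₀ (by positivity)
  · rw [if_neg hST]
    obtain ⟨i, hi⟩ : ∃ i, ¬ (i ∈ S ↔ i ∈ T) := by
      by_contra hcon
      push Not at hcon
      exact hST (Finset.ext hcon)
    rw [Finset.prod_eq_zero (Finset.mem_univ i), mul_zero]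
    by_cases h3 : i ∈ S <;> by_cases h4 : i ∈ T <;> simp [h3, h4, sg] at hi ⊢

theorem CUBE_avg_sum {d : ℕ} {ι : Type*} (s : Finset ι) (g : ι → (Fin d → Bool) → ℝ) :
    avg (fun ε => ∑ i ∈ s, g i ε) = ∑ i ∈ s, avg (g i) := by
  unfold avg
  rw [Finset.sum_comm, Finset.mul_sum]

theorem CUBE_avg_mul {d : ℕ} (a : ℝ) (g : (Fin d → Bool) → ℝ) :
    avg (fun ε => a * g ε) = a * avg g := by
  unfold avg
  rw [← Finset.mul_sum]
  ring

/-- Parseval -/
theorem CUBE_parseval {d : ℕ} (a : Finset (Fin d) → ℝ) :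
    avg (fun ε => (∑ S, a S * CUBE_chi S ε) ^ 2) = ∑ S, a S ^ 2 := by
  have h1 : ∀ ε : Fin d → Bool, (∑ S, a S * CUBE_chi S ε) ^ 2 =
      ∑ S, ∑ T, (a S * a T) * (CUBE_chi S ε * CUBE_chi T ε) := by
    intro ε
    rw [pow_two, Finset.sum_mul_sum]
    apply Finset.sum_congr rfl
    intro S _
    apply Finset.sum_congr rfl
    intro T _
    ring
  have h2 : avg (fun ε : Fin d → Bool => (∑ S, a S * CUBE_chi S ε) ^ 2) =
      avg (fun ε => ∑ S, ∑ T, (a S * a T) * (CUBE_chi S ε * CUBE_chi T ε)) := by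
    congr 1
    funext ε
    exact h1 ε
  rw [h2, CUBE_avg_sum]
  apply Finset.sum_congr rfl
  intro S _
  rw [CUBE_avg_sum, Finset.sum_eq_single S]
  · rw [CUBE_avg_mul, CUBE_orth, if_pos rfl]
    ring
  · intro T _ hT
    rw [CUBE_avg_mul, CUBE_orth, if_neg (Ne.symm hT), mul_zero]
  · intro h
    exact absurd (Finset.mem_univ _) h

theorem CUBE_noise_one {d : ℕ} (f : (Fin d → Bool) → ℝ) (ε' : Fin d → Bool) :
    noise 1 f ε' = f ε' := by
  unfold noise
  rw [Finset.sum_eq_single ε']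
  · have h1 : ∏ i, (1 + 1 * sg (ε' i) * sg (ε' i)) / 2 = (1 : ℝ) := by
      apply Finset.prod_eq_one
      intro i _
      rw [one_mul, CUBE_sg_sq]
      norm_num
    rw [h1, one_smul]
  · intro ε _ hne
    obtain ⟨i, hi⟩ := Function.ne_iff.mp hne
    rw [Finset.prod_eq_zero (Finset.mem_univ i), zero_smul]
    have : sg (ε i) * sg (ε' i) = -1 := by
      cases h1 : ε i <;> cases h2 : ε' i <;> simp [h1, h2, sg] at hi ⊢
    rw [one_mul, this]
    norm_num
  · intro h
    exact absurd (Finset.mem_univ _) h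

/-- Walsh analysis: error of approximating the Rademacher projection by noise operators -/
theorem walsh_tail {d m N : ℕ} (hN : 1 ≤ N) (c t : Fin m → ℝ)
    (hc : ∀ k ≤ N, ∑ l, c l * t l ^ k = if k = 1 then 1 else 0) (α : ℝ)
    (hα : ∀ k, N < k → |∑ l, c l * t l ^ k| ≤ α) (f : (Fin d → Bool) → ℝ) :
    avg (fun ε' => (∑ l, c l * noise (t l) f ε' - rad f ε') ^ 2) ≤ α ^ 2 * avg (fun ε => f ε ^ 2) := by
  let β : Finset (Fin d) → ℝ := fun S => ∑ l, c l * t l ^ S.card - (if S.card = 1 then 1 else 0)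
  have h1 : ∀ ε', ∑ l, c l * noise (t l) f ε' - rad f ε' =
      ∑ S, (β S * CUBE_hat f S) * CUBE_chi S ε' := by
    intro ε'
    have h2 : ∀ l, c l * noise (t l) f ε' =
        ∑ S, (c l * t l ^ S.card) * (CUBE_hat f S * CUBE_chi S ε') := by
      intro l
      rw [CUBE_noise, Finset.mul_sum]
      apply Finset.sum_congr rfl
      intro S _
      ring
    rw [Finset.sum_congr rfl (fun l _ => h2 l), Finset.sum_comm, CUBE_rad,
      ← Finset.sum_sub_distrib]
    apply Finset.sum_congr rfl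
    intro S _
    rw [← Finset.sum_mul]
    change _ = ((∑ l, c l * t l ^ S.card - (if S.card = 1 then 1 else 0)) * CUBE_hat f S) *
      CUBE_chi S ε'
    ring
  have h3 : avg (fun ε' => (∑ l, c l * noise (t l) f ε' - rad f ε') ^ 2) =
      ∑ S, (β S * CUBE_hat f S) ^ 2 := by
    rw [← CUBE_parseval]
    congr 1
    funext ε'
    rw [h1]
  have h4 : avg (fun ε => f ε ^ 2) = ∑ S, CUBE_hat f S ^ 2 := by
    rw [← CUBE_parseval]
    congr 1
    funext ε
    have h5 := CUBE_noise 1 f ε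
    rw [CUBE_noise_one] at h5
    rw [h5]
    congr 1
    apply Finset.sum_congr rfl
    intro S _
    rw [one_pow, one_mul]
  rw [h3, h4, Finset.mul_sum]
  apply Finset.sum_le_sum
  intro S _
  rw [mul_pow]
  apply mul_le_mul_of_nonneg_right _ (sq_nonneg _)
  rcases Nat.lt_or_ge N S.card with h6 | h6
  · have h7 : S.card ≠ 1 := by omega
    have h8 : β S = ∑ l, c l * t l ^ S.card := by
      change ∑ l, c l * t l ^ S.card - (if S.card = 1 then 1 else 0) = _
      rw [if_neg h7, sub_zero]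
    rw [h8]
    have h9 := hα S.card h6
    have h10 : 0 ≤ α := (abs_nonneg _).trans h9
    exact sq_le_sq.mpr (by rw [abs_of_nonneg h10]; exact h9)
  · have h8 : β S = 0 := by
      change ∑ l, c l * t l ^ S.card - (if S.card = 1 then 1 else 0) = _
      rw [hc _ h6, sub_self]
    rw [h8]
    have := sq_nonneg α
    simpa using this

theorem noise_mem {d : ℕ} {W : Type*} [AddCommGroup W] [Module ℝ W] {K : Set W} (hK : Convex ℝ K)
    (f : (Fin d → Bool) → W) (hf : ∀ ε, f ε ∈ K) {t : ℝ} (ht : |t| ≤ 1) (ε' : Fin d → Bool) :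
    noise t f ε' ∈ K := by
  unfold noise
  apply hK.sum_mem
  · intro ε _
    apply Finset.prod_nonneg
    intro i _
    have h1 : |t * sg (ε i) * sg (ε' i)| ≤ 1 := by
      rw [mul_assoc, abs_mul]
      have : |sg (ε i) * sg (ε' i)| = 1 := by
        cases ε i <;> cases ε' i <;> simp [sg]
      rw [this, mul_one]
      exact ht
    have := (abs_le.mp h1).1
    linarith
  · have h1 := CUBE_sum_prod (d := d) (fun i b => (1 + t * sg b * sg (ε' i)) / 2)
    rw [h1]
    apply Finset.prod_eq_one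
    intro i _
    simp only [sg, if_true, Bool.false_eq_true, if_false]
    ring
  · intro ε _
    exact hf ε

theorem map_noise {d : ℕ} {W : Type*} [AddCommGroup W] [Module ℝ W] (φ : W →ₗ[ℝ] ℝ) (t : ℝ)
    (f : (Fin d → Bool) → W) (ε' : Fin d → Bool) : φ (noise t f ε') = noise t (fun ε => φ (f ε)) ε' := by
  unfold noise
  rw [map_sum]
  apply Finset.sum_congr rfl
  intro ε _
  rw [map_smul]

theorem map_rad {d : ℕ} {W : Type*} [AddCommGroup W] [Module ℝ W] (φ : W →ₗ[ℝ] ℝ)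
    (f : (Fin d → Bool) → W) (ε' : Fin d → Bool) : φ (rad f ε') = rad (fun ε => φ (f ε)) ε' := by
  unfold rad
  rw [map_sum]
  apply Finset.sum_congr rfl
  intro ε _
  rw [map_smul]

end H890
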