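import Pool.Agent.H890R2.RM.Gam

set_option autoImplicit false
open MeasureTheory
open scoped ENNReal Pointwise RealInnerProductSpace

/-! Definitions for the elementary reverse Minkowski theorem with `N^ε` loss (helper890). -/

namespace H890

section alg
variable {V : Type*} [NormedAddCommGroup V] [InnerProductSpace ℝ V]

/-- Gram determinant of a finite family -/
noncomputable def gdet {j : ℕ} (v : Fin j → V) : ℝ := (Matrix.gram ℝ v).det

/-- every linearly independent finite family of vectors of `L` has Gram determinant at least one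
(i.e. all sublattices have determinant at least one) -/
def Good (L : AddSubgroup V) : Prop :=
  ∀ (j : ℕ) (v : Fin j → V), (∀ i, v i ∈ L) → LinearIndependent ℝ v → 1 ≤ gdet v

/-- nonzero vectors of `L` have length at least `r` -/
def Sep (r : ℝ) (L : AddSubgroup V) : Prop := ∀ y ∈ L, y ≠ 0 → r ≤ ‖y‖

/-- `L` spans the space -/
def Full (L : AddSubgroup V) : Prop := Submodule.span ℝ (L : Set V) = ⊤

/-- the norm whose closed unit ball is the Voronoi cell of `L` -/
noncomputable def vn (L : AddSubgroup V) (x : V) : ℝ :=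
  ⨆ y : {y : V // y ∈ L ∧ y ≠ 0}, 2 * ⟪x, (y : V)⟫ / ‖(y : V)‖ ^ 2

/-- the scaled lattice `c L` -/
def sc (c : ℝ) (L : AddSubgroup V) : AddSubgroup V := L.map (c • LinearMap.id : V →ₗ[ℝ] V).toAddMonoidHom

/-- the image lattice `B L` -/
def im {W : Type*} [NormedAddCommGroup W] [InnerProductSpace ℝ W] (B : V →ₗ[ℝ] W)
    (L : AddSubgroup V) : AddSubgroup W := L.map B.toAddMonoidHom

/-- `L ∩ U` as a lattice of `U` -/
def secL (U : Submodule ℝ V) (L : AddSubgroup V) : AddSubgroup U := L.comap U.subtype.toAddMonoidHom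

/-- the projection of `L` to `Uᗮ` -/
noncomputable def quoL (U : Submodule ℝ V) [Uᗮ.HasOrthogonalProjection] (L : AddSubgroup V) : AddSubgroup (Uᗮ : Submodule ℝ V) :=
  L.map (Uᗮ.orthogonalProjectionOnto : V →L[ℝ] Uᗮ).toLinearMap.toAddMonoidHom

/-- support function -/
noncomputable def hs (K : Set V) (x : V) : ℝ := sSup ((fun y => ⟪x, y⟫) '' K)

/-- symmetric convex body -/
structure Body (K : Set V) : Prop where
  comp : IsCompact K
  conv : Convex ℝ K
  symm : ∀ x ∈ K, -x ∈ K
  int : (interior K).Nonempty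

end alg

/-- the functional: Gaussian `p`-th moment of the Voronoi norm -/
noncomputable def FF {V : Type*} [NormedAddCommGroup V] [InnerProductSpace ℝ V] [FiniteDimensional ℝ V]
    [MeasurableSpace V] [BorelSpace V] (p : ℕ) (L : AddSubgroup V) : ℝ :=
  ∫ x, vn L x ^ p ∂(gam V)

/-- sign of a Boolean -/
def sg (b : Bool) : ℝ := if b then 1 else -1

/-- average over the cube `{±1}^d` -/
noncomputable def avg {d : ℕ} (f : (Fin d → Bool) → ℝ) : ℝ := (2 ^ d : ℝ)⁻¹ * ∑ ε, f ε

/-- noise operator on vector valued functions on the cube -/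
noncomputable def noise {d : ℕ} {W : Type*} [AddCommGroup W] [Module ℝ W] (t : ℝ)
    (f : (Fin d → Bool) → W) (ε' : Fin d → Bool) : W :=
  ∑ ε : Fin d → Bool, (∏ i, (1 + t * sg (ε i) * sg (ε' i)) / 2) • f ε

/-- Rademacher projection -/
noncomputable def rad {d : ℕ} {W : Type*} [AddCommGroup W] [Module ℝ W]
    (f : (Fin d → Bool) → W) (ε' : Fin d → Bool) : W :=
  ∑ ε : Fin d → Bool, ((2 ^ d : ℝ)⁻¹ * ∑ i, sg (ε i) * sg (ε' i)) • f ε

/-- sign vector in an orthonormal basis -/
noncomputable def bv {d : ℕ} {V : Type*} [NormedAddCommGroup V] [InnerProductSpace ℝ V]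
    (b : OrthonormalBasis (Fin d) ℝ V) (ε : Fin d → Bool) : V := ∑ i, sg (ε i) • b i

end H890
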