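import Pool.Agent.H890R2.RM.VN

set_option autoImplicit false
set_option linter.unusedSectionVars false
open MeasureTheory
open scoped ENNReal Pointwise RealInnerProductSpace

/-! Extremality of the Voronoi cell for Gaussian measure. -/

namespace H890

section
variable {V : Type*} [NormedAddCommGroup V] [InnerProductSpace ℝ V] [FiniteDimensional ℝ V]
  [MeasurableSpace V] [BorelSpace V] {r : ℝ} {L : AddSubgroup V}

theorem EXT_meas_W (hr : 0 < r) (hL : Sep r L) (s : ℝ) : MeasurableSet {x : V | vn L x ≤ s} :=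
  (isClosed_le (vn_cont hr hL) continuous_const).measurableSet

theorem EXT_aux (hr : 0 < r) (hL : Sep r L) {s : ℝ} (hs : 0 < s) (g : V → ℝ≥0∞) (hg : Measurable g)
    (hmon : ∀ x y : V, ‖x‖ ≤ ‖y‖ → g y ≤ g x) (D : Set V) (hD : MeasurableSet D)
    (hsep : ∀ x ∈ D, ∀ y ∈ L, y ≠ 0 → x - s • y ∉ D) :
    ∫⁻ x in D, g x ≤ ∫⁻ x in {x | vn L x ≤ s}, g x := by
  have : Countable L := (sep_countable hr hL).to_subtype
  have hW : MeasurableSet {x : V | vn L x ≤ s} := EXT_meas_W hr hL s
  generalize hWdef : {x : V | vn L x ≤ s} = W at hW ⊢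
  have hWmem : ∀ x, x ∈ W ↔ vn L x ≤ s := by intro x; rw [← hWdef]; rfl
  -- covering
  have hcov : ∀ x : V, ∃ y : L, x - s • (y : V) ∈ W := by
    intro x
    obtain ⟨y, hy, h⟩ := exists_closest hr hL (s⁻¹ • x)
    refine ⟨⟨y, hy⟩, ?_⟩
    have h1 : x - s • y = s • (s⁻¹ • x - y) := by rw [smul_sub, smul_inv_smul₀ hs.ne']
    rw [hWmem]
    change vn L (x - s • y) ≤ s
    rw [h1, vn_smul hr hL, abs_of_pos hs]
    nlinarith
  have hnorm : ∀ x ∈ W, ∀ y ∈ L, ‖x‖ ≤ ‖x + s • y‖ := by
    intro x hx y hy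
    rw [hWmem] at hx
    have h1 : vn L (s⁻¹ • x) ≤ 1 := by
      rw [vn_smul hr hL, abs_of_pos (inv_pos.2 hs)]
      calc s⁻¹ * vn L x ≤ s⁻¹ * s := mul_le_mul_of_nonneg_left hx (inv_pos.2 hs).le
        _ = 1 := inv_mul_cancel₀ hs.ne'
    have h2 := norm_le_of_vn hr hL hy h1
    have h3 : x + s • y = s • (s⁻¹ • x + y) := by rw [smul_add, smul_inv_smul₀ hs.ne']
    have h4 : x = s • (s⁻¹ • x) := by rw [smul_inv_smul₀ hs.ne']
    rw [h3, norm_smul]
    calc ‖x‖ = ‖s • (s⁻¹ • x)‖ := by rw [← h4]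
      _ = ‖s‖ * ‖s⁻¹ • x‖ := norm_smul _ _
      _ ≤ _ := mul_le_mul_of_nonneg_left h2 (norm_nonneg _)
  have hDg : Measurable (D.indicator g) := hg.indicator hD
  have hWg : Measurable (W.indicator g) := hg.indicator hW
  have hD1 : Measurable (D.indicator (1 : V → ℝ≥0∞)) := measurable_one.indicator hD
  have hW1 : Measurable (W.indicator (1 : V → ℝ≥0∞)) := measurable_one.indicator hW
  calc ∫⁻ x in D, g x = ∫⁻ x, D.indicator g x := by rw [lintegral_indicator hD]
    _ ≤ ∫⁻ x, ∑' y : L, D.indicator g x * W.indicator (1 : V → ℝ≥0∞) (x - s • (y : V)) := by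
      refine lintegral_mono fun x => ?_
      obtain ⟨y, hy⟩ := hcov x
      calc D.indicator g x = D.indicator g x * W.indicator (1 : V → ℝ≥0∞) (x - s • (y : V)) := by
            rw [Set.indicator_of_mem hy]; simp
        _ ≤ _ := ENNReal.le_tsum (f := fun y : L =>
            D.indicator g x * W.indicator (1 : V → ℝ≥0∞) (x - s • (y : V))) y
    _ = ∑' y : L, ∫⁻ x, D.indicator g x * W.indicator (1 : V → ℝ≥0∞) (x - s • (y : V)) := by
      refine lintegral_tsum fun y => ?_
      exact (hDg.mul (hW1.comp (measurable_id.sub_const _))).aemeasurable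
    _ = ∑' y : L, ∫⁻ x, D.indicator g (x + s • (y : V)) * W.indicator (1 : V → ℝ≥0∞) x := by
      refine tsum_congr fun y => ?_
      rw [← lintegral_add_right_eq_self
        (fun x => D.indicator g x * W.indicator (1 : V → ℝ≥0∞) (x - s • (y : V))) (s • (y : V))]
      simp only [add_sub_cancel_right]
    _ ≤ ∑' y : L, ∫⁻ x, D.indicator (1 : V → ℝ≥0∞) (x + s • (y : V)) * W.indicator g x := by
      refine ENNReal.tsum_le_tsum fun y => lintegral_mono fun x => ?_
      by_cases hx : x ∈ W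
      · by_cases hd : x + s • (y : V) ∈ D
        · simp only [Set.indicator_of_mem hx, Set.indicator_of_mem hd, Pi.one_apply, mul_one, one_mul]
          exact hmon _ _ (hnorm x hx y y.2)
        · simp only [Set.indicator_of_notMem hd, zero_mul, le_refl]
      · simp only [Set.indicator_of_notMem hx, mul_zero, le_refl]
    _ = ∫⁻ x, ∑' y : L, D.indicator (1 : V → ℝ≥0∞) (x + s • (y : V)) * W.indicator g x := by
      refine (lintegral_tsum fun y => ?_).symm
      exact ((hD1.comp (measurable_id.add_const _)).mul hWg).aemeasurable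
    _ ≤ ∫⁻ x, W.indicator g x := by
      refine lintegral_mono fun x => ?_
      rw [ENNReal.tsum_mul_right]
      have h1 : ∑' y : L, D.indicator (1 : V → ℝ≥0∞) (x + s • (y : V)) ≤ 1 := by
        by_cases hex : ∃ y0 : L, x + s • (y0 : V) ∈ D
        · obtain ⟨y0, hy0⟩ := hex
          rw [tsum_eq_single y0]
          · rw [Set.indicator_of_mem hy0]; rfl
          · intro y hy
            refine Set.indicator_of_notMem (fun hyD => ?_) _
            have h2 : ((y : V) - (y0 : V)) ∈ L := L.sub_mem y.2 y0.2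
            have h3 : ((y : V) - (y0 : V)) ≠ 0 := by
              intro h4
              exact hy (Subtype.ext (sub_eq_zero.1 h4))
            refine hsep _ hyD _ h2 h3 ?_
            have h5 : x + s • (y : V) - s • ((y : V) - (y0 : V)) = x + s • (y0 : V) := by
              rw [smul_sub]; abel
            rw [h5]; exact hy0
        · push Not at hex
          have h2 : ∀ y : L, D.indicator (1 : V → ℝ≥0∞) (x + s • (y : V)) = 0 := fun y =>
            Set.indicator_of_notMem (hex y) _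
          simp only [h2, tsum_zero]
          exact zero_le
      calc _ ≤ 1 * W.indicator g x := mul_le_mul_left h1 _
        _ = _ := one_mul _
    _ = ∫⁻ x in W, g x := by rw [lintegral_indicator hW]

theorem EXT_gd_mono (x y : V) (h : ‖x‖ ≤ ‖y‖) : ENNReal.ofReal (gd y) ≤ ENNReal.ofReal (gd x) := by
  refine ENNReal.ofReal_le_ofReal ?_
  unfold gd
  refine mul_le_mul_of_nonneg_left (Real.exp_le_exp.2 ?_) (by positivity)
  have := pow_le_pow_left₀ (norm_nonneg x) h 2
  linarith

/-- Let `D` have disjoint translates under the lattice `s L`. Then its Gaussian measure is at most that of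
the scaled Voronoi cell. -/
theorem ext_meas (hr : 0 < r) (hL : Sep r L) {s : ℝ} (hs : 0 < s) (D : Set V) (hD : MeasurableSet D)
    (hsep : ∀ x ∈ D, ∀ y ∈ L, y ≠ 0 → x - s • y ∉ D) :
    gam V D ≤ gam V {x | vn L x ≤ s} := by
  unfold gam
  rw [withDensity_apply _ hD, withDensity_apply _ (EXT_meas_W hr hL s)]
  exact EXT_aux hr hL hs _ gd_cont.measurable.ennreal_ofReal EXT_gd_mono D hD hsep

/-- Lebesgue version: the Voronoi cell has at least the volume of any packing set -/
theorem ext_vol (hr : 0 < r) (hL : Sep r L) (D : Set V) (hD : MeasurableSet D)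
    (hsep : ∀ x ∈ D, ∀ y ∈ L, y ≠ 0 → x - y ∉ D) :
    volume D ≤ volume {x : V | vn L x ≤ 1} := by
  have h := EXT_aux hr hL one_pos (fun _ => 1) measurable_const (fun _ _ _ => le_refl _) D hD
    (fun x hx y hy hy0 => by rw [one_smul]; exact hsep x hx y hy hy0)
  simpa using h

/-- a continuous function bounded by `C ‖x‖` has integrable `p`-th power -/
theorem integrable_of_le (N : V → ℝ) (hN : Continuous N) (C : ℝ) (h : ∀ x, |N x| ≤ C * ‖x‖) (p : ℕ) :
    Integrable (fun x => N x ^ p) (gam V) := by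
  refine Integrable.mono' ((integrable_norm_pow (V := V) p).const_mul (C ^ p))
    (hN.pow p).aestronglyMeasurable (Filter.Eventually.of_forall fun x => ?_)
  rw [Real.norm_eq_abs, abs_pow, ← mul_pow]
  exact pow_le_pow_left₀ (abs_nonneg _) (h x) p

theorem FF_integrable (hr : 0 < r) (hL : Sep r L) (p : ℕ) : Integrable (fun x => vn L x ^ p) (gam V) :=
  integrable_of_le _ (vn_cont hr hL) (2 / r) (fun x => by
    rw [abs_of_nonneg (vn_nonneg hr hL x)]; exact vn_le hr hL x) p

theorem FF_nonneg (hr : 0 < r) (hL : Sep r L) (p : ℕ) : 0 ≤ FF p L :=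
  integral_nonneg fun x => pow_nonneg (vn_nonneg hr hL x) p

theorem EXT_compl (hr : 0 < r) (hL : Sep r L) (N : V → ℝ) (hN : Continuous N)
    (hhom : ∀ (c : ℝ) (x : V), 0 < c → N (c • x) = c * N x)
    (hsep : ∀ x, ∀ y ∈ L, y ≠ 0 → N x < 1 → 1 ≤ N (x - y)) {s : ℝ} (hs : 0 < s) :
    gam V {x | s < vn L x} ≤ gam V {x | s ≤ N x} := by
  have hD : MeasurableSet {x : V | N x < s} := (isOpen_lt hN continuous_const).measurableSet
  have h1 : gam V {x | N x < s} ≤ gam V {x | vn L x ≤ s} := by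
    refine ext_meas hr hL hs _ hD fun x hx y hy hy0 hxy => ?_
    have hx' : N x < s := hx
    have hxy' : N (x - s • y) < s := hxy
    have h2 : N (s⁻¹ • x) < 1 := by
      rw [hhom _ _ (inv_pos.2 hs)]
      calc s⁻¹ * N x < s⁻¹ * s := mul_lt_mul_of_pos_left hx' (inv_pos.2 hs)
        _ = 1 := inv_mul_cancel₀ hs.ne'
    have h3 := hsep (s⁻¹ • x) y hy hy0 h2
    have h4 : s⁻¹ • x - y = s⁻¹ • (x - s • y) := by rw [smul_sub, inv_smul_smul₀ hs.ne']
    rw [h4, hhom _ _ (inv_pos.2 hs)] at h3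
    have h5 : s⁻¹ * N (x - s • y) < s⁻¹ * s := mul_lt_mul_of_pos_left hxy' (inv_pos.2 hs)
    rw [inv_mul_cancel₀ hs.ne'] at h5
    linarith
  have e1 : {x : V | s < vn L x} = {x | vn L x ≤ s}ᶜ := by ext x; simp
  have e2 : {x : V | s ≤ N x} = {x | N x < s}ᶜ := by ext x; simp
  rw [e1, e2, prob_compl_eq_one_sub (EXT_meas_W hr hL s), prob_compl_eq_one_sub hD]
  exact tsub_le_tsub_left h1 _

/-- extremality for the functional -/
theorem FF_le (hr : 0 < r) (hL : Sep r L) (p : ℕ) (hp : 1 ≤ p) (N : V → ℝ) (hN : Continuous N)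
    (h0 : ∀ x, 0 ≤ N x) (hhom : ∀ (c : ℝ) (x : V), 0 < c → N (c • x) = c * N x)
    (hsep : ∀ x, ∀ y ∈ L, y ≠ 0 → N x < 1 → 1 ≤ N (x - y)) :
    FF p L ≤ ∫ x, N x ^ p ∂(gam V) := by
  -- N x ≤ C ‖x‖
  obtain ⟨C, hC⟩ := (isCompact_sphere (0 : V) 1).exists_bound_of_continuousOn hN.continuousOn
  have hN0 : N 0 = 0 := by
    have := hhom 2 0 (by norm_num)
    rw [smul_zero] at this
    linarith
  have hNle : ∀ x, |N x| ≤ C * ‖x‖ := by
    intro x
    by_cases hx : x = 0
    · subst hx; simp [hN0]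
    · have hx' : 0 < ‖x‖ := norm_pos_iff.2 hx
      have h1 : x = ‖x‖ • (‖x‖⁻¹ • x) := by rw [smul_inv_smul₀ hx'.ne']
      have h2 : (‖x‖⁻¹ • x) ∈ Metric.sphere (0 : V) 1 := by
        rw [mem_sphere_zero_iff_norm, norm_smul, norm_inv, norm_norm, inv_mul_cancel₀ hx'.ne']
      have h3 := hC _ h2
      rw [Real.norm_eq_abs] at h3
      calc |N x| = |N (‖x‖ • (‖x‖⁻¹ • x))| := by rw [← h1]
        _ = ‖x‖ * |N (‖x‖⁻¹ • x)| := by rw [hhom _ _ hx', abs_mul, abs_of_pos hx']
        _ ≤ ‖x‖ * C := mul_le_mul_of_nonneg_left h3 hx'.le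
        _ = _ := mul_comm _ _
  have hNint := integrable_of_le N hN C hNle p
  have hvint := FF_integrable hr hL p
  have hvnn : ∀ x : V, 0 ≤ vn L x ^ p := fun x => pow_nonneg (vn_nonneg hr hL x) p
  have hNnn : ∀ x : V, 0 ≤ N x ^ p := fun x => pow_nonneg (h0 x) p
  have hlin : ∫⁻ x, ENNReal.ofReal (vn L x ^ p) ∂(gam V) ≤ ∫⁻ x, ENNReal.ofReal (N x ^ p) ∂(gam V) := by
    rw [lintegral_eq_lintegral_meas_lt (gam V) (Filter.Eventually.of_forall hvnn)
      hvint.aestronglyMeasurable.aemeasurable,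
      lintegral_eq_lintegral_meas_le (gam V) (Filter.Eventually.of_forall hNnn)
      hNint.aestronglyMeasurable.aemeasurable]
    refine setLIntegral_mono' measurableSet_Ioi fun t ht => ?_
    have ht' : 0 < t := ht
    obtain ⟨s, hs, hst⟩ : ∃ s : ℝ, 0 < s ∧ s ^ p = t := by
      refine ⟨t ^ ((p : ℝ)⁻¹), Real.rpow_pos_of_pos ht' _, ?_⟩
      rw [← Real.rpow_natCast, ← Real.rpow_mul ht'.le, inv_mul_cancel₀ (by positivity), Real.rpow_one]
    have e1 : {a : V | t < vn L a ^ p} = {a | s < vn L a} := by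
      ext a
      simp only [Set.mem_ofPred_eq, ← hst]
      exact pow_lt_pow_iff_left₀ hs.le (vn_nonneg hr hL a) (by omega)
    have e2 : {a : V | t ≤ N a ^ p} = {a | s ≤ N a} := by
      ext a
      simp only [Set.mem_ofPred_eq, ← hst]
      exact pow_le_pow_iff_left₀ hs.le (h0 a) (by omega)
    rw [e1, e2]
    exact EXT_compl hr hL N hN hhom hsep hs
  unfold FF
  rw [integral_eq_lintegral_of_nonneg_ae (Filter.Eventually.of_forall hvnn) hvint.aestronglyMeasurable,
    integral_eq_lintegral_of_nonneg_ae (Filter.Eventually.of_forall hNnn) hNint.aestronglyMeasurable]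
  refine ENNReal.toReal_mono ?_ hlin
  have := hNint.lintegral_lt_top
  exact this.ne

theorem FF_sc (hr : 0 < r) (hL : Sep r L) (p : ℕ) {c : ℝ} (hc : 0 < c) :
    FF p (sc c L) = FF p L / c ^ p := by
  unfold FF
  simp_rw [vn_sc hr hL hc, div_pow]
  rw [integral_div]

/-- uniform bound for lattices without short vectors -/
theorem FF_bdd (V : Type*) [NormedAddCommGroup V] [InnerProductSpace ℝ V] [FiniteDimensional ℝ V]
  [MeasurableSpace V] [BorelSpace V] (p : ℕ) : ∃ M : ℝ, ∀ L : AddSubgroup V, Sep 1 L → FF p L ≤ M := by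
  refine ⟨∫ x : V, (2 ^ p * ‖x‖ ^ p) ∂(gam V), fun L hL => ?_⟩
  refine integral_mono (FF_integrable one_pos hL p) ((integrable_norm_pow (V := V) p).const_mul (2 ^ p))
    fun x => ?_
  have h1 := vn_le one_pos hL x
  rw [div_one] at h1
  change vn L x ^ p ≤ 2 ^ p * ‖x‖ ^ p
  rw [← mul_pow]
  exact pow_le_pow_left₀ (vn_nonneg one_pos hL x) h1 p

end

end H890
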