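import Pool.Agent.H890R2.RM.Defs

set_option autoImplicit false
open MeasureTheory
open scoped ENNReal Pointwise RealInnerProductSpace

/-! Gram determinants. -/

namespace H890

section
variable {V : Type*} [NormedAddCommGroup V] [InnerProductSpace ℝ V]

theorem gdet_nonneg {j : ℕ} (v : Fin j → V) : 0 ≤ gdet v :=
  (Matrix.posSemidef_gram ℝ v).det_nonneg

theorem gdet_pos {j : ℕ} (v : Fin j → V) (hv : LinearIndependent ℝ v) : 0 < gdet v :=
  (Matrix.posDef_gram_iff_linearIndependent.mpr hv).det_pos

theorem gdet_zero (v : Fin 0 → V) : gdet v = 1 := by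
  unfold gdet
  exact Matrix.det_isEmpty

/-- block formula, general form -/
theorem GD_append_aux {i j : ℕ} (u : Fin i → V) (w P : Fin j → V)
    (hP : ∀ k, P k ∈ Submodule.span ℝ (Set.range u)) (hPo : ∀ l k, ⟪u l, w k - P k⟫ = 0) :
    gdet (Fin.append u w) = gdet u * gdet (fun k => w k - P k) := by
  classical
  have ha : ∀ k, ∃ c : Fin i → ℝ, ∑ l, c l • u l = P k := by
    intro k
    exact (Submodule.mem_span_range_iff_exists_fun ℝ).mp (hP k)
  choose a ha using ha
  let A : Matrix (Fin i) (Fin i) ℝ := Matrix.gram ℝ u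
  let G : Matrix (Fin j) (Fin j) ℝ := Matrix.gram ℝ (fun k => w k - P k)
  let M : Matrix (Fin i) (Fin j) ℝ := Matrix.of fun l k => a k l
  have hPQ : ∀ k k', ⟪P k, w k' - P k'⟫ = 0 := by
    intro k k'
    rw [← ha k, sum_inner]
    apply Finset.sum_eq_zero
    intro l _
    rw [inner_smul_left, hPo l k', mul_zero]
  have huw : ∀ l k, ⟪u l, w k⟫ = (A * M) l k := by
    intro l k
    have h1 : ⟪u l, w k⟫ = ⟪u l, P k⟫ := by
      have := hPo l k
      rw [inner_sub_right] at this
      linarith
    rw [h1, ← ha k, inner_sum, Matrix.mul_apply]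
    apply Finset.sum_congr rfl
    intro l' _
    rw [inner_smul_right]
    simp only [A, M, Matrix.gram_apply, Matrix.of_apply]
    ring
  have hPP : ∀ k k', ⟪P k, P k'⟫ = (M.transpose * A * M) k k' := by
    intro k k'
    have h1 : ∀ l, ⟪u l, P k'⟫ = (A * M) l k' := by
      intro l
      rw [← huw l k']
      have := hPo l k'
      rw [inner_sub_right] at this
      linarith
    conv_lhs => rw [← ha k, sum_inner]
    rw [Matrix.mul_assoc, Matrix.mul_apply]
    apply Finset.sum_congr rfl
    intro l _
    rw [inner_smul_left, h1 l]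
    simp [M]
  have hww : ∀ k k', ⟪w k, w k'⟫ = (M.transpose * A * M + G) k k' := by
    intro k k'
    have e1 : w k = P k + (w k - P k) := by abel
    have e2 : w k' = P k' + (w k' - P k') := by abel
    have h2 : ⟪w k - P k, P k'⟫ = 0 := by rw [real_inner_comm]; exact hPQ k' k
    calc ⟪w k, w k'⟫ = ⟪P k + (w k - P k), P k' + (w k' - P k')⟫ := by rw [← e1, ← e2]
      _ = ⟪P k, P k'⟫ + ⟪w k - P k, w k' - P k'⟫ := by
          rw [inner_add_left, inner_add_right, inner_add_right, hPQ k k', h2]
          ring
      _ = (M.transpose * A * M + G) k k' := by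
          rw [hPP, Matrix.add_apply]
          rfl
  have hAt : A.transpose = A := by
    ext l l'
    simp only [A, Matrix.transpose_apply, Matrix.gram_apply]
    exact real_inner_comm _ _
  have hwu : ∀ k l, ⟪w k, u l⟫ = (M.transpose * A) k l := by
    intro k l
    rw [real_inner_comm, huw l k]
    have : M.transpose * A = (A * M).transpose := by rw [Matrix.transpose_mul, hAt]
    rw [this, Matrix.transpose_apply]
  have hblock : (Matrix.gram ℝ (Fin.append u w)).submatrix finSumFinEquiv finSumFinEquiv =
      Matrix.fromBlocks A (A * M) (M.transpose * A) (M.transpose * A * M + G) := by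
    ext x y
    rcases x with l | k <;> rcases y with l' | k'
    · simp only [Matrix.submatrix_apply, Matrix.gram_apply, finSumFinEquiv_apply_left,
        Fin.append_left, Matrix.fromBlocks_apply₁₁]
      rfl
    · simp only [Matrix.submatrix_apply, Matrix.gram_apply, finSumFinEquiv_apply_left,
        finSumFinEquiv_apply_right, Fin.append_left, Fin.append_right, Matrix.fromBlocks_apply₁₂]
      exact huw l k'
    · simp only [Matrix.submatrix_apply, Matrix.gram_apply, finSumFinEquiv_apply_left,
        finSumFinEquiv_apply_right, Fin.append_left, Fin.append_right, Matrix.fromBlocks_apply₂₁]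
      exact hwu k l'
    · simp only [Matrix.submatrix_apply, Matrix.gram_apply,
        finSumFinEquiv_apply_right, Fin.append_right, Matrix.fromBlocks_apply₂₂]
      exact hww k k'
  have hfac : Matrix.fromBlocks A (A * M) (M.transpose * A) (M.transpose * A * M + G) =
      Matrix.fromBlocks 1 0 M.transpose 1 * Matrix.fromBlocks A 0 0 G * Matrix.fromBlocks 1 M 0 1 := by
    rw [Matrix.fromBlocks_multiply, Matrix.fromBlocks_multiply]
    simp
  have hdet : (Matrix.gram ℝ (Fin.append u w)).det =
      ((Matrix.gram ℝ (Fin.append u w)).submatrix finSumFinEquiv finSumFinEquiv).det :=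
    (Matrix.det_submatrix_equiv_self _ _).symm
  unfold gdet
  rw [hdet, hblock, hfac, Matrix.det_mul, Matrix.det_mul, Matrix.det_fromBlocks_zero₁₂,
    Matrix.det_fromBlocks_zero₁₂, Matrix.det_fromBlocks_zero₂₁]
  simp [A, G]

/-- isometries preserve Gram determinants -/
theorem gdet_isometry {W : Type*} [NormedAddCommGroup W] [InnerProductSpace ℝ W] {j : ℕ} (v : Fin j → V)
    (f : V →ₗ[ℝ] W) (hf : ∀ x y, ⟪f x, f y⟫ = ⟪x, y⟫) : gdet (fun i => f (v i)) = gdet v := by
  unfold gdet
  congr 1
  ext i j
  simp only [Matrix.gram_apply]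
  exact hf _ _

/-- block formula -/
theorem gdet_append [FiniteDimensional ℝ V] {i j : ℕ} (u : Fin i → V) (w : Fin j → V) :
    gdet (Fin.append u w) = gdet u *
      gdet (fun k => (((Submodule.span ℝ (Set.range u))ᗮ).orthogonalProjectionOnto (w k) :
        ((Submodule.span ℝ (Set.range u))ᗮ : Submodule ℝ V))) := by
  set U := Submodule.span ℝ (Set.range u) with hU
  have hQ : ∀ k, ((Uᗮ.orthogonalProjectionOnto (w k) : Uᗮ) : V) = w k - U.starProjection (w k) := by
    intro k
    have h1 := Submodule.starProjection_orthogonal_val (K := U) (w k)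
    rw [← h1]
    rfl
  rw [GD_append_aux u w (fun k => U.starProjection (w k))
    (fun k => Submodule.starProjection_apply_mem U (w k))
    (fun l k => by
      have h1 := Submodule.starProjection_inner_eq_zero (K := U) (w k) (u l)
        (Submodule.subset_span ⟨l, rfl⟩)
      rw [real_inner_comm]
      exact h1)]
  congr 1
  rw [← gdet_isometry (fun k => (Uᗮ.orthogonalProjectionOnto (w k) : Uᗮ)) (Uᗮ).subtype
    (fun x y => by rw [Submodule.subtype_apply, Submodule.subtype_apply, Submodule.coe_inner])]
  congr 1
  funext k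
  rw [Submodule.subtype_apply, hQ]

theorem gdet_smul {j : ℕ} (v : Fin j → V) (c : ℝ) : gdet (fun i => c • v i) = c ^ (2 * j) * gdet v := by
  unfold gdet
  have h1 : Matrix.gram ℝ (fun i => c • v i) = (c ^ 2) • Matrix.gram ℝ v := by
    ext i k
    simp only [Matrix.gram_apply, Matrix.smul_apply, smul_eq_mul, inner_smul_left, inner_smul_right]
    simp
    ring
  rw [h1, Matrix.det_smul, Fintype.card_fin, pow_mul]

theorem GD_single (w : V) : gdet (fun _ : Fin 1 => w) = ‖w‖ ^ 2 := by
  unfold gdet
  rw [Matrix.det_fin_one, Matrix.gram_apply, real_inner_self_eq_norm_sq]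

/-- a linear map which shrinks lengths by a factor at most `c` shrinks Gram determinants by at most `c^(2j)` -/
theorem gdet_map_ge {W : Type*} [NormedAddCommGroup W] [InnerProductSpace ℝ W] {j : ℕ} (v : Fin j → V)
    (B : V →ₗ[ℝ] W) {c : ℝ} (hc : 0 ≤ c) (hB : ∀ x, c * ‖x‖ ≤ ‖B x‖) :
    c ^ (2 * j) * gdet v ≤ gdet (fun i => B (v i)) := by
  induction j with
  | zero => simp [gdet_zero]
  | succ j ih =>
    set u : Fin j → V := fun i => v (Fin.castSucc i) with hu
    set w : V := v (Fin.last j) with hw
    have hv : v = Fin.append u (fun _ : Fin 1 => w) := by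
      rw [Fin.append_right_eq_snoc]
      funext i
      refine Fin.lastCases ?_ (fun i => ?_) i
      · rw [Fin.snoc_last]
      · rw [Fin.snoc_castSucc]
    have hBv : (fun i => B (v i)) = Fin.append (fun i => B (u i)) (fun _ : Fin 1 => B w) := by
      rw [Fin.append_right_eq_snoc]
      funext i
      refine Fin.lastCases ?_ (fun i => ?_) i
      · rw [Fin.snoc_last]
      · rw [Fin.snoc_castSucc]
    have : FiniteDimensional ℝ (Submodule.span ℝ (Set.range u)) :=
      FiniteDimensional.span_of_finite ℝ (Set.finite_range u)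
    have : FiniteDimensional ℝ (Submodule.span ℝ (Set.range (fun i => B (u i)))) :=
      FiniteDimensional.span_of_finite ℝ (Set.finite_range _)
    set U := Submodule.span ℝ (Set.range u) with hU
    set U' := Submodule.span ℝ (Set.range (fun i => B (u i))) with hU'
    have e1 := GD_append_aux u (fun _ : Fin 1 => w) (fun _ => U.starProjection w)
      (fun _ => Submodule.starProjection_apply_mem U w)
      (fun l _ => by
        have h1 := Submodule.starProjection_inner_eq_zero (K := U) w (u l)
          (Submodule.subset_span ⟨l, rfl⟩)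
        rw [real_inner_comm]
        exact h1)
    have e2 := GD_append_aux (fun i => B (u i)) (fun _ : Fin 1 => B w) (fun _ => U'.starProjection (B w))
      (fun _ => Submodule.starProjection_apply_mem U' (B w))
      (fun l _ => by
        have h1 := Submodule.starProjection_inner_eq_zero (K := U') (B w) (B (u l))
          (Submodule.subset_span ⟨l, rfl⟩)
        rw [real_inner_comm]
        exact h1)
    rw [← hv, GD_single] at e1
    rw [← hBv, GD_single] at e2
    have hmem : U'.starProjection (B w) ∈ U.map B := by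
      have h1 : U' = U.map B := by
        rw [hU', hU, Submodule.map_span]
        congr 1
        rw [← Set.range_comp]
        rfl
      rw [← h1]
      exact Submodule.starProjection_apply_mem U' (B w)
    obtain ⟨y, hy, hyB⟩ := Submodule.mem_map.mp hmem
    have hmin : ‖w - U.starProjection w‖ ≤ ‖w - y‖ := by
      rw [Submodule.starProjection_minimal]
      have h1 : (⨅ x : U, ‖w - x‖) ≤ ‖w - ((⟨y, hy⟩ : U) : V)‖ :=
        ciInf_le ⟨0, by rintro _ ⟨x, rfl⟩; exact norm_nonneg _⟩ (⟨y, hy⟩ : U)
      exact h1
    have hge : c * ‖w - U.starProjection w‖ ≤ ‖B w - U'.starProjection (B w)‖ := by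
      rw [← hyB, ← map_sub]
      calc c * ‖w - U.starProjection w‖ ≤ c * ‖w - y‖ := by gcongr
        _ ≤ ‖B (w - y)‖ := hB _
    rw [e1, e2]
    have hih := ih u
    calc c ^ (2 * (j + 1)) * (gdet u * ‖w - U.starProjection w‖ ^ 2)
        = (c ^ (2 * j) * gdet u) * (c * ‖w - U.starProjection w‖) ^ 2 := by ring
      _ ≤ gdet (fun i => B (u i)) * ‖B w - U'.starProjection (B w)‖ ^ 2 := by
          have h3 : 0 ≤ c * ‖w - U.starProjection w‖ := by positivity
          have h4 := gdet_nonneg (fun i => B (u i))
          gcongr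

/-- families of full rank -/
theorem gdet_map_full {j : ℕ} (hj : Module.finrank ℝ V = j) (hj' : 0 < j) (v : Fin j → V) (B : V →ₗ[ℝ] V) :
    gdet (fun i => B (v i)) = LinearMap.det B ^ 2 * gdet v := by
  have : FiniteDimensional ℝ V := FiniteDimensional.of_finrank_pos (by omega)
  subst hj
  let b := stdOrthonormalBasis ℝ V
  have hgram : ∀ x : Fin (Module.finrank ℝ V) → V, gdet x = (b.toBasis.toMatrix x).det ^ 2 := by
    intro x
    unfold gdet
    have h1 : Matrix.gram ℝ x = (b.toBasis.toMatrix x).transpose * b.toBasis.toMatrix x := by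
      ext i k
      rw [Matrix.gram_apply, Matrix.mul_apply]
      simp only [Matrix.transpose_apply, Module.Basis.toMatrix_apply, OrthonormalBasis.coe_toBasis_repr_apply,
        OrthonormalBasis.repr_apply_apply]
      rw [← b.sum_inner_mul_inner]
      apply Finset.sum_congr rfl
      intro l _
      rw [real_inner_comm]
    rw [h1, Matrix.det_mul, Matrix.det_transpose, sq]
  rw [hgram, hgram]
  have h2 : b.toBasis.toMatrix (fun i => B (v i)) =
      LinearMap.toMatrix b.toBasis b.toBasis B * b.toBasis.toMatrix v := by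
    ext i k
    rw [Matrix.mul_apply]
    have h3 := congrFun (LinearMap.toMatrix_mulVec_repr b.toBasis b.toBasis B (v k)) i
    rw [Matrix.mulVec, dotProduct] at h3
    rw [Module.Basis.toMatrix_apply, ← h3]
    rfl
  rw [h2, Matrix.det_mul, LinearMap.det_toMatrix, mul_pow]

/-- integral Gram matrix: integer vectors have Gram determinant at least one -/
theorem gdet_int_ge_one {k j : ℕ} (v : Fin j → EuclideanSpace ℝ (Fin k))
    (hv : ∀ i l, ∃ z : ℤ, v i l = z) (hi : LinearIndependent ℝ v) : 1 ≤ gdet v := by
  choose z hz using hv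
  let Z : Matrix (Fin j) (Fin k) ℤ := Matrix.of z
  have h1 : Matrix.gram ℝ v = (Z * Z.transpose).map (Int.castRingHom ℝ) := by
    ext i i'
    rw [Matrix.gram_apply, Matrix.map_apply, Matrix.mul_apply, map_sum, PiLp.inner_apply]
    apply Finset.sum_congr rfl
    intro l _
    rw [hz, hz]
    simp [Z]
    ring
  have h2 : gdet v = (((Z * Z.transpose).det : ℤ) : ℝ) := by
    unfold gdet
    rw [h1]
    exact ((Int.castRingHom ℝ).map_det (Z * Z.transpose)).symm
  have h3 := gdet_pos v hi
  rw [h2] at h3 ⊢
  have h4 : 0 < (Z * Z.transpose).det := by exact_mod_cast h3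
  exact_mod_cast h4

end

end H890
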