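import Mathlib

set_option autoImplicit false
set_option linter.unusedSectionVars false
open Finset MeasureTheory
open scoped ENNReal Pointwise RealInnerProductSpace

/-! Standard Gaussian measure on a finite dimensional inner product space
(first half copied from helper845's H845R2.Gs). -/

namespace H890

variable {V : Type*} [NormedAddCommGroup V] [InnerProductSpace ℝ V] [FiniteDimensional ℝ V]
  [MeasurableSpace V] [BorelSpace V]

/-- Gaussian density -/
noncomputable def gd (x : V) : ℝ :=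
  ((Real.sqrt (2 * Real.pi))⁻¹) ^ (Module.finrank ℝ V) * Real.exp (-(1 / 2) * ‖x‖ ^ 2)

lemma gd_nonneg (x : V) : 0 ≤ gd x := by unfold gd; positivity

lemma gd_cont : Continuous (gd : V → ℝ) := by unfold gd; fun_prop

/-- standard Gaussian measure -/
noncomputable def gam (V : Type*) [NormedAddCommGroup V] [InnerProductSpace ℝ V]
    [FiniteDimensional ℝ V] [MeasurableSpace V] [BorelSpace V] : Measure V :=
  volume.withDensity (fun x => ENNReal.ofReal (gd x))

lemma two_pi_rpow (n : ℕ) (b : ℝ) (hb : 0 < b) :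
    (Real.pi / b) ^ ((n : ℝ) / 2) = (Real.sqrt (Real.pi / b)) ^ n := by
  have : 0 < Real.pi / b := by positivity
  rw [Real.sqrt_eq_rpow, ← Real.rpow_natCast, ← Real.rpow_mul this.le]
  congr 1
  ring

lemma integral_gauss (b : ℝ) (hb : 0 < b) :
    ∫ x : V, Real.exp (-b * ‖x‖ ^ 2) = (Real.sqrt (Real.pi / b)) ^ Module.finrank ℝ V := by
  rw [GaussianFourier.integral_rexp_neg_mul_sq_norm hb, two_pi_rpow _ _ hb]

lemma integrable_gauss (b : ℝ) (hb : 0 < b) :
    Integrable (fun x : V => Real.exp (-b * ‖x‖ ^ 2)) := by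
  by_contra h
  have h1 := integral_undef h
  rw [integral_gauss b hb] at h1
  have : 0 < (Real.sqrt (Real.pi / b)) ^ Module.finrank ℝ V := by positivity
  linarith

lemma lintegral_gauss (b : ℝ) (hb : 0 < b) :
    ∫⁻ x : V, ENNReal.ofReal (Real.exp (-b * ‖x‖ ^ 2)) =
      ENNReal.ofReal ((Real.sqrt (Real.pi / b)) ^ Module.finrank ℝ V) := by
  rw [← integral_gauss (V := V) b hb, ofReal_integral_eq_lintegral_ofReal (integrable_gauss b hb)
    (Filter.Eventually.of_forall fun x => (Real.exp_pos _).le)]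

instance : IsProbabilityMeasure (gam V) := by
  constructor
  unfold gam
  rw [withDensity_apply _ MeasurableSet.univ, Measure.restrict_univ]
  unfold gd
  simp_rw [ENNReal.ofReal_mul (show 0 ≤ ((Real.sqrt (2 * Real.pi))⁻¹) ^ (Module.finrank ℝ V) by positivity)]
  rw [lintegral_const_mul _ (by fun_prop), lintegral_gauss _ (by norm_num), ← ENNReal.ofReal_mul (by positivity),
    ← mul_pow]
  have h1 : Real.pi / (1 / 2) = 2 * Real.pi := by ring
  rw [h1, inv_mul_cancel₀ (by positivity), one_pow, ENNReal.ofReal_one]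

lemma gam_charFun (t : V) : charFun (gam V) t = Complex.exp (-((‖t‖ : ℂ) ^ 2 / 2)) := by
  rw [charFun_apply]
  unfold gam
  rw [integral_withDensity_eq_integral_toReal_smul (by
    exact (gd_cont.measurable.ennreal_ofReal)) (Filter.Eventually.of_forall fun x => ENNReal.ofReal_lt_top)]
  have h1 : ∀ x : V, (ENNReal.ofReal (gd x)).toReal • Complex.exp (⟪x, t⟫ * Complex.I) =
      (((Real.sqrt (2 * Real.pi))⁻¹ ^ (Module.finrank ℝ V) : ℝ) : ℂ) *
        Complex.exp (-(1 / 2 : ℂ) * (‖x‖ : ℂ) ^ 2 + Complex.I * ⟪t, x⟫) := by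
    intro x
    rw [ENNReal.toReal_ofReal (gd_nonneg x), Complex.exp_add, real_inner_comm t x, mul_comm Complex.I]
    unfold gd
    rw [Complex.real_smul]
    push_cast
    ring
  simp_rw [h1]
  rw [integral_const_mul, GaussianFourier.integral_cexp_neg_mul_sq_norm_add (by norm_num)]
  have h2 : ((Real.pi : ℂ) / (1 / 2)) ^ ((Module.finrank ℝ V : ℂ) / 2) =
      (((Real.sqrt (2 * Real.pi)) ^ Module.finrank ℝ V : ℝ) : ℂ) := by
    have h3 := two_pi_rpow (Module.finrank ℝ V) (1 / 2) (by norm_num)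
    have h4 : Real.pi / (1 / 2) = 2 * Real.pi := by ring
    rw [h4] at h3
    rw [← h3, Complex.ofReal_cpow (by positivity)]
    congr 1
    · push_cast; ring
    · push_cast; ring
  rw [h2, ← mul_assoc, ← Complex.ofReal_mul, ← mul_pow, inv_mul_cancel₀ (by positivity), one_pow,
    Complex.ofReal_one, one_mul]
  congr 1
  rw [Complex.I_sq]
  ring

lemma gam_le (A : Set V) (hA : MeasurableSet A) :
    gam V A ≤ ENNReal.ofReal ((Real.sqrt (2 * Real.pi))⁻¹ ^ Module.finrank ℝ V) * volume A := by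
  unfold gam
  rw [withDensity_apply _ hA, ← setLIntegral_const]
  refine setLIntegral_mono' hA fun x _ => ENNReal.ofReal_le_ofReal ?_
  unfold gd
  have h1 : Real.exp (-(1 / 2) * ‖x‖ ^ 2) ≤ 1 := Real.exp_le_one_iff.2 (by nlinarith [sq_nonneg ‖x‖])
  have h2 : 0 ≤ (Real.sqrt (2 * Real.pi))⁻¹ ^ Module.finrank ℝ V := by positivity
  nlinarith

/-- the law of a linear image under a map `f` with `‖f† t‖ = ‖t‖` -/
theorem map_gam {W : Type*} [NormedAddCommGroup W] [InnerProductSpace ℝ W] [FiniteDimensional ℝ W]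
    [MeasurableSpace W] [BorelSpace W] (f : V →L[ℝ] W) (g : W → V)
    (hfg : ∀ x t, ⟪f x, t⟫ = ⟪x, g t⟫) (hg : ∀ t, ‖g t‖ = ‖t‖) :
    (gam V).map f = gam W := by
  have := Measure.isProbabilityMeasure_map (μ := gam V) (f := f) f.continuous.measurable.aemeasurable
  refine Measure.ext_of_charFun (funext fun t => ?_)
  rw [gam_charFun, charFun_apply, integral_map f.continuous.measurable.aemeasurable (by fun_prop)]
  simp_rw [hfg]
  rw [← charFun_apply, gam_charFun, hg]

theorem Gam_pow_le (p : ℕ) (t : ℝ) :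
    t ^ p ≤ (1 + 4 ^ p * (p.factorial : ℝ)) * Real.exp ((1 / 4) * t ^ 2) := by
  have h1 : t ^ p ≤ 1 + (t ^ 2) ^ p := by
    rw [← pow_mul, mul_comm, pow_mul]
    nlinarith [sq_nonneg (t ^ p - 1), sq_nonneg (t ^ p)]
  have h2 : ((1 / 4) * t ^ 2) ^ p / (p.factorial : ℝ) ≤ Real.exp ((1 / 4) * t ^ 2) :=
    Real.pow_div_factorial_le_exp _ (by positivity) p
  have h3 : (0 : ℝ) < p.factorial := by exact_mod_cast p.factorial_pos
  rw [div_le_iff₀ h3, mul_pow, one_div, inv_pow] at h2
  have h4 : (t ^ 2) ^ p ≤ 4 ^ p * (Real.exp ((1 / 4) * t ^ 2) * p.factorial) := by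
    rw [inv_mul_le_iff₀ (by positivity)] at h2
    rw [one_div]
    exact h2
  have h5 : 1 ≤ Real.exp ((1 / 4) * t ^ 2) := Real.one_le_exp (by positivity)
  nlinarith

/-- Gaussian moments are finite -/
theorem integrable_norm_pow (p : ℕ) : Integrable (fun x : V => ‖x‖ ^ p) (gam V) := by
  unfold gam
  rw [integrable_withDensity_iff gd_cont.measurable.ennreal_ofReal
    (Filter.Eventually.of_forall fun x => ENNReal.ofReal_lt_top)]
  set c := ((Real.sqrt (2 * Real.pi))⁻¹) ^ (Module.finrank ℝ V) with hc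
  have hc0 : 0 ≤ c := by positivity
  refine ((integrable_gauss (V := V) (1 / 4) (by norm_num)).const_mul
    (c * (1 + 4 ^ p * (p.factorial : ℝ)))).mono' (Continuous.aestronglyMeasurable ?_)
    (Filter.Eventually.of_forall fun x => ?_)
  · have h1 : (fun x : V => ‖x‖ ^ p * (ENNReal.ofReal (gd x)).toReal) = fun x => ‖x‖ ^ p * gd x := by
      funext x
      rw [ENNReal.toReal_ofReal (gd_nonneg x)]
    rw [h1]
    exact (continuous_norm.pow p).mul gd_cont
  · rw [ENNReal.toReal_ofReal (gd_nonneg x), Real.norm_of_nonneg (mul_nonneg (by positivity)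
      (gd_nonneg x)), gd, ← hc]
    have h1 := Gam_pow_le p ‖x‖
    have h2 : Real.exp ((1 / 4) * ‖x‖ ^ 2) * Real.exp (-(1 / 2) * ‖x‖ ^ 2) =
        Real.exp (-(1 / 4) * ‖x‖ ^ 2) := by
      rw [← Real.exp_add]
      congr 1
      ring
    calc ‖x‖ ^ p * (c * Real.exp (-(1 / 2) * ‖x‖ ^ 2))
        ≤ ((1 + 4 ^ p * (p.factorial : ℝ)) * Real.exp ((1 / 4) * ‖x‖ ^ 2)) *
          (c * Real.exp (-(1 / 2) * ‖x‖ ^ 2)) :=
          mul_le_mul_of_nonneg_right h1 (mul_nonneg hc0 (Real.exp_pos _).le)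
      _ = c * (1 + 4 ^ p * (p.factorial : ℝ)) *
          (Real.exp ((1 / 4) * ‖x‖ ^ 2) * Real.exp (-(1 / 2) * ‖x‖ ^ 2)) := by ring
      _ = _ := by rw [h2]

/-- moments of a one dimensional marginal are bounded by a constant depending on `p` only -/
theorem marginal_moment (p : ℕ) : ∃ c : ℝ, 0 < c ∧ ∀ (V : Type) [NormedAddCommGroup V] [InnerProductSpace ℝ V]
    [FiniteDimensional ℝ V] [MeasurableSpace V] [BorelSpace V] (e : V), ‖e‖ = 1 →
    Integrable (fun x : V => |⟪x, e⟫| ^ p) (gam V) ∧ ∫ x, |⟪x, e⟫| ^ p ∂(gam V) ≤ c := by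
  refine ⟨(∫ t : ℝ, ‖t‖ ^ p ∂(gam ℝ)) + 1, ?_, ?_⟩
  · have : 0 ≤ ∫ t : ℝ, ‖t‖ ^ p ∂(gam ℝ) := integral_nonneg fun t => by positivity
    linarith
  · intro V _ _ _ _ _ e he
    have hm := map_gam (V := V) (W := ℝ) (innerSL ℝ e) (fun t => t • e)
      (fun x t => by
        rw [innerSL_apply_apply, inner_smul_right, real_inner_comm]
        simp [real_inner_comm]
        ring)
      (fun t => by rw [norm_smul, he, mul_one])
    have hi := integrable_norm_pow (V := ℝ) p
    rw [← hm] at hi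
    have hi2 := hi.comp_measurable (innerSL ℝ e).continuous.measurable
    have e1 : ((fun x : ℝ => ‖x‖ ^ p) ∘ fun x => (innerSL ℝ e) x) =
        fun x : V => |⟪x, e⟫| ^ p := by
      funext x
      rw [Function.comp_apply, innerSL_apply_apply, Real.norm_eq_abs, real_inner_comm]
    refine ⟨?_, ?_⟩
    · rw [← e1]; exact hi2
    · have h2 : ∫ t : ℝ, ‖t‖ ^ p ∂(gam ℝ) = ∫ x, |⟪x, e⟫| ^ p ∂(gam V) := by
        rw [← hm, integral_map (innerSL ℝ e).continuous.measurable.aemeasurable
          (by fun_prop)]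
        refine integral_congr_ae (Filter.Eventually.of_forall fun x => ?_)
        simp only [innerSL_apply_apply, Real.norm_eq_abs]
        rw [real_inner_comm]
      linarith

end H890
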