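import Pool.Agent.H890R2.RM.CUBE

set_option autoImplicit false
open MeasureTheory
open scoped ENNReal Pointwise RealInnerProductSpace Topology

/-! K-convexity with polynomially small loss. -/

namespace H890

section
variable {V : Type*} [NormedAddCommGroup V] [InnerProductSpace ℝ V]

theorem KC_zero_int {K : Set V} (hK : Body K) : (0 : V) ∈ interior K := by
  obtain ⟨z, hz⟩ := hK.int
  have h1 : (1 / 2 : ℝ) • z + (1 / 2 : ℝ) • (-z) ∈ interior K :=
    hK.conv.combo_interior_self_mem_interior hz (hK.symm z (interior_subset hz))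
      (by norm_num) (by norm_num) (by norm_num)
  simpa using h1

theorem KC_nhds {K : Set V} (hK : Body K) : K ∈ 𝓝 (0 : V) :=
  mem_interior_iff_mem_nhds.1 (KC_zero_int hK)

theorem KC_abs {K : Set V} (hK : Body K) : Absorbent ℝ K :=
  absorbent_nhds_zero (KC_nhds hK)

theorem KC_gauge_smul {K : Set V} (hK : Body K) (c : ℝ) (x : V) :
    gauge K (c • x) = |c| * gauge K x := by
  rcases le_total 0 c with h | h
  · rw [abs_of_nonneg h, gauge_smul_of_nonneg h, smul_eq_mul]
  · rw [abs_of_nonpos h, ← neg_neg (c • x), ← neg_smul, gauge_neg hK.symm,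
      gauge_smul_of_nonneg (by linarith), smul_eq_mul]

/-- gauge of a combination of points of `K` -/
theorem KC_gauge_sum {K : Set V} (hK : Body K) {ι : Type*} (s : Finset ι) (a : ι → ℝ) (x : ι → V)
    (hx : ∀ i ∈ s, x i ∈ K) : gauge K (∑ i ∈ s, a i • x i) ≤ ∑ i ∈ s, |a i| := by
  refine (gauge_sum_le hK.conv (KC_abs hK) s _).trans (Finset.sum_le_sum fun i hi => ?_)
  rw [KC_gauge_smul hK]
  have h1 := gauge_le_one_of_mem (hx i hi)
  have h2 := abs_nonneg (a i)
  nlinarith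

end

/-- Auerbach type lemma -/
theorem auer {V : Type*} [NormedAddCommGroup V] [InnerProductSpace ℝ V] [FiniteDimensional ℝ V]
    {d : ℕ} (hd : Module.finrank ℝ V = d) {K : Set V} (hK : Body K) :
    ∃ f : Fin d → (V →ₗ[ℝ] ℝ), (∀ i, ∀ x ∈ K, |f i x| ≤ 1) ∧ ∀ x, gauge K x ≤ ∑ i, |f i x| := by
  classical
  let b : Module.Basis (Fin d) ℝ V := Module.finBasisOfFinrankEq ℝ V hd
  have hcont : Continuous (fun v : Fin d → V => |b.det v|) := by
    have h1 : Continuous (fun v : Fin d → V => b.det v) := by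
      have h2 : (fun v : Fin d → V => b.det v) = fun v => (b.toMatrix v).det := by
        ext v; rw [Module.Basis.det_apply]
      rw [h2]
      refine Continuous.matrix_det ?_
      refine continuous_pi fun i => continuous_pi fun j => ?_
      have h3 : Continuous (fun x : V => b.repr x i) := by
        have := (b.coord i).continuous_of_finiteDimensional
        exact this
      exact h3.comp (continuous_apply j)
    exact h1.abs
  have hcomp : IsCompact (Set.univ.pi (fun _ : Fin d => K)) := isCompact_univ_pi fun _ => hK.comp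
  have h0K : (0 : V) ∈ K := interior_subset (KC_zero_int hK)
  obtain ⟨v, hv, hmax⟩ := hcomp.exists_isMaxOn ⟨fun _ => 0, fun _ _ => h0K⟩ hcont.continuousOn
  have hvK : ∀ i, v i ∈ K := fun i => hv i (Set.mem_univ i)
  -- a tuple of nonzero determinant
  have hw : ∃ c : ℝ, 0 < c ∧ ∀ i, c • b i ∈ K := by
    have h1 : ∀ᶠ c : ℝ in 𝓝[>] 0, ∀ i, c • b i ∈ K := by
      refine Filter.eventually_all.2 fun i => ?_
      have h2 : Filter.Tendsto (fun c : ℝ => c • b i) (𝓝[>] 0) (𝓝 0) := by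
        have h3 : Continuous (fun c : ℝ => c • b i) := by fun_prop
        have h4 := (h3.tendsto 0).mono_left (nhdsWithin_le_nhds (s := Set.Ioi 0))
        simpa using h4
      exact h2.eventually (KC_nhds hK)
    obtain ⟨c, hc1, hc2⟩ := (h1.and self_mem_nhdsWithin).exists
    exact ⟨c, hc2, hc1⟩
  obtain ⟨c, hc0, hc⟩ := hw
  have hdetw : b.det (fun i => c • b i) = c ^ d := by
    have h1 := b.det.toMultilinearMap.map_smul_univ (fun _ : Fin d => c) (fun i => b i)
    have h2 : b.det.toMultilinearMap (fun i => b i) = 1 := b.det_self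
    rw [h2] at h1
    simpa using h1
  have hv0 : 0 < |b.det v| := by
    have h1 : |b.det (fun i => c • b i)| ≤ |b.det v| := hmax (fun i _ => hc i)
    rw [hdetw] at h1
    have h2 : 0 < |c ^ d| := by positivity
    linarith
  have hvne : b.det v ≠ 0 := abs_pos.1 hv0
  obtain ⟨hvli, hvspan⟩ := (Module.Basis.is_basis_iff_det b).mpr (isUnit_iff_ne_zero.2 hvne)
  let e : Module.Basis (Fin d) ℝ V := Module.Basis.mk hvli hvspan.ge
  have hsum : ∀ x, x = ∑ i, e.repr x i • v i := by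
    intro x
    conv_lhs => rw [← e.sum_repr x]
    simp [e]
  refine ⟨fun i => e.coord i, fun i x hx => ?_, fun x => ?_⟩
  · have hdet : b.det (Function.update v i x) = e.repr x i * b.det v := by
      conv_lhs => rw [hsum x]
      rw [← AlternatingMap.coe_multilinearMap, MultilinearMap.map_update_sum]
      rw [Finset.sum_eq_single i]
      · rw [MultilinearMap.map_update_smul, Function.update_eq_self, smul_eq_mul]
      · intro j _ hji
        rw [MultilinearMap.map_update_smul, AlternatingMap.coe_multilinearMap,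
          AlternatingMap.map_update_self _ _ hji.symm, smul_zero]
      · intro h; exact absurd (Finset.mem_univ i) h
    have hmem : Function.update v i x ∈ Set.univ.pi (fun _ : Fin d => K) := by
      intro j _
      by_cases hj : j = i
      · subst hj; simpa using hx
      · rw [Function.update_of_ne hj]; exact hvK j
    have h1 : |b.det (Function.update v i x)| ≤ |b.det v| := hmax hmem
    rw [hdet, abs_mul] at h1
    have h2 : |e.repr x i| ≤ 1 := le_of_mul_le_mul_right (by linarith) hv0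
    exact h2
  · conv_lhs => rw [hsum x]
    exact KC_gauge_sum hK Finset.univ _ _ fun i _ => hvK i

theorem KC_avg_mono {d : ℕ} {f g : (Fin d → Bool) → ℝ} (h : ∀ ε, f ε ≤ g ε) : avg f ≤ avg g := by
  unfold avg
  exact mul_le_mul_of_nonneg_left (Finset.sum_le_sum fun ε _ => h ε) (by positivity)

theorem KC_avg_add {d : ℕ} (f g : (Fin d → Bool) → ℝ) :
    avg (fun ε => f ε + g ε) = avg f + avg g := by
  unfold avg
  rw [Finset.sum_add_distrib, mul_add]

theorem KC_avg_mul {d : ℕ} (c : ℝ) (f : (Fin d → Bool) → ℝ) :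
    avg (fun ε => c * f ε) = c * avg f := by
  unfold avg
  rw [← Finset.mul_sum]
  ring

theorem KC_avg_const {d : ℕ} (c : ℝ) : avg (fun _ : Fin d → Bool => c) = c := by
  unfold avg
  rw [Finset.sum_const, Finset.card_univ, Fintype.card_fun, Fintype.card_bool, Fintype.card_fin,
    nsmul_eq_mul]
  push_cast
  field_simp

theorem KC_avg_sum {d : ℕ} {ι : Type*} (s : Finset ι) (f : ι → (Fin d → Bool) → ℝ) :
    avg (fun ε => ∑ i ∈ s, f i ε) = ∑ i ∈ s, avg (f i) := by
  unfold avg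
  rw [Finset.sum_comm, Finset.mul_sum]

theorem KC_core (p : ℕ) (hp : 2 ≤ p) (e : ℝ) (he : 0 < e) (he1 : e ≤ 1) :
    ∃ C : ℝ, 0 < C ∧ ∀ N : ℕ, 1 ≤ N →
    ∀ (V : Type) [NormedAddCommGroup V] [InnerProductSpace ℝ V] [FiniteDimensional ℝ V] (d : ℕ),
    Module.finrank ℝ V = d → 1 ≤ d → d ≤ N → ∀ K : Set V, Body K → ∀ f : (Fin d → Bool) → V,
    (∀ ε, f ε ∈ K) → avg (fun ε' => gauge K (rad f ε') ^ p) ≤ C * (N : ℝ) ^ (e * p) := by
  obtain ⟨m, hm⟩ := exists_nat_ge (((p : ℝ) + 1) / e)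
  have hm2 : (p : ℝ) + 1 ≤ e * m := by
    rw [div_le_iff₀ he] at hm
    linarith
  have hm1 : 1 ≤ m := by
    rcases Nat.eq_zero_or_pos m with h | h
    · subst h
      simp only [Nat.cast_zero, mul_zero] at hm2
      have : (0 : ℝ) ≤ p := Nat.cast_nonneg p
      linarith
    · exact h
  obtain ⟨C, hC, hnodes⟩ := nodes m hm1
  refine ⟨2 ^ p * (C + 1) ^ p, by positivity, fun N hN V _ _ _ d hd hd1 hdN K hK f hf => ?_⟩
  have hN1 : (1 : ℝ) ≤ N := by exact_mod_cast hN
  have hN0 : (0 : ℝ) < N := by linarith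
  have hNe : (N : ℝ) ^ e ≤ N := by
    calc (N : ℝ) ^ e ≤ (N : ℝ) ^ (1 : ℝ) := Real.rpow_le_rpow_of_exponent_le hN1 he1
      _ = N := Real.rpow_one _
  have hNe1 : 1 ≤ (N : ℝ) ^ e := Real.one_le_rpow hN1 he.le
  obtain ⟨c, t, ht, hmom, hcs⟩ := hnodes ((N : ℝ) ^ (-e)) (by positivity)
    (Real.rpow_le_one_of_one_le_of_nonpos hN1 (by linarith))
  have hcs' : ∑ l, |c l| ≤ C * (N : ℝ) ^ e := by
    refine hcs.trans (le_of_eq ?_)
    rw [Real.rpow_neg hN0.le, div_inv_eq_mul]
  have ht1 : ∀ l, |t l| ≤ 1 := fun l => (ht l).trans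
    (Real.rpow_le_one_of_one_le_of_nonpos hN1 (by linarith))
  set Q : (Fin d → Bool) → V := fun ε' => ∑ l, c l • noise (t l) f ε' with hQ
  set R : (Fin d → Bool) → V := fun ε' => rad f ε' - Q ε' with hR
  have habs := KC_abs hK
  have hgQ : ∀ ε', gauge K (Q ε') ≤ C * (N : ℝ) ^ e := fun ε' =>
    (KC_gauge_sum hK Finset.univ c _ fun l _ => noise_mem hK.conv f hf (ht1 l) ε').trans hcs'
  have hgrad : ∀ ε', gauge K (rad f ε') ≤ N := by
    intro ε'
    unfold rad
    refine (KC_gauge_sum hK Finset.univ _ _ fun ε _ => hf ε).trans ?_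
    have hsg : ∀ b : Bool, |sg b| = 1 := by intro b; cases b <;> simp [sg]
    have h1 : ∀ ε : Fin d → Bool, |(2 ^ d : ℝ)⁻¹ * ∑ i, sg (ε i) * sg (ε' i)| ≤ (2 ^ d : ℝ)⁻¹ * d := by
      intro ε
      rw [abs_mul, abs_of_pos (show (0 : ℝ) < (2 ^ d : ℝ)⁻¹ by positivity)]
      gcongr
      calc |∑ i, sg (ε i) * sg (ε' i)| ≤ ∑ i, |sg (ε i) * sg (ε' i)| := Finset.abs_sum_le_sum_abs _ _
        _ = ∑ _i : Fin d, (1 : ℝ) := by
            refine Finset.sum_congr rfl fun i _ => ?_
            rw [abs_mul, hsg, hsg, one_mul]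
        _ = d := by simp
    calc ∑ ε : Fin d → Bool, |(2 ^ d : ℝ)⁻¹ * ∑ i, sg (ε i) * sg (ε' i)|
        ≤ ∑ _ε : Fin d → Bool, (2 ^ d : ℝ)⁻¹ * d := Finset.sum_le_sum fun ε _ => h1 ε
      _ = d := by
          rw [Finset.sum_const, Finset.card_univ, Fintype.card_fun, Fintype.card_bool,
            Fintype.card_fin, nsmul_eq_mul]
          push_cast
          field_simp
      _ ≤ N := by exact_mod_cast hdN
  have hgR : ∀ ε', gauge K (R ε') ≤ (C + 1) * N := by
    intro ε'
    have h1 : gauge K (R ε') ≤ gauge K (rad f ε') + gauge K (-(Q ε')) := by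
      rw [hR]
      simp only
      rw [sub_eq_add_neg]
      exact gauge_add_le hK.conv habs _ _
    rw [gauge_neg hK.symm] at h1
    have h2 := hgQ ε'
    have h3 := hgrad ε'
    have h4 : C * (N : ℝ) ^ e ≤ C * N := by gcongr
    linarith
  -- second moment of the remainder
  obtain ⟨g, hg1, hg2⟩ := auer hd hK
  set α : ℝ := C * (N : ℝ) ^ e * ((N : ℝ) ^ (-e)) ^ (m + 1) with hα
  have hα0 : 0 ≤ α := by positivity
  have hθ1 : (N : ℝ) ^ (-e) ≤ 1 := Real.rpow_le_one_of_one_le_of_nonpos hN1 (by linarith)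
  have hθ0 : 0 < (N : ℝ) ^ (-e) := by positivity
  have htail : ∀ k, m < k → |∑ l, c l * t l ^ k| ≤ α := by
    intro k hk
    calc |∑ l, c l * t l ^ k| ≤ ∑ l, |c l * t l ^ k| := Finset.abs_sum_le_sum_abs _ _
      _ ≤ ∑ l, |c l| * ((N : ℝ) ^ (-e)) ^ (m + 1) := by
          refine Finset.sum_le_sum fun l _ => ?_
          rw [abs_mul, abs_pow]
          gcongr
          calc |t l| ^ k ≤ |t l| ^ (m + 1) := pow_le_pow_of_le_one (abs_nonneg _) (ht1 l) hk
            _ ≤ ((N : ℝ) ^ (-e)) ^ (m + 1) := pow_le_pow_left₀ (abs_nonneg _) (ht l) _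
      _ = (∑ l, |c l|) * ((N : ℝ) ^ (-e)) ^ (m + 1) := by rw [Finset.sum_mul]
      _ ≤ α := by rw [hα]; gcongr
  have hαle : α ≤ C * (N : ℝ) ^ (-(e * m)) := by
    rw [hα, mul_assoc, ← Real.rpow_natCast, ← Real.rpow_mul hN0.le, ← Real.rpow_add hN0]
    refine mul_le_mul_of_nonneg_left (le_of_eq ?_) hC.le
    congr 1
    push_cast
    ring
  have hsecond : ∀ i, avg (fun ε' => (g i (R ε')) ^ 2) ≤ α ^ 2 := by
    intro i
    have h1 := walsh_tail hm1 c t hmom α htail (fun ε => g i (f ε))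
    have h2 : ∀ ε', g i (R ε') = -(∑ l, c l * noise (t l) (fun ε => g i (f ε)) ε' -
        rad (fun ε => g i (f ε)) ε') := by
      intro ε'
      rw [hR]
      simp only
      rw [map_sub, map_rad, hQ]
      simp only
      rw [map_sum]
      have h3 : ∀ l, g i (c l • noise (t l) f ε') = c l * noise (t l) (fun ε => g i (f ε)) ε' := by
        intro l
        rw [map_smul, smul_eq_mul, map_noise]
      rw [Finset.sum_congr rfl fun l _ => h3 l]
      ring
    have h4 : (fun ε' => (g i (R ε')) ^ 2) = fun ε' => (∑ l, c l * noise (t l) (fun ε => g i (f ε)) ε' -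
        rad (fun ε => g i (f ε)) ε') ^ 2 := by
      ext ε'
      rw [h2 ε', neg_sq]
    rw [h4]
    refine h1.trans ?_
    have h5 : avg (fun ε => (g i (f ε)) ^ 2) ≤ 1 := by
      calc avg (fun ε => (g i (f ε)) ^ 2) ≤ avg (fun _ : Fin d → Bool => (1 : ℝ)) := by
            refine KC_avg_mono fun ε => ?_
            have := hg1 i (f ε) (hf ε)
            exact (sq_le_one_iff_abs_le_one _).2 this
        _ = 1 := KC_avg_const 1
    have h6 : 0 ≤ α ^ 2 := by positivity
    nlinarith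
  have hR2 : avg (fun ε' => gauge K (R ε') ^ 2) ≤ (d : ℝ) ^ 2 * α ^ 2 := by
    calc avg (fun ε' => gauge K (R ε') ^ 2)
        ≤ avg (fun ε' => (d : ℝ) * ∑ i, (g i (R ε')) ^ 2) := by
          refine KC_avg_mono fun ε' => ?_
          calc gauge K (R ε') ^ 2 ≤ (∑ i, |g i (R ε')|) ^ 2 :=
                pow_le_pow_left₀ (gauge_nonneg _) (hg2 _) 2
            _ ≤ (Finset.univ : Finset (Fin d)).card * ∑ i, |g i (R ε')| ^ 2 := sq_sum_le_card_mul_sum_sq
            _ = (d : ℝ) * ∑ i, (g i (R ε')) ^ 2 := by simp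
      _ = (d : ℝ) * ∑ i, avg (fun ε' => (g i (R ε')) ^ 2) := by
          rw [KC_avg_mul, KC_avg_sum]
      _ ≤ (d : ℝ) * ∑ _i : Fin d, α ^ 2 := by
          gcongr with i _
          exact hsecond i
      _ = (d : ℝ) ^ 2 * α ^ 2 := by
          rw [Finset.sum_const, Finset.card_univ, Fintype.card_fin, nsmul_eq_mul]
          ring
  have hRp : avg (fun ε' => gauge K (R ε') ^ p) ≤ (C + 1) ^ p := by
    have hp2 : p - 2 + 2 = p := by omega
    calc avg (fun ε' => gauge K (R ε') ^ p)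
        ≤ avg (fun ε' => ((C + 1) * N) ^ (p - 2) * gauge K (R ε') ^ 2) := by
          refine KC_avg_mono fun ε' => ?_
          calc gauge K (R ε') ^ p = gauge K (R ε') ^ (p - 2) * gauge K (R ε') ^ 2 := by
                rw [← pow_add, hp2]
            _ ≤ ((C + 1) * N) ^ (p - 2) * gauge K (R ε') ^ 2 := by
                gcongr
                · exact gauge_nonneg _
                · exact hgR ε'
      _ = ((C + 1) * N) ^ (p - 2) * avg (fun ε' => gauge K (R ε') ^ 2) := KC_avg_mul _ _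
      _ ≤ ((C + 1) * N) ^ (p - 2) * ((d : ℝ) ^ 2 * α ^ 2) := by gcongr
      _ ≤ ((C + 1) * N) ^ (p - 2) * ((N : ℝ) ^ 2 * (C * (N : ℝ) ^ (-(e * m))) ^ 2) := by gcongr
      _ ≤ ((C + 1) * N) ^ (p - 2) * ((N : ℝ) ^ 2 * ((C + 1) * (N : ℝ) ^ (-(e * m))) ^ 2) := by
          gcongr; linarith
      _ = (C + 1) ^ (p - 2 + 2) * ((N : ℝ) ^ (p - 2 + 2) * ((N : ℝ) ^ (-(e * m))) ^ 2) := by
          rw [pow_add, pow_add, mul_pow, mul_pow]; ring
      _ = (C + 1) ^ p * ((N : ℝ) ^ p * ((N : ℝ) ^ (-(e * m))) ^ 2) := by rw [hp2]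
      _ ≤ (C + 1) ^ p * 1 := by
          refine mul_le_mul_of_nonneg_left ?_ (by positivity)
          rw [← Real.rpow_natCast, ← Real.rpow_natCast, ← Real.rpow_mul hN0.le, ← Real.rpow_add hN0]
          refine Real.rpow_le_one_of_one_le_of_nonpos hN1 ?_
          push_cast
          nlinarith [Nat.cast_nonneg (α := ℝ) p]
      _ = (C + 1) ^ p := mul_one _
  have hQp : avg (fun ε' => gauge K (Q ε') ^ p) ≤ (C * (N : ℝ) ^ e) ^ p := by
    calc avg (fun ε' => gauge K (Q ε') ^ p) ≤ avg (fun _ : Fin d → Bool => (C * (N : ℝ) ^ e) ^ p) :=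
          KC_avg_mono fun ε' => pow_le_pow_left₀ (gauge_nonneg _) (hgQ ε') p
      _ = _ := KC_avg_const _
  have hNep : ((N : ℝ) ^ e) ^ p = (N : ℝ) ^ (e * p) := by
    rw [← Real.rpow_natCast, ← Real.rpow_mul hN0.le]
  have hNep1 : 1 ≤ (N : ℝ) ^ (e * p) := by rw [← hNep]; exact one_le_pow₀ hNe1
  calc avg (fun ε' => gauge K (rad f ε') ^ p)
      ≤ avg (fun ε' => 2 ^ (p - 1) * (gauge K (Q ε') ^ p + gauge K (R ε') ^ p)) := by
        refine KC_avg_mono fun ε' => ?_
        have h1 : rad f ε' = Q ε' + R ε' := by rw [hR]; simp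
        rw [h1]
        calc gauge K (Q ε' + R ε') ^ p ≤ (gauge K (Q ε') + gauge K (R ε')) ^ p :=
              pow_le_pow_left₀ (gauge_nonneg _) (gauge_add_le hK.conv habs _ _) p
          _ ≤ _ := add_pow_le (gauge_nonneg _) (gauge_nonneg _) p
    _ = 2 ^ (p - 1) * (avg (fun ε' => gauge K (Q ε') ^ p) + avg (fun ε' => gauge K (R ε') ^ p)) := by
        rw [KC_avg_mul, KC_avg_add]
    _ ≤ 2 ^ (p - 1) * ((C * (N : ℝ) ^ e) ^ p + (C + 1) ^ p) := by gcongr
    _ ≤ 2 ^ (p - 1) * ((C + 1) ^ p * (N : ℝ) ^ (e * p) + (C + 1) ^ p * (N : ℝ) ^ (e * p)) := by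
        have h1 : (C * (N : ℝ) ^ e) ^ p ≤ (C + 1) ^ p * (N : ℝ) ^ (e * p) := by
          rw [mul_pow, hNep]
          gcongr
          linarith
        have h2 : (C + 1) ^ p ≤ (C + 1) ^ p * (N : ℝ) ^ (e * p) := by
          have : 0 < (C + 1) ^ p := by positivity
          nlinarith
        gcongr
    _ = 2 ^ (p - 1 + 1) * (C + 1) ^ p * (N : ℝ) ^ (e * p) := by rw [pow_succ]; ring
    _ = 2 ^ p * (C + 1) ^ p * (N : ℝ) ^ (e * p) := by
        have : p - 1 + 1 = p := by omega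
        rw [this]

theorem kc (p : ℕ) (hp : 2 ≤ p) (e : ℝ) (he : 0 < e) : ∃ C : ℝ, 0 < C ∧ ∀ N : ℕ, 1 ≤ N →
    ∀ (V : Type) [NormedAddCommGroup V] [InnerProductSpace ℝ V] [FiniteDimensional ℝ V] (d : ℕ),
    Module.finrank ℝ V = d → 1 ≤ d → d ≤ N → ∀ K : Set V, Body K → ∀ f : (Fin d → Bool) → V,
    (∀ ε, f ε ∈ K) → avg (fun ε' => gauge K (rad f ε') ^ p) ≤ C * (N : ℝ) ^ (e * p) := by
  obtain ⟨C, hC, h⟩ := KC_core p hp (min e 1) (lt_min he one_pos) (min_le_right _ _)
  refine ⟨C, hC, fun N hN V _ _ _ d hd hd1 hdN K hK f hf => ?_⟩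
  refine (h N hN V d hd hd1 hdN K hK f hf).trans ?_
  have hN1 : (1 : ℝ) ≤ N := by exact_mod_cast hN
  refine mul_le_mul_of_nonneg_left ?_ hC.le
  refine Real.rpow_le_rpow_of_exponent_le hN1 ?_
  exact mul_le_mul_of_nonneg_right (min_le_left _ _) (Nat.cast_nonneg p)

end H890
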