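import Pool.Agent.H890R2.RM.EXT

set_option autoImplicit false
open MeasureTheory
open scoped ENNReal Pointwise RealInnerProductSpace

/-! Splitting inequality for the functional. -/

namespace H890

/-- the orthogonal projection onto a subspace maps the Gaussian measure to the Gaussian measure -/
theorem SPLIT_map_proj {V : Type*} [NormedAddCommGroup V] [InnerProductSpace ℝ V] [FiniteDimensional ℝ V]
    [MeasurableSpace V] [BorelSpace V] (U : Submodule ℝ V) :
    (gam V).map (U.orthogonalProjectionOnto : V →L[ℝ] U) = gam U := by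
  refine map_gam (U.orthogonalProjectionOnto : V →L[ℝ] U) (fun t => (t : V)) (fun x t => ?_)
    (fun t => rfl)
  exact (Submodule.inner_orthogonalProjectionOnto_eq_of_mem_right t x)

theorem SPLIT_integral {V : Type*} [NormedAddCommGroup V] [InnerProductSpace ℝ V] [FiniteDimensional ℝ V]
    [MeasurableSpace V] [BorelSpace V] {r : ℝ} (hr : 0 < r) (U : Submodule ℝ V) {M : AddSubgroup U}
    (hM : Sep r M) (p : ℕ) :
    Integrable (fun x : V => vn M ((U.orthogonalProjectionOnto : V →L[ℝ] U) x) ^ p) (gam V) ∧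
      ∫ x : V, vn M ((U.orthogonalProjectionOnto : V →L[ℝ] U) x) ^ p ∂(gam V) = FF p M := by
  have hm := SPLIT_map_proj U
  have hi := FF_integrable hr hM p
  have hmeas : AEMeasurable (U.orthogonalProjectionOnto : V →L[ℝ] U) (gam V) :=
    (U.orthogonalProjectionOnto : V →L[ℝ] U).continuous.measurable.aemeasurable
  have hc : Continuous (fun u : U => vn M u ^ p) := (vn_cont hr hM).pow p
  constructor
  · rw [← hm] at hi
    exact hi.comp_aemeasurable hmeas
  · unfold FF
    rw [← hm, integral_map hmeas hc.aestronglyMeasurable]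

theorem FF_split {V : Type*} [NormedAddCommGroup V] [InnerProductSpace ℝ V] [FiniteDimensional ℝ V]
    [MeasurableSpace V] [BorelSpace V] {r : ℝ} (hr : 0 < r) {L : AddSubgroup V} (hL : Sep r L)
    (U : Submodule ℝ V) (hq : Sep r (quoL U L)) (p : ℕ) (hp : 1 ≤ p) :
    FF p L ≤ FF p (secL U L) + FF p (quoL U L) := by
  have hs : Sep r (secL U L) := by
    intro y hy h0
    have h1 : (y : V) ∈ L := hy
    have h2 : (y : V) ≠ 0 := fun h => h0 (Subtype.ext h)
    exact hL y h1 h2
  obtain ⟨i1, e1⟩ := SPLIT_integral hr U hs p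
  obtain ⟨i2, e2⟩ := SPLIT_integral hr Uᗮ hq p
  have hle := FF_le hr hL p hp (fun x => max (vn (secL U L) ((U.orthogonalProjectionOnto : V →L[ℝ] U) x))
      (vn (quoL U L) ((Uᗮ.orthogonalProjectionOnto : V →L[ℝ] Uᗮ) x)))
      (((vn_cont hr hs).comp (U.orthogonalProjectionOnto : V →L[ℝ] U).continuous).max
        ((vn_cont hr hq).comp (Uᗮ.orthogonalProjectionOnto : V →L[ℝ] Uᗮ).continuous))
      (fun x => le_max_of_le_left (vn_nonneg hr hs _))
      (fun c x hc => by
        simp only [map_smul, vn_smul hr hs, vn_smul hr hq, abs_of_pos hc]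
        rw [mul_max_of_nonneg _ _ hc.le])
      (fun x y hy hy0 hx => by
        by_contra hc
        push Not at hc
        have a1 := (le_max_left _ _).trans_lt hx
        have a2 := (le_max_right _ _).trans_lt hx
        have b1 := (le_max_left _ _).trans_lt hc
        have b2 := (le_max_right _ _).trans_lt hc
        rw [map_sub] at b1 b2
        have hQ : (Uᗮ.orthogonalProjectionOnto : V →L[ℝ] Uᗮ) y = 0 :=
          vn_disj hr hq (AddSubgroup.mem_map_of_mem _ hy) a2 b2
        have hyU : y ∈ U := by
          have h1 := (Submodule.orthogonalProjectionOnto_eq_zero_iff).1 hQ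
          rwa [Submodule.orthogonal_orthogonal] at h1
        have hPy : (U.orthogonalProjectionOnto : V →L[ℝ] U) y = ⟨y, hyU⟩ :=
          Submodule.orthogonalProjectionOnto_mem_subspace_eq_self (K := U) ⟨y, hyU⟩
        rw [hPy] at b1
        have h2 := vn_disj hr hs (y := (⟨y, hyU⟩ : U)) hy a1 b1
        exact hy0 (congrArg Subtype.val h2))
  refine hle.trans ?_
  rw [← e1, ← e2, ← integral_add i1 i2]
  refine integral_mono_of_nonneg (Filter.Eventually.of_forall fun x => ?_) (i1.add i2)
    (Filter.Eventually.of_forall fun x => ?_)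
  · exact pow_nonneg (le_max_of_le_left (vn_nonneg hr hs _)) _
  · have h1 := vn_nonneg hr hs ((U.orthogonalProjectionOnto : V →L[ℝ] U) x)
    have h2 := vn_nonneg hr hq ((Uᗮ.orthogonalProjectionOnto : V →L[ℝ] Uᗮ) x)
    have h3 := pow_nonneg h1 p
    have h4 := pow_nonneg h2 p
    show max (vn (secL U L) ((U.orthogonalProjectionOnto : V →L[ℝ] U) x))
      (vn (quoL U L) ((Uᗮ.orthogonalProjectionOnto : V →L[ℝ] Uᗮ) x)) ^ p ≤ _ + _
    rcases le_total (vn (secL U L) ((U.orthogonalProjectionOnto : V →L[ℝ] U) x))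
      (vn (quoL U L) ((Uᗮ.orthogonalProjectionOnto : V →L[ℝ] Uᗮ) x)) with h | h
    · rw [max_eq_right h]; linarith
    · rw [max_eq_left h]; linarith

end H890
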