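import Pool.Agent.H890R2.RM.EXT

set_option autoImplicit false
open MeasureTheory
open scoped ENNReal Pointwise RealInnerProductSpace

/-! Volume of the Voronoi cell and truncation. -/

namespace H890

section
variable {V : Type*} [NormedAddCommGroup V] [InnerProductSpace ℝ V] [FiniteDimensional ℝ V]
  [MeasurableSpace V] [BorelSpace V] {L : AddSubgroup V}

theorem VOL_disc (hL : Sep 1 L) : DiscreteTopology (AddSubgroup.toIntSubmodule L) := by
  refine DiscreteTopology.of_forall_le_dist (r := 1) one_pos ?_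
  intro x y hxy
  have h1 : (x : V) - y ∈ L := L.sub_mem x.2 y.2
  have h2 : (x : V) - y ≠ 0 := by
    intro h
    exact hxy (Subtype.ext (sub_eq_zero.1 h))
  have h3 := hL _ h1 h2
  rw [Subtype.dist_eq, dist_eq_norm]
  exact h3

theorem VOL_gram {m : ℕ} (o : OrthonormalBasis (Fin m) ℝ V) (v : Fin m → V) :
    gdet v = (o.toBasis.det v) ^ 2 := by
  have h : Matrix.gram ℝ v = (o.toBasis.toMatrix v).transpose * (o.toBasis.toMatrix v) := by
    ext i j
    rw [Matrix.gram_apply, Matrix.mul_apply, ← o.sum_inner_mul_inner]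
    refine Finset.sum_congr rfl fun k _ => ?_
    rw [Matrix.transpose_apply, Module.Basis.toMatrix_apply, Module.Basis.toMatrix_apply,
      OrthonormalBasis.coe_toBasis_repr_apply, OrthonormalBasis.coe_toBasis_repr_apply,
      OrthonormalBasis.repr_apply_apply, OrthonormalBasis.repr_apply_apply,
      real_inner_comm (o k) (v i)]
  rw [gdet, h, Matrix.det_mul, Matrix.det_transpose, Module.Basis.det_apply, sq]

theorem vol_cell (hL : Good L) (hF : Full L) : 1 ≤ volume {x : V | vn L x ≤ 1} := by
  have hsep := hL.sep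
  have hd : DiscreteTopology (AddSubgroup.toIntSubmodule L) := VOL_disc hsep
  have hz : IsZLattice ℝ (AddSubgroup.toIntSubmodule L) := ⟨hF⟩
  have : Module.Finite ℤ (AddSubgroup.toIntSubmodule L) := ZLattice.module_finite ℝ _
  have : Module.Free ℤ (AddSubgroup.toIntSubmodule L) := ZLattice.module_free ℝ _
  let b₁ := Module.Free.chooseBasis ℤ (AddSubgroup.toIntSubmodule L)
  let b := b₁.reindex (Fintype.equivFin _)
  set m := Fintype.card (Module.Free.ChooseBasisIndex ℤ (AddSubgroup.toIntSubmodule L))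
  let B : Module.Basis (Fin m) ℝ V := b.ofZLatticeBasis ℝ (AddSubgroup.toIntSubmodule L)
  have hm : Module.finrank ℝ V = m := by
    rw [Module.finrank_eq_card_basis B, Fintype.card_fin]
  let o : OrthonormalBasis (Fin m) ℝ V := (stdOrthonormalBasis ℝ V).reindex (finCongr hm)
  have hB : ∀ i, B i ∈ L := by
    intro i
    have : B i = b i := b.ofZLatticeBasis_apply ℝ _ i
    rw [this]
    exact (b i).2
  have hg : 1 ≤ gdet B := hL m B hB B.linearIndependent
  rw [VOL_gram o] at hg
  have habs : 1 ≤ |o.toBasis.det B| := by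
    rw [← sq_abs] at hg
    nlinarith [abs_nonneg (o.toBasis.det B)]
  have hvol : volume (ZSpan.fundamentalDomain B) = ENNReal.ofReal |o.toBasis.det B| := by
    rw [ZSpan.measure_fundamentalDomain B volume o.toBasis,
      measure_congr (ZSpan.fundamentalDomain_ae_parallelepiped o.toBasis volume)]
    have : volume (parallelepiped o.toBasis) = 1 := by
      rw [OrthonormalBasis.coe_toBasis]
      exact o.volume_parallelepiped
    rw [this, mul_one]
  have hspan : Submodule.span ℤ (Set.range B) = AddSubgroup.toIntSubmodule L :=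
    b.ofZLatticeBasis_span ℝ
  calc (1 : ℝ≥0∞) ≤ ENNReal.ofReal |o.toBasis.det B| := by
        rw [← ENNReal.ofReal_one]
        exact ENNReal.ofReal_le_ofReal habs
    _ = volume (ZSpan.fundamentalDomain B) := hvol.symm
    _ ≤ _ := by
      refine ext_vol one_pos hsep _ (ZSpan.fundamentalDomain_measurableSet B) ?_
      intro x hx y hy hy0 hxy
      have h1 := (ZSpan.fract_eq_self (b := B)).2 hx
      have h2 := (ZSpan.fract_eq_self (b := B)).2 hxy
      have h3 : -y ∈ Submodule.span ℤ (Set.range B) := by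
        rw [hspan]
        exact L.neg_mem hy
      have h4 := ZSpan.fract_add_ZSpan B x h3
      rw [← sub_eq_add_neg, h1, h2] at h4
      apply hy0
      simpa using h4

/-- a convex set containing the ball of radius `1/2` and of volume at least one has a bounded truncation of
volume at least one; the radius depends only on the space -/
theorem vol_cut (V : Type*) [NormedAddCommGroup V]
    [InnerProductSpace ℝ V] [FiniteDimensional ℝ V] [MeasurableSpace V] [BorelSpace V]
    (hd : 1 ≤ Module.finrank ℝ V) : ∃ R : ℝ, 1 ≤ R ∧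
    ∀ K : Set V, Convex ℝ K → IsClosed K → Metric.closedBall 0 (1 / 2) ⊆ K →
    1 ≤ volume K → 1 ≤ volume (K ∩ Metric.closedBall 0 R) := by
  have hc0 : volume (Metric.closedBall (0 : V) (1 / 4)) ≠ 0 :=
    (Metric.measure_closedBall_pos volume 0 (by norm_num)).ne'
  obtain ⟨n, hn⟩ := ENNReal.exists_nat_mul_gt hc0 ENNReal.one_ne_top
  have hn1 : 1 ≤ n := by
    rcases Nat.eq_zero_or_pos n with h | h
    · subst h; simp at hn
    · exact h
  have hnR : (1 : ℝ) ≤ n := by exact_mod_cast hn1
  refine ⟨2 * n, by linarith, ?_⟩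
  intro K hK _ hball hvol
  by_cases hsub : K ⊆ Metric.closedBall 0 (2 * n)
  · rwa [Set.inter_eq_left.2 hsub]
  · rw [Set.not_subset] at hsub
    obtain ⟨z, hz, hzn⟩ := hsub
    rw [Metric.mem_closedBall, dist_zero_right, not_le] at hzn
    have h0 : (0 : V) ∈ K := hball (Metric.mem_closedBall_self (by norm_num))
    have hz0 : 0 < ‖z‖ := by linarith
    set x : V := ((2 * n) / ‖z‖ : ℝ) • z with hx
    have hxK : x ∈ K := hK.smul_mem_of_zero_mem h0 hz
      ⟨by positivity, by rw [div_le_one hz0]; exact hzn.le⟩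
    have hxn : ‖x‖ = 2 * n := by
      rw [hx, norm_smul, Real.norm_of_nonneg (by positivity)]
      field_simp
    have hsubk : ∀ k : Fin n, Metric.closedBall (((k : ℕ) / (2 * n) : ℝ) • x) (1 / 4) ⊆
        K ∩ Metric.closedBall 0 (2 * n) := by
      intro k w hw
      rw [Metric.mem_closedBall, dist_eq_norm] at hw
      have hk : ((k : ℕ) : ℝ) ≤ n := by exact_mod_cast k.2.le
      have hs1 : ((k : ℕ) / (2 * n) : ℝ) ≤ 1 / 2 := by
        rw [div_le_iff₀ (by positivity)]; linarith
      have hs0 : 0 ≤ ((k : ℕ) / (2 * n) : ℝ) := by positivity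
      set s : ℝ := ((k : ℕ) / (2 * n) : ℝ) with hs
      set y := w - s • x with hy
      have hwy : w = s • x + y := by rw [hy]; abel
      constructor
      · have hy2 : ((1 - s)⁻¹ : ℝ) • y ∈ K := by
          apply hball
          rw [Metric.mem_closedBall, dist_zero_right, norm_smul,
            Real.norm_of_nonneg (by rw [inv_nonneg]; linarith)]
          rw [inv_mul_le_iff₀ (by linarith)]
          linarith
        have := hK hxK hy2 hs0 (show 0 ≤ 1 - s by linarith) (by ring)
        rw [smul_smul (1 - s), mul_inv_cancel₀ (by linarith), one_smul] at this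
        rw [hwy]; exact this
      · rw [Metric.mem_closedBall, dist_zero_right, hwy]
        calc ‖s • x + y‖ ≤ ‖s • x‖ + ‖y‖ := norm_add_le _ _
          _ ≤ 1 / 2 * (2 * n) + 1 / 4 := by
            rw [norm_smul, Real.norm_of_nonneg hs0, hxn]
            gcongr
          _ ≤ 2 * n := by linarith
    have hdisj : Pairwise (Function.onFun Disjoint fun k : Fin n =>
        Metric.closedBall (((k : ℕ) / (2 * n) : ℝ) • x) (1 / 4)) := by
      intro k l hkl
      apply Metric.closedBall_disjoint_closedBall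
      rw [dist_eq_norm, ← sub_smul, norm_smul, hxn, Real.norm_eq_abs, ← sub_div, abs_div,
        abs_of_pos (show (0 : ℝ) < 2 * n by linarith), div_mul_cancel₀ _ (by linarith)]
      have h1 : (1 : ℝ) ≤ |((k : ℕ) : ℝ) - ((l : ℕ) : ℝ)| := by
        have h2 : ((k : ℕ) : ℤ) - ((l : ℕ) : ℤ) ≠ 0 := by
          intro h
          apply hkl
          apply Fin.ext
          omega
        have h3 := Int.one_le_abs h2
        have h4 : ((1 : ℤ) : ℝ) ≤ ((|((k : ℕ) : ℤ) - ((l : ℕ) : ℤ)| : ℤ) : ℝ) := by
          exact_mod_cast h3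
        push_cast at h4
        exact h4
      linarith
    calc (1 : ℝ≥0∞) ≤ n * volume (Metric.closedBall (0 : V) (1 / 4)) := hn.le
      _ = ∑ k : Fin n, volume (Metric.closedBall (((k : ℕ) / (2 * n) : ℝ) • x) (1 / 4)) := by
        simp_rw [Measure.addHaar_closedBall_center]
        rw [Finset.sum_const, Finset.card_univ, Fintype.card_fin, nsmul_eq_mul]
      _ = volume (⋃ k : Fin n, Metric.closedBall (((k : ℕ) / (2 * n) : ℝ) • x) (1 / 4)) := by
        rw [measure_iUnion hdisj (fun k => Metric.isClosed_closedBall.measurableSet), tsum_fintype]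
      _ ≤ volume (K ∩ Metric.closedBall 0 (2 * n)) := measure_mono (Set.iUnion_subset hsubk)

/-- the truncated Voronoi cell is a symmetric convex body of volume at least one -/
theorem cell_body (V : Type*) [NormedAddCommGroup V]
    [InnerProductSpace ℝ V] [FiniteDimensional ℝ V] [MeasurableSpace V] [BorelSpace V]
    (hd : 1 ≤ Module.finrank ℝ V) : ∃ R : ℝ, 1 ≤ R ∧ ∀ L : AddSubgroup V, Good L → Full L →
    Body ({x : V | vn L x ≤ 1} ∩ Metric.closedBall 0 R) ∧
    1 ≤ volume ({x : V | vn L x ≤ 1} ∩ Metric.closedBall 0 R) ∧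
    ∀ x, vn L x ≤ gauge ({x : V | vn L x ≤ 1} ∩ Metric.closedBall 0 R) x := by
  obtain ⟨R, hR, hcut⟩ := vol_cut V hd
  refine ⟨R, hR, fun L hL hF => ?_⟩
  have hsep := hL.sep
  have hr : (0 : ℝ) < 1 := one_pos
  have hcl : IsClosed {x : V | vn L x ≤ 1} := isClosed_le (vn_cont hr hsep) continuous_const
  have hconv : Convex ℝ {x : V | vn L x ≤ 1} := by
    intro x hx y hy a b ha hb hab
    show vn L (a • x + b • y) ≤ 1
    have hx' : vn L x ≤ 1 := hx
    have hy' : vn L y ≤ 1 := hy
    calc vn L (a • x + b • y) ≤ vn L (a • x) + vn L (b • y) := vn_add_le hr hsep _ _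
      _ = a * vn L x + b * vn L y := by
        rw [vn_smul hr hsep, vn_smul hr hsep, abs_of_nonneg ha, abs_of_nonneg hb]
      _ ≤ a * 1 + b * 1 := by gcongr
      _ = 1 := by linarith
  have hball : Metric.closedBall (0 : V) (1 / 2) ⊆ {x : V | vn L x ≤ 1} := by
    intro x hx
    rw [Metric.mem_closedBall, dist_zero_right] at hx
    exact vn_ball hr hsep hx
  have hball2 : Metric.ball (0 : V) (1 / 2) ⊆
      {x : V | vn L x ≤ 1} ∩ Metric.closedBall 0 R := by
    intro x hx
    refine ⟨hball (Metric.ball_subset_closedBall hx), ?_⟩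
    rw [Metric.mem_ball] at hx
    rw [Metric.mem_closedBall]
    linarith
  refine ⟨⟨?_, ?_, ?_, ?_⟩, ?_, ?_⟩
  · exact (isCompact_closedBall (0 : V) R).inter_left hcl
  · exact hconv.inter (convex_closedBall _ _)
  · rintro x ⟨hx, hx'⟩
    refine ⟨?_, ?_⟩
    · show vn L (-x) ≤ 1
      rw [vn_neg hr hsep]; exact hx
    · rw [Metric.mem_closedBall, dist_zero_right] at hx' ⊢
      rwa [norm_neg]
  · exact ⟨0, mem_interior.2 ⟨_, hball2, Metric.isOpen_ball, Metric.mem_ball_self (by norm_num)⟩⟩
  · exact hcut _ hconv hcl hball (vol_cell hL hF)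
  · intro x
    have habs : Absorbent ℝ ({x : V | vn L x ≤ 1} ∩ Metric.closedBall 0 R) := by
      apply absorbent_nhds_zero
      exact Filter.mem_of_superset (Metric.ball_mem_nhds 0 (by norm_num)) hball2
    refine le_csInf (Absorbent.gauge_set_nonempty habs) ?_
    rintro t ⟨ht, hxt⟩
    have ht' : (0 : ℝ) < t := ht
    obtain ⟨k, ⟨hk, _⟩, rfl⟩ := Set.mem_smul_set.1 hxt
    have hk' : vn L k ≤ 1 := hk
    rw [vn_smul hr hsep, abs_of_pos ht']
    nlinarith

end

end H890
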