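import Pool.Agent.H890R2.RM.CRIT
import Pool.Agent.H890R2.RM.SPLIT
import Pool.Agent.H890R2.RM.VOL
import Pool.Agent.H890R2.RM.CM

set_option autoImplicit false
open MeasureTheory
open scoped ENNReal Pointwise RealInnerProductSpace

/-! Induction on the dimension. -/

namespace H890

lemma MAIN_body_nhds {V : Type*} [NormedAddCommGroup V] [InnerProductSpace ℝ V] {K : Set V}
    (hK : Body K) : K ∈ nhds (0 : V) := by
  have h0 : (0 : V) ∈ interior K := by
    obtain ⟨x, hx⟩ := hK.int
    have hneg : -x ∈ interior K := by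
      have h1 : (Homeomorph.neg V) '' (interior K) = interior ((Homeomorph.neg V) '' K) :=
        (Homeomorph.neg V).image_interior K
      have h2 : (Homeomorph.neg V) '' K = K := by
        ext y
        constructor
        · rintro ⟨z, hz, rfl⟩
          exact hK.symm z hz
        · intro hy
          exact ⟨-y, hK.symm y hy, by simp⟩
      rw [h2] at h1
      rw [← h1]
      exact ⟨x, hx, rfl⟩
    have h := hK.conv.interior hx hneg (show (0 : ℝ) ≤ 1 / 2 by norm_num)
      (show (0 : ℝ) ≤ 1 / 2 by norm_num) (by norm_num)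
    simpa using h
  exact mem_interior_iff_mem_nhds.1 h0

lemma MAIN_gauge_int {V : Type*} [NormedAddCommGroup V] [InnerProductSpace ℝ V]
    [FiniteDimensional ℝ V] [MeasurableSpace V] [BorelSpace V] {K : Set V}
    (hK : Body K) (H : V →ₗ[ℝ] V) (p : ℕ) : Integrable (fun x => gauge K (H x) ^ p) (gam V) := by
  have hn := MAIN_body_nhds hK
  obtain ⟨r, hr, hball⟩ := Metric.nhds_basis_ball.mem_iff.1 hn
  have hH : Continuous H := H.continuous_of_finiteDimensional
  have hc : Continuous (fun x => gauge K (H x)) := (continuous_gauge hK.conv hn).comp hH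
  obtain ⟨C, hC⟩ : ∃ C : ℝ, ∀ x, ‖H x‖ ≤ C * ‖x‖ :=
    ⟨‖(LinearMap.toContinuousLinearMap H)‖, fun x => (LinearMap.toContinuousLinearMap H).le_opNorm x⟩
  refine integrable_of_le _ hc (C / r) (fun x => ?_) p
  rw [abs_of_nonneg (gauge_nonneg _)]
  have h1 : gauge K (H x) ≤ gauge (Metric.ball (0 : V) r) (H x) :=
    gauge_mono (absorbent_nhds_zero (Metric.ball_mem_nhds _ hr)) hball _
  rw [gauge_ball hr.le] at h1
  calc gauge K (H x) ≤ ‖H x‖ / r := h1
    _ ≤ C * ‖x‖ / r := by gcongr; exact hC x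
    _ = C / r * ‖x‖ := by ring

/-- one step: bound for the supremum -/
lemma MAIN_step (p : ℕ) (hp : 2 ≤ p) (e : ℝ) (C0 : ℝ) (hC0 : 0 < C0) (N : ℕ) (hN : 1 ≤ N)
    (hCM : ∀ (V : Type) [NormedAddCommGroup V] [InnerProductSpace ℝ V] [FiniteDimensional ℝ V]
      [MeasurableSpace V] [BorelSpace V] (d : ℕ),
      Module.finrank ℝ V = d → 1 ≤ d → d ≤ N → ∀ K : Set V, Body K → 1 ≤ volume K →
      ∀ R : ℝ, K ⊆ Metric.closedBall 0 R →
      ∃ H : V →ₗ[ℝ] V, (∀ x, ‖H x‖ ≤ d * R * ‖x‖) ∧ 0 < LinearMap.trace ℝ V H ∧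
        (d : ℝ) ^ p ≤ C0 * N * LinearMap.trace ℝ V H ^ p ∧
        (d / LinearMap.trace ℝ V H) ^ p * ∫ x, gauge K (H x) ^ p ∂(gam V) ≤ C0 * (N : ℝ) ^ (e * p + 2))
    (B : ℝ) (hB : B = 4 ^ p * C0 * (N : ℝ) ^ (e * p + 2))
    (V : Type) [NormedAddCommGroup V] [InnerProductSpace ℝ V] [FiniteDimensional ℝ V]
      [MeasurableSpace V] [BorelSpace V] (d : ℕ) (hdV : Module.finrank ℝ V = d) (hd1 : 1 ≤ d) (hdN : d ≤ N)
    (IH : ∀ j < d, ∀ (W : Type) [NormedAddCommGroup W] [InnerProductSpace ℝ W] [FiniteDimensional ℝ W]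
      [MeasurableSpace W] [BorelSpace W], Module.finrank ℝ W = j → ∀ L : AddSubgroup W, Good L → Full L →
      FF p L ≤ j * B)
    (S : ℝ) (hS : ∀ L : AddSubgroup V, Good L → Full L → FF p L ≤ S)
    (hS' : ∀ η : ℝ, 0 < η → ∃ L : AddSubgroup V, Good L ∧ Full L ∧ S - η ≤ FF p L)
    (κ δ : ℝ) (hκ : 0 < κ) (hδ : 0 < δ) :
    S ≤ max ((1 + κ) ^ p * (d * B)) (d * B + δ) + δ := by
  have hB0 : 0 < B := by
    have : (0 : ℝ) < N := by exact_mod_cast hN
    rw [hB]; positivity
  have hd0 : (0 : ℝ) < d := by exact_mod_cast hd1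
  have hdR : (1 : ℝ) ≤ d := by exact_mod_cast hd1
  have hp1 : 1 ≤ p := by omega
  have hN0 : (0 : ℝ) < N := by exact_mod_cast hN
  obtain ⟨R, hR1, hcell⟩ := cell_body V (by rw [hdV]; exact hd1)
  -- lower bound for the trace
  set T0 : ℝ := min 1 (d ^ p / (2 * (C0 * N + 1))) with hT0
  have hT0pos : 0 < T0 := by
    rw [hT0]
    apply lt_min one_pos
    positivity
  have hT0le : ∀ T : ℝ, 0 < T → (d : ℝ) ^ p ≤ C0 * N * T ^ p → T0 ≤ T := by
    intro T hT h
    by_contra hlt
    push Not at hlt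
    have h1 : T < 1 := hlt.trans_le (min_le_left _ _)
    have h2 : T < d ^ p / (2 * (C0 * N + 1)) := hlt.trans_le (min_le_right _ _)
    have h3 : T ^ p ≤ T := by
      calc T ^ p ≤ T ^ 1 := pow_le_pow_of_le_one hT.le h1.le hp1
        _ = T := pow_one _
    rw [lt_div_iff₀ (by positivity)] at h2
    have h4 : C0 * N * T ^ p ≤ C0 * N * T := by
      apply mul_le_mul_of_nonneg_left h3
      positivity
    have h5 : 0 < C0 * N := by positivity
    have h6 : 0 < T * (C0 * N) := by positivity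
    nlinarith
  obtain ⟨η, hη, hcrit⟩ := crit V (by rw [hdV]; exact hd1) p hp1 (d * R) T0 κ δ (by positivity) hT0pos hκ hδ
  obtain ⟨L, hL, hLF, hnear⟩ := hS' (min η δ) (lt_min hη hδ)
  have hnear1 : S - η ≤ FF p L := by
    have := min_le_left η δ
    linarith
  have hnear2 : S ≤ FF p L + δ := by
    have := min_le_right η δ
    linarith
  refine hnear2.trans (add_le_add_left ?_ δ)
  by_cases hprop : ∀ (j : ℕ), 1 ≤ j → j < Module.finrank ℝ V → ∀ v : Fin j → V, (∀ i, v i ∈ L) →
        LinearIndependent ℝ v → (1 + κ) ^ 2 ≤ gdet v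
  · -- critical case
    refine le_trans ?_ (le_max_right _ _)
    obtain ⟨hK, hvol, hgauge⟩ := hcell L hL hLF
    set K := {x : V | vn L x ≤ 1} ∩ Metric.closedBall 0 R with hKdef
    obtain ⟨H, hH, hT, hTd, hmain⟩ := hCM V d hdV hd1 hdN K hK hvol R Set.inter_subset_right
    have h1 := hcrit L hL hLF hprop S hS hnear1 H hH (hT0le _ hT hTd)
    set T := LinearMap.trace ℝ V H with hTdef
    have hint := MAIN_gauge_int hK H p
    have h2 : ∫ x, vn L (H x) ^ p ∂(gam V) ≤ ∫ x, gauge K (H x) ^ p ∂(gam V) := by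
      refine integral_mono_of_nonneg (Filter.Eventually.of_forall fun x => ?_) hint
        (Filter.Eventually.of_forall fun x => ?_)
      · exact pow_nonneg (vn_nonneg one_pos hL.sep _) _
      · exact pow_le_pow_left₀ (vn_nonneg one_pos hL.sep _) (hgauge _) _
    have h3 : (4 * (Module.finrank ℝ V : ℝ) / T) ^ p * ∫ x, vn L (H x) ^ p ∂(gam V) ≤
        4 ^ p * ((d / T) ^ p * ∫ x, gauge K (H x) ^ p ∂(gam V)) := by
      rw [hdV]
      have h4 : (4 * (d : ℝ) / T) ^ p = 4 ^ p * (d / T) ^ p := by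
        rw [← mul_pow]; congr 1; ring
      rw [h4, mul_assoc]
      apply mul_le_mul_of_nonneg_left _ (by positivity)
      exact mul_le_mul_of_nonneg_left h2 (by positivity)
    have h5 : 4 ^ p * ((d / T) ^ p * ∫ x, gauge K (H x) ^ p ∂(gam V)) ≤ B := by
      rw [hB, mul_assoc]
      exact mul_le_mul_of_nonneg_left hmain (by positivity)
    have h6 : B ≤ d * B := by nlinarith
    linarith
  · -- a proper sublattice of small determinant
    refine le_trans ?_ (le_max_left _ _)
    push Not at hprop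
    obtain ⟨j, hj1, hjd, v, hv, hvi, hdet⟩ := hprop
    rw [hdV] at hjd
    set U := Submodule.span ℝ (Set.range v) with hU
    have hfU : Module.finrank ℝ U = j := by
      rw [hU, finrank_span_eq_card hvi, Fintype.card_fin]
    have hfU' : Module.finrank ℝ (Uᗮ : Submodule ℝ V) = d - j := by
      have := Submodule.finrank_add_finrank_orthogonal U
      omega
    have hgq : Good (sc (1 + κ) (quoL U L)) := good_quo hL hκ.le v hv hvi hdet.le
    have hfq : Full (sc (1 + κ) (quoL U L)) := full_sc (full_quo hLF U) (by positivity)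
    have hsepq : Sep (1 + κ)⁻¹ (quoL U L) := by
      intro y hy hy0
      have h1 : (1 + κ) • y ∈ sc (1 + κ) (quoL U L) := ⟨y, hy, by simp⟩
      have h2 := hgq.sep _ h1 (by
        intro h
        rcases smul_eq_zero.1 h with h | h
        · linarith
        · exact hy0 h)
      rw [norm_smul, Real.norm_eq_abs, abs_of_pos (by positivity)] at h2
      rw [inv_le_iff_one_le_mul₀ (by positivity)]
      linarith [mul_comm (1 + κ) ‖y‖]
    have hsepL : Sep (1 + κ)⁻¹ L := by
      intro y hy hy0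
      refine le_trans ?_ (hL.sep y hy hy0)
      exact inv_le_one_of_one_le₀ (by linarith)
    have hsplit := FF_split (inv_pos.2 (show 0 < 1 + κ by positivity)) hsepL U hsepq p hp1
    have h1 : FF p (secL U L) ≤ j * B := by
      refine IH j hjd U hfU (secL U L) (good_sec hL U) ?_
      rw [hU]
      exact full_sec v hv
    have h2 : FF p (sc (1 + κ) (quoL U L)) ≤ (d - j : ℕ) * B :=
      IH (d - j) (by omega) _ hfU' _ hgq hfq
    rw [FF_sc (inv_pos.2 (show 0 < 1 + κ by positivity)) hsepq p (by positivity), div_le_iff₀ (by positivity)] at h2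
    have h3 : ((d - j : ℕ) : ℝ) = d - j := by
      rw [Nat.cast_sub hjd.le]
    rw [h3] at h2
    have h4 : (1 : ℝ) ≤ (1 + κ) ^ p := one_le_pow₀ (by linarith)
    have h5 : (j : ℝ) * B ≤ (1 + κ) ^ p * (j * B) := by
      have : 0 ≤ (j : ℝ) * B := by positivity
      nlinarith
    calc FF p L ≤ FF p (secL U L) + FF p (quoL U L) := hsplit
      _ ≤ (1 + κ) ^ p * (j * B) + ((d - j) * B) * (1 + κ) ^ p := add_le_add (h1.trans h5) h2
      _ = (1 + κ) ^ p * (d * B) := by ring

theorem FF_main (p : ℕ) (hp : 2 ≤ p) (e : ℝ) (he : 0 < e) : ∃ C : ℝ, 0 < C ∧ ∀ N : ℕ, 1 ≤ N →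
    ∀ (V : Type) [NormedAddCommGroup V] [InnerProductSpace ℝ V] [FiniteDimensional ℝ V]
      [MeasurableSpace V] [BorelSpace V], Module.finrank ℝ V ≤ N →
    ∀ L : AddSubgroup V, Good L → Full L → FF p L ≤ Module.finrank ℝ V * (C * (N : ℝ) ^ (e * p + 2)) := by
  obtain ⟨C0, hC0, hCM⟩ := convex_main p hp e he
  refine ⟨4 ^ p * C0, by positivity, fun N hN => ?_⟩
  set B : ℝ := 4 ^ p * C0 * (N : ℝ) ^ (e * p + 2) with hB
  have key : ∀ d : ℕ, d ≤ N → ∀ (W : Type) [NormedAddCommGroup W] [InnerProductSpace ℝ W]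
      [FiniteDimensional ℝ W] [MeasurableSpace W] [BorelSpace W], Module.finrank ℝ W = d →
      ∀ L : AddSubgroup W, Good L → Full L → FF p L ≤ d * B := by
    intro d
    induction d using Nat.strong_induction_on with
    | _ d ih =>
    intro hdN W _ _ _ _ _ hdW L hL hLF
    have hB0 : 0 < B := by
      have : (0 : ℝ) < N := by exact_mod_cast hN
      rw [hB]; positivity
    rcases Nat.eq_zero_or_pos d with hd0 | hd0
    · subst hd0
      have hsub : Subsingleton W := Module.finrank_zero_iff.1 hdW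
      have h0 : FF p L = 0 := by
        unfold FF
        have : (fun x : W => vn L x ^ p) = fun _ => 0 := by
          funext x
          rw [Subsingleton.elim x 0, vn_zero one_pos hL.sep]
          exact zero_pow (by omega)
        rw [this]
        simp
      rw [h0]
      simp
    · obtain ⟨Mb, hMb⟩ := FF_bdd W p
      set A : Set ℝ := {y | ∃ L' : AddSubgroup W, Good L' ∧ Full L' ∧ FF p L' = y} with hA
      have hne : A.Nonempty := ⟨_, L, hL, hLF, rfl⟩
      have hbd : BddAbove A := ⟨Mb, by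
        rintro y ⟨L', hL', _, rfl⟩
        exact hMb L' hL'.sep⟩
      have hS : ∀ L' : AddSubgroup W, Good L' → Full L' → FF p L' ≤ sSup A :=
        fun L' h1 h2 => le_csSup hbd ⟨L', h1, h2, rfl⟩
      have hS' : ∀ η : ℝ, 0 < η → ∃ L' : AddSubgroup W, Good L' ∧ Full L' ∧ sSup A - η ≤ FF p L' := by
        intro η hη
        obtain ⟨y, ⟨L', h1, h2, rfl⟩, h3⟩ := exists_lt_of_lt_csSup hne (show sSup A - η < sSup A by linarith)
        exact ⟨L', h1, h2, h3.le⟩
      have hstep : ∀ κ δ : ℝ, 0 < κ → 0 < δ → sSup A ≤ max ((1 + κ) ^ p * (d * B)) (d * B + δ) + δ := by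
        intro κ δ hκ hδ
        refine MAIN_step p hp e C0 hC0 N hN (fun V _ _ _ _ _ d' h1 h2 h3 K hK hv R hR =>
          hCM N hN V d' h1 h2 h3 K hK hv R hR) B hB W d hdW hd0 hdN ?_ (sSup A) hS hS' κ δ hκ hδ
        intro j hj W' _ _ _ _ _ hW' L' h1 h2
        exact ih j hj (hj.le.trans hdN) W' hW' L' h1 h2
      refine (hS L hL hLF).trans ?_
      by_contra hlt
      push Not at hlt
      set δ := (sSup A - d * B) / 4 with hδ
      have hδ0 : 0 < δ := by rw [hδ]; linarith
      have hcont : Filter.Tendsto (fun κ : ℝ => (1 + κ) ^ p * (d * B)) (nhdsWithin 0 (Set.Ioi 0))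
          (nhds ((1 + 0) ^ p * (d * B))) := by
        apply Filter.Tendsto.mono_left _ nhdsWithin_le_nhds
        exact (Continuous.tendsto (by fun_prop) 0)
      have hev := hcont.eventually (eventually_lt_nhds (show (1 + 0 : ℝ) ^ p * (d * B) < d * B + δ by
        simp; exact hδ0))
      obtain ⟨κ, hκ1, hκ2⟩ := (hev.and self_mem_nhdsWithin).exists
      have h1 := hstep κ δ hκ2 hδ0
      have h2 : max ((1 + κ) ^ p * (d * B)) (d * B + δ) ≤ d * B + δ := max_le hκ1.le le_rfl
      have h3 : sSup A - d * B = 4 * δ := by rw [hδ]; ring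
      linarith
  intro V _ _ _ _ _ hV L hL hLF
  exact key _ hV V rfl L hL hLF

end H890
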