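import Pool.Agent.H890R2.RM.MAIN

set_option autoImplicit false
open MeasureTheory
open scoped ENNReal Pointwise RealInnerProductSpace

/-! Theta bound and the reverse Minkowski theorem. -/

namespace H890

section theta

variable {V : Type*} [NormedAddCommGroup V] [InnerProductSpace ℝ V] [FiniteDimensional ℝ V]
    [MeasurableSpace V] [BorelSpace V]

lemma theta_gd_pair (x a : V) :
    2 * (Real.exp (-(‖a‖ ^ 2 / 2)) * gd x) ≤ gd (x + a) + gd (x + -a) := by
  unfold gd
  have h1 : ‖x + a‖ ^ 2 = ‖x‖ ^ 2 + 2 * ⟪x, a⟫ + ‖a‖ ^ 2 := norm_add_sq_real x a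
  have h2 : ‖x + -a‖ ^ 2 = ‖x‖ ^ 2 - 2 * ⟪x, a⟫ + ‖a‖ ^ 2 := by
    rw [← sub_eq_add_neg]; exact norm_sub_sq_real x a
  rw [h1, h2]
  have e1 : Real.exp (-(1 / 2) * (‖x‖ ^ 2 + 2 * ⟪x, a⟫ + ‖a‖ ^ 2)) =
      Real.exp (-(‖a‖ ^ 2 / 2)) * Real.exp (-(1 / 2) * ‖x‖ ^ 2) * Real.exp (-⟪x, a⟫) := by
    rw [← Real.exp_add, ← Real.exp_add]; congr 1; ring
  have e2 : Real.exp (-(1 / 2) * (‖x‖ ^ 2 - 2 * ⟪x, a⟫ + ‖a‖ ^ 2)) =
      Real.exp (-(‖a‖ ^ 2 / 2)) * Real.exp (-(1 / 2) * ‖x‖ ^ 2) * Real.exp (⟪x, a⟫) := by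
    rw [← Real.exp_add, ← Real.exp_add]; congr 1; ring
  rw [e1, e2]
  have h3 : 2 ≤ Real.exp (-⟪x, a⟫) + Real.exp (⟪x, a⟫) := by
    have := Real.add_one_le_exp (-⟪x, a⟫)
    have := Real.add_one_le_exp (⟪x, a⟫)
    linarith
  have h4 : 0 ≤ ((Real.sqrt (2 * Real.pi))⁻¹) ^ (Module.finrank ℝ V) *
      (Real.exp (-(‖a‖ ^ 2 / 2)) * Real.exp (-(1 / 2) * ‖x‖ ^ 2)) := by positivity
  nlinarith [mul_le_mul_of_nonneg_left h3 h4]

lemma theta_gam_eq (a : V) (D : Set V) (hD : MeasurableSet D) :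
    gam V {x | x - a ∈ D} = ∫⁻ x, D.indicator (fun x => ENNReal.ofReal (gd (x + a))) x := by
  have hm : MeasurableSet {x : V | x - a ∈ D} := (measurable_id.sub_const a) hD
  unfold gam
  rw [withDensity_apply _ hm, ← lintegral_indicator hm]
  rw [← lintegral_sub_right_eq_self (μ := (volume : Measure V))
    (fun x => D.indicator (fun x => ENNReal.ofReal (gd (x + a))) x) a]
  refine lintegral_congr fun x => ?_
  by_cases hx : x - a ∈ D
  · rw [Set.indicator_of_mem (show x ∈ {x : V | x - a ∈ D} from hx), Set.indicator_of_mem hx,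
      sub_add_cancel]
  · rw [Set.indicator_of_notMem (show x ∉ {x : V | x - a ∈ D} from hx),
      Set.indicator_of_notMem hx]

lemma theta_translate (a : V) (D : Set V) (hD : MeasurableSet D) (hs : ∀ x, -x ∈ D ↔ x ∈ D) :
    ENNReal.ofReal (Real.exp (-(‖a‖ ^ 2 / 2))) * gam V D ≤ gam V {x | x - a ∈ D} := by
  have h1 := theta_gam_eq a D hD
  have h2 : gam V {x | x - a ∈ D} =
      ∫⁻ x, D.indicator (fun x => ENNReal.ofReal (gd (x + -a))) x := by
    rw [h1, ← lintegral_neg_eq_self (μ := (volume : Measure V))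
      (fun x => D.indicator (fun x => ENNReal.ofReal (gd (x + a))) x)]
    refine lintegral_congr fun x => ?_
    by_cases hx : x ∈ D
    · rw [Set.indicator_of_mem hx, Set.indicator_of_mem ((hs x).2 hx)]
      congr 1
      unfold gd
      have : -x + a = -(x + -a) := by abel
      rw [this, norm_neg]
    · rw [Set.indicator_of_notMem hx, Set.indicator_of_notMem (fun h => hx ((hs x).1 h))]
  have h3 : gam V D = ∫⁻ x, D.indicator (fun x => ENNReal.ofReal (gd x)) x := by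
    unfold gam
    rw [withDensity_apply _ hD, ← lintegral_indicator hD]
  have hmeas : ∀ b : V, Measurable (D.indicator (fun x => ENNReal.ofReal (gd (x + b)))) := by
    intro b
    refine Measurable.indicator ?_ hD
    exact (gd_cont.measurable.comp (measurable_id.add_const b)).ennreal_ofReal
  have h4 : 2 * (ENNReal.ofReal (Real.exp (-(‖a‖ ^ 2 / 2))) * gam V D) ≤
      2 * gam V {x | x - a ∈ D} := by
    calc 2 * (ENNReal.ofReal (Real.exp (-(‖a‖ ^ 2 / 2))) * gam V D)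
        = ∫⁻ x, 2 * (ENNReal.ofReal (Real.exp (-(‖a‖ ^ 2 / 2))) *
            D.indicator (fun x => ENNReal.ofReal (gd x)) x) := by
          rw [h3, lintegral_const_mul' _ _ (by norm_num),
            lintegral_const_mul' _ _ ENNReal.ofReal_ne_top]
      _ ≤ ∫⁻ x, (D.indicator (fun x => ENNReal.ofReal (gd (x + a))) x +
            D.indicator (fun x => ENNReal.ofReal (gd (x + -a))) x) := by
          refine lintegral_mono fun x => ?_
          by_cases hx : x ∈ D
          · simp only [Set.indicator_of_mem hx]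
            rw [← ENNReal.ofReal_mul (Real.exp_pos _).le,
              ← ENNReal.ofReal_add (gd_nonneg _) (gd_nonneg _)]
            have h2' : (2 : ℝ≥0∞) = ENNReal.ofReal 2 := by norm_num
            rw [h2', ← ENNReal.ofReal_mul (by norm_num)]
            exact ENNReal.ofReal_le_ofReal (theta_gd_pair x a)
          · simp only [Set.indicator_of_notMem hx]; simp
      _ = 2 * gam V {x | x - a ∈ D} := by
          rw [lintegral_add_left (hmeas a), ← h1, ← h2, two_mul]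
  exact (ENNReal.mul_le_mul_iff_right (by norm_num) (by norm_num)).1 h4

end theta

theorem theta_le {V : Type*} [NormedAddCommGroup V] [InnerProductSpace ℝ V] [FiniteDimensional ℝ V]
    [MeasurableSpace V] [BorelSpace V] {r : ℝ} (hr : 0 < r) {L : AddSubgroup V} (hL : Sep r L) {s : ℝ}
    (hs : 0 < s) (hg : 1 / 2 ≤ gam V {x | vn L x < s}) (S : Finset V) (hS : ∀ y ∈ S, y ∈ L) :
    ∑ y ∈ S, Real.exp (-(s ^ 2 / 2 * ‖y‖ ^ 2)) ≤ 2 := by
  classical
  set D : Set V := {x | vn L x < s} with hDdef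
  have hDm : MeasurableSet D := (isOpen_lt (vn_cont hr hL) continuous_const).measurableSet
  have hDs : ∀ x, -x ∈ D ↔ x ∈ D := by
    intro x; simp only [hDdef, Set.mem_setOf_eq, vn_neg hr hL]
  have hm : ∀ y : V, MeasurableSet {x : V | x - s • y ∈ D} := fun y =>
    (measurable_id.sub_const _) hDm
  have hdisj : (S : Set V).PairwiseDisjoint (fun y => {x : V | x - s • y ∈ D}) := by
    intro y hy z hz hyz
    rw [Function.onFun, Set.disjoint_left]
    intro x hx1 hx2
    simp only [Set.mem_setOf_eq, hDdef] at hx1 hx2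
    apply hyz
    have hL' : z - y ∈ L := L.sub_mem (hS z hz) (hS y hy)
    have e1 : vn L (s⁻¹ • (x - s • y)) < 1 := by
      rw [vn_smul hr hL, abs_of_pos (inv_pos.2 hs), inv_mul_lt_iff₀ hs, mul_one]
      exact hx1
    have e2 : vn L (s⁻¹ • (x - s • y) - (z - y)) < 1 := by
      have : s⁻¹ • (x - s • y) - (z - y) = s⁻¹ • (x - s • z) := by
        rw [smul_sub, smul_sub, smul_smul, smul_smul, inv_mul_cancel₀ hs.ne', one_smul, one_smul]
        abel
      rw [this, vn_smul hr hL, abs_of_pos (inv_pos.2 hs), inv_mul_lt_iff₀ hs, mul_one]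
      exact hx2
    have := vn_disj hr hL hL' e1 e2
    exact (sub_eq_zero.1 this).symm
  have hsum : ∑ y ∈ S, gam V {x : V | x - s • y ∈ D} ≤ 1 := by
    rw [← measure_biUnion_finset hdisj (fun y _ => hm y)]
    exact prob_le_one
  have hterm : ∀ y ∈ S, ENNReal.ofReal (Real.exp (-(s ^ 2 / 2 * ‖y‖ ^ 2))) * (1 / 2) ≤
      gam V {x : V | x - s • y ∈ D} := by
    intro y _
    refine le_trans ?_ (theta_translate (s • y) D hDm hDs)
    have e : -(‖s • y‖ ^ 2 / 2) = -(s ^ 2 / 2 * ‖y‖ ^ 2) := by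
      rw [norm_smul, mul_pow, Real.norm_eq_abs, sq_abs]; ring
    rw [e]
    gcongr
  have hfin : ∑ y ∈ S, ENNReal.ofReal (Real.exp (-(s ^ 2 / 2 * ‖y‖ ^ 2))) * (1 / 2) ≤ 1 :=
    (Finset.sum_le_sum hterm).trans hsum
  rw [← Finset.sum_mul, ← ENNReal.ofReal_sum_of_nonneg (fun y _ => (Real.exp_pos _).le)] at hfin
  have h12 : (1 / 2 : ℝ≥0∞) = ENNReal.ofReal (1 / 2) := by
    rw [ENNReal.ofReal_div_of_pos (by norm_num)]; norm_num
  have h1 : (1 : ℝ≥0∞) = ENNReal.ofReal 1 := by norm_num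
  rw [h12, h1, ← ENNReal.ofReal_mul (Finset.sum_nonneg fun y _ => (Real.exp_pos _).le),
    ENNReal.ofReal_le_ofReal_iff (by norm_num)] at hfin
  linarith

/-- REVERSE MINKOWSKI THEOREM with loss `N^ε`. -/
theorem reverse_minkowski (ε : ℝ) (hε : 0 < ε) : ∃ N0 : ℕ, ∀ N : ℕ, N0 ≤ N →
    ∀ (V : Type) [NormedAddCommGroup V] [InnerProductSpace ℝ V] [FiniteDimensional ℝ V],
    Module.finrank ℝ V ≤ N → ∀ L : AddSubgroup V, Good L → ∀ S : Finset V, (∀ y ∈ S, y ∈ L) →
    ∑ y ∈ S, Real.exp (-((N : ℝ) ^ ε * ‖y‖ ^ 2)) ≤ 2 := by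
  classical
  obtain ⟨p, hp2⟩ := exists_nat_ge (max 2 (48 / ε))
  have hp : 2 ≤ p := by
    have : (2 : ℝ) ≤ p := (le_max_left _ _).trans hp2
    exact_mod_cast this
  have hpε : 48 / ε ≤ p := (le_max_right _ _).trans hp2
  have hp0 : (0 : ℝ) < p := by
    have : (2 : ℝ) ≤ p := (le_max_left _ _).trans hp2
    linarith
  obtain ⟨C, hC, hmain⟩ := FF_main p hp (ε / 8) (by positivity)
  set K : ℝ := (2 * C) ^ (2 / (p : ℝ)) / 2 with hK
  have hev := ((tendsto_rpow_atTop (show (0 : ℝ) < 5 * ε / 8 by positivity)).comp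
    tendsto_natCast_atTop_atTop).eventually_ge_atTop K
  obtain ⟨N1, hN1⟩ := Filter.eventually_atTop.1 hev
  refine ⟨max 1 N1, ?_⟩
  intro N hN V _ _ _ hdim L hL S hS
  have hN1' : 1 ≤ N := (le_max_left _ _).trans hN
  have hNK : K ≤ (N : ℝ) ^ (5 * ε / 8) := hN1 N ((le_max_right _ _).trans hN)
  have hNpos : (0 : ℝ) < N := by exact_mod_cast hN1'
  have hN1r : (1 : ℝ) ≤ N := by exact_mod_cast hN1'
  set W : Submodule ℝ V := Submodule.span ℝ (L : Set V) with hW
  letI : MeasurableSpace W := borel W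
  haveI : BorelSpace W := ⟨rfl⟩
  set L' : AddSubgroup W := secL W L with hL'
  have hgood : Good L' := good_sec hL W
  have hfull : Full L' := by
    unfold Full
    have : (L' : Set W) = (Subtype.val ⁻¹' (L : Set V) : Set W) := rfl
    rw [this]
    exact Submodule.span_span_coe_preimage
  have hsep : Sep 1 L' := hgood.sep
  have hdimW : Module.finrank ℝ W ≤ N := (Submodule.finrank_le W).trans hdim
  have hFF := hmain N hN1' W hdimW L' hgood hfull
  -- the level
  set B : ℝ := C * (N : ℝ) ^ (ε / 8 * p + 3) with hB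
  have hBpos : 0 < B := by positivity
  have hFF2 : FF p L' ≤ B := by
    refine hFF.trans ?_
    have h1 : (Module.finrank ℝ W : ℝ) ≤ N := by exact_mod_cast hdimW
    have h2 : (N : ℝ) ^ (ε / 8 * p + 3) = (N : ℝ) * (N : ℝ) ^ (ε / 8 * p + 2) := by
      rw [show ε / 8 * p + 3 = 1 + (ε / 8 * p + 2) by ring, Real.rpow_add hNpos, Real.rpow_one]
    rw [hB, h2]
    have h3 : 0 ≤ C * (N : ℝ) ^ (ε / 8 * p + 2) := by positivity
    calc (Module.finrank ℝ W : ℝ) * (C * (N : ℝ) ^ (ε / 8 * p + 2))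
        ≤ N * (C * (N : ℝ) ^ (ε / 8 * p + 2)) := mul_le_mul_of_nonneg_right h1 h3
      _ = C * ((N : ℝ) * (N : ℝ) ^ (ε / 8 * p + 2)) := by ring
  set s : ℝ := (2 * B) ^ (1 / (p : ℝ)) with hs
  have hspos : 0 < s := by positivity
  have hsp : s ^ p = 2 * B := by
    rw [hs, ← Real.rpow_natCast, ← Real.rpow_mul (by positivity), one_div,
      inv_mul_cancel₀ hp0.ne', Real.rpow_one]
  have hmark : (gam W).real {x | s ≤ vn L' x} ≤ 1 / 2 := by
    have h1 := mul_meas_ge_le_integral_of_nonneg (μ := gam W) (f := fun x => vn L' x ^ p)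
      (Filter.Eventually.of_forall fun x => pow_nonneg (vn_nonneg one_pos hsep x) p)
      (FF_integrable one_pos hsep p) (s ^ p)
    have h2 : {x | s ^ p ≤ vn L' x ^ p} = {x : W | s ≤ vn L' x} := by
      ext x
      simp only [Set.mem_setOf_eq]
      exact pow_le_pow_iff_left₀ hspos.le (vn_nonneg one_pos hsep x) (by omega)
    rw [h2] at h1
    have h3 : s ^ p * (gam W).real {x | s ≤ vn L' x} ≤ B := h1.trans hFF2
    rw [hsp] at h3
    nlinarith
  have hmeas : MeasurableSet {x : W | s ≤ vn L' x} :=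
    (isClosed_le continuous_const (vn_cont one_pos hsep)).measurableSet
  have hg : 1 / 2 ≤ gam W {x | vn L' x < s} := by
    have h1 : {x : W | vn L' x < s} = {x : W | s ≤ vn L' x}ᶜ := by
      ext x; simp
    have h2 : (gam W).real {x : W | s ≤ vn L' x}ᶜ = 1 - (gam W).real {x : W | s ≤ vn L' x} :=
      probReal_compl_eq_one_sub hmeas
    have h3 : 1 / 2 ≤ (gam W).real {x : W | vn L' x < s} := by
      rw [h1, h2]; linarith
    have h12 : (1 / 2 : ℝ≥0∞) = ENNReal.ofReal (1 / 2) := by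
      rw [ENNReal.ofReal_div_of_pos (by norm_num)]; norm_num
    rw [h12, ENNReal.ofReal_le_iff_le_toReal (measure_ne_top _ _)]
    exact h3
  have hθ := theta_le one_pos hsep hspos hg (S.subtype (fun x => x ∈ W)) (by
    intro y hy
    rw [Finset.mem_subtype] at hy
    exact hS _ hy)
  have hsub : ∑ y ∈ S.subtype (fun x => x ∈ W), Real.exp (-(s ^ 2 / 2 * ‖y‖ ^ 2)) =
      ∑ y ∈ S, Real.exp (-(s ^ 2 / 2 * ‖y‖ ^ 2)) := by
    have := Finset.sum_subtype_of_mem (s := S) (p := fun x => x ∈ W)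
      (fun y : V => Real.exp (-(s ^ 2 / 2 * ‖y‖ ^ 2)))
      (fun y hy => Submodule.subset_span (hS y hy))
    rw [← this]
    rfl
  rw [hsub] at hθ
  refine le_trans ?_ hθ
  refine Finset.sum_le_sum fun y _ => ?_
  refine Real.exp_le_exp.2 (neg_le_neg ?_)
  refine mul_le_mul_of_nonneg_right ?_ (by positivity)
  -- s ^ 2 / 2 ≤ N ^ ε
  have hs2 : s ^ 2 = (2 * C) ^ (2 / (p : ℝ)) * (N : ℝ) ^ (ε / 4 + 6 / p) := by
    rw [hs, ← Real.rpow_natCast, ← Real.rpow_mul (by positivity), hB, ← mul_assoc,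
      Real.mul_rpow (by positivity) (by positivity), ← Real.rpow_mul hNpos.le]
    congr 2
    · push_cast; ring
    · push_cast; field_simp; ring
  rw [hs2]
  have hexp : ε / 4 + 6 / p ≤ 3 * ε / 8 := by
    have : 6 / (p : ℝ) ≤ ε / 8 := by
      rw [div_le_iff₀ hp0]
      rw [div_le_iff₀ hε] at hpε
      linarith
    linarith
  have h5 : (N : ℝ) ^ (ε / 4 + 6 / p) ≤ (N : ℝ) ^ (3 * ε / 8) :=
    Real.rpow_le_rpow_of_exponent_le hN1r hexp
  calc (2 * C) ^ (2 / (p : ℝ)) * (N : ℝ) ^ (ε / 4 + 6 / p) / 2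
      = K * (N : ℝ) ^ (ε / 4 + 6 / p) := by rw [hK]; ring
    _ ≤ (N : ℝ) ^ (5 * ε / 8) * (N : ℝ) ^ (3 * ε / 8) := by
        refine mul_le_mul hNK h5 (by positivity) (by positivity)
    _ = (N : ℝ) ^ ε := by
        rw [← Real.rpow_add hNpos]; congr 1; ring

end H890
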