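import Pool.Agent.H890R2.RM.Defs

set_option autoImplicit false
open MeasureTheory
open scoped ENNReal Pointwise RealInnerProductSpace

/-! Basic properties of the Voronoi norm. -/

namespace H890

section
variable {V : Type*} [NormedAddCommGroup V] [InnerProductSpace ℝ V] {r : ℝ} {L : AddSubgroup V}

theorem Good.sep (hL : Good L) : Sep 1 L := by
  intro y hy hy0
  have h := hL 1 (fun _ => y) (fun _ => hy) (by
    rw [linearIndependent_unique_iff]
    exact hy0)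
  unfold gdet at h
  rw [Matrix.det_fin_one, Matrix.gram_apply, real_inner_self_eq_norm_sq] at h
  nlinarith [norm_nonneg y]

theorem VN_quot_le (hr : 0 < r) (hL : Sep r L) (x : V) {y : V} (hy : y ∈ L) (hy0 : y ≠ 0) :
    2 * ⟪x, y⟫ / ‖y‖ ^ 2 ≤ 2 / r * ‖x‖ := by
  have h1 := hL y hy hy0
  have hpos : 0 < ‖y‖ := norm_pos_iff.2 hy0
  rw [div_le_iff₀ (by positivity)]
  have h2 : ⟪x, y⟫ ≤ ‖x‖ * ‖y‖ := real_inner_le_norm x y
  have h3 : 2 / r * ‖x‖ * ‖y‖ ^ 2 = 2 * (‖x‖ * ‖y‖) * (‖y‖ / r) := by ring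
  have h4 : 1 ≤ ‖y‖ / r := by rw [le_div_iff₀ hr]; linarith
  rw [h3]
  have h5 : 0 ≤ 2 * (‖x‖ * ‖y‖) := by positivity
  nlinarith

theorem vn_bdd (hr : 0 < r) (hL : Sep r L) (x : V) :
    BddAbove (Set.range fun y : {y : V // y ∈ L ∧ y ≠ 0} => 2 * ⟪x, (y : V)⟫ / ‖(y : V)‖ ^ 2) := by
  refine ⟨2 / r * ‖x‖, ?_⟩
  rintro _ ⟨y, rfl⟩
  exact VN_quot_le hr hL x y.2.1 y.2.2

theorem VN_le_vn (hr : 0 < r) (hL : Sep r L) (x : V) {y : V} (hy : y ∈ L) (hy0 : y ≠ 0) :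
    2 * ⟪x, y⟫ / ‖y‖ ^ 2 ≤ vn L x :=
  le_ciSup (vn_bdd hr hL x) (⟨y, hy, hy0⟩ : {y : V // y ∈ L ∧ y ≠ 0})

theorem VN_inner_le (hr : 0 < r) (hL : Sep r L) (x : V) {y : V} (hy : y ∈ L) :
    2 * ⟪x, y⟫ ≤ vn L x * ‖y‖ ^ 2 := by
  by_cases hy0 : y = 0
  · rw [hy0]; simp
  · have h := VN_le_vn hr hL x hy hy0
    have hpos : 0 < ‖y‖ := norm_pos_iff.2 hy0
    rwa [div_le_iff₀ (by positivity)] at h

theorem vn_nonneg (hr : 0 < r) (hL : Sep r L) (x : V) : 0 ≤ vn L x := by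
  by_cases h : Nonempty {y : V // y ∈ L ∧ y ≠ 0}
  · obtain ⟨y, hy, hy0⟩ := h
    have h1 := VN_inner_le hr hL x hy
    have h2 := VN_inner_le hr hL x (L.neg_mem hy)
    rw [inner_neg_right, norm_neg] at h2
    have hpos : 0 < ‖y‖ := norm_pos_iff.2 hy0
    have h3 : 0 ≤ vn L x * ‖y‖ ^ 2 := by linarith
    exact nonneg_of_mul_nonneg_left h3 (by positivity)
  · have : IsEmpty {y : V // y ∈ L ∧ y ≠ 0} := not_nonempty_iff.1 h
    unfold vn
    rw [Real.iSup_of_isEmpty]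

theorem vn_le_iff (hr : 0 < r) (hL : Sep r L) {s : ℝ} (hs : 0 ≤ s) (x : V) :
    vn L x ≤ s ↔ ∀ y ∈ L, 2 * ⟪x, y⟫ ≤ s * ‖y‖ ^ 2 := by
  constructor
  · intro h y hy
    exact (VN_inner_le hr hL x hy).trans (mul_le_mul_of_nonneg_right h (by positivity))
  · intro h
    by_cases hne : Nonempty {y : V // y ∈ L ∧ y ≠ 0}
    · refine ciSup_le fun y => ?_
      have hpos : 0 < ‖(y : V)‖ := norm_pos_iff.2 y.2.2
      rw [div_le_iff₀ (by positivity)]
      exact h y y.2.1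
    · have : IsEmpty {y : V // y ∈ L ∧ y ≠ 0} := not_nonempty_iff.1 hne
      unfold vn
      rw [Real.iSup_of_isEmpty]
      exact hs

theorem vn_le (hr : 0 < r) (hL : Sep r L) (x : V) : vn L x ≤ 2 / r * ‖x‖ := by
  rw [vn_le_iff hr hL (by positivity)]
  intro y hy
  by_cases hy0 : y = 0
  · rw [hy0]; simp
  · have h := VN_quot_le hr hL x hy hy0
    have hpos : 0 < ‖y‖ := norm_pos_iff.2 hy0
    rwa [div_le_iff₀ (by positivity)] at h

theorem vn_zero (hr : 0 < r) (hL : Sep r L) : vn L 0 = 0 := by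
  refine le_antisymm ?_ (vn_nonneg hr hL 0)
  have := vn_le hr hL 0
  simpa using this

theorem vn_add_le (hr : 0 < r) (hL : Sep r L) (x y : V) : vn L (x + y) ≤ vn L x + vn L y := by
  rw [vn_le_iff hr hL (add_nonneg (vn_nonneg hr hL x) (vn_nonneg hr hL y))]
  intro z hz
  have h1 := VN_inner_le hr hL x hz
  have h2 := VN_inner_le hr hL y hz
  rw [inner_add_left]
  linarith

theorem vn_neg (hr : 0 < r) (hL : Sep r L) (x : V) : vn L (-x) = vn L x := by
  have key : ∀ x : V, vn L (-x) ≤ vn L x := by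
    intro x
    rw [vn_le_iff hr hL (vn_nonneg hr hL x)]
    intro z hz
    have h1 := VN_inner_le hr hL x (L.neg_mem hz)
    rw [inner_neg_right, norm_neg] at h1
    rw [inner_neg_left]
    exact h1
  refine le_antisymm (key x) ?_
  have := key (-x)
  rwa [neg_neg] at this

theorem vn_smul (hr : 0 < r) (hL : Sep r L) (c : ℝ) (x : V) : vn L (c • x) = |c| * vn L x := by
  have key : ∀ (c : ℝ) (x : V), 0 ≤ c → vn L (c • x) = c * vn L x := by
    intro c x hc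
    unfold vn
    rw [Real.mul_iSup_of_nonneg hc]
    congr 1
    ext y
    rw [inner_smul_left]
    simp only [conj_trivial]
    ring
  rcases le_total 0 c with hc | hc
  · rw [abs_of_nonneg hc]; exact key c x hc
  · rw [abs_of_nonpos hc, ← key (-c) x (by linarith), neg_smul, vn_neg hr hL]

theorem vn_cont (hr : 0 < r) (hL : Sep r L) : Continuous (vn L) := by
  have h : LipschitzWith ⟨2 / r, by positivity⟩ (vn L) := by
    refine LipschitzWith.of_le_add_mul _ fun x y => ?_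
    have h1 := vn_add_le hr hL y (x - y)
    have h2 := vn_le hr hL (x - y)
    rw [add_sub_cancel] at h1
    rw [dist_eq_norm]
    exact h1.trans (add_le_add_right h2 _)
  exact h.continuous

theorem VN_mem_sc {c : ℝ} {y : V} : y ∈ sc c L ↔ ∃ z ∈ L, c • z = y := by
  unfold sc
  rw [AddSubgroup.mem_map]
  rfl

theorem sep_sc {c : ℝ} (hc : 0 < c) (hL : Sep r L) : Sep (c * r) (sc c L) := by
  intro y hy hy0
  obtain ⟨z, hz, rfl⟩ := VN_mem_sc.1 hy
  have hz0 : z ≠ 0 := by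
    rintro rfl
    exact hy0 (smul_zero c)
  rw [norm_smul, Real.norm_eq_abs, abs_of_pos hc]
  exact mul_le_mul_of_nonneg_left (hL z hz hz0) hc.le

theorem vn_sc (hr : 0 < r) (hL : Sep r L) {c : ℝ} (hc : 0 < c) (x : V) : vn (sc c L) x = vn L x / c := by
  have hL' : Sep (c * r) (sc c L) := sep_sc hc hL
  have hr' : 0 < c * r := mul_pos hc hr
  refine le_antisymm ?_ ?_
  · rw [vn_le_iff hr' hL' (div_nonneg (vn_nonneg hr hL x) hc.le)]
    intro y hy
    obtain ⟨z, hz, rfl⟩ := VN_mem_sc.1 hy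
    have h1 := VN_inner_le hr hL x hz
    rw [inner_smul_right, norm_smul, Real.norm_eq_abs, abs_of_pos hc]
    have h2 : vn L x / c * (c * ‖z‖) ^ 2 = c * (vn L x * ‖z‖ ^ 2) := by
      field_simp
    rw [h2]
    nlinarith
  · rw [div_le_iff₀ hc, vn_le_iff hr hL (mul_nonneg (vn_nonneg hr' hL' x) hc.le)]
    intro z hz
    have h1 := VN_inner_le hr' hL' x (VN_mem_sc.2 ⟨z, hz, rfl⟩)
    rw [inner_smul_right, norm_smul, Real.norm_eq_abs, abs_of_pos hc] at h1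
    have h2 : c * (2 * ⟪x, z⟫) ≤ c * (vn (sc c L) x * c * ‖z‖ ^ 2) := by
      calc c * (2 * ⟪x, z⟫) = 2 * (c * ⟪x, z⟫) := by ring
        _ ≤ vn (sc c L) x * (c * ‖z‖) ^ 2 := h1
        _ = c * (vn (sc c L) x * c * ‖z‖ ^ 2) := by ring
    exact le_of_mul_le_mul_left h2 hc

/-- the open Voronoi cells are disjoint -/
theorem vn_disj (hr : 0 < r) (hL : Sep r L) {x y : V} (hy : y ∈ L) (h1 : vn L x < 1)
    (h2 : vn L (x - y) < 1) : y = 0 := by
  by_contra hy0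
  have hpos : 0 < ‖y‖ ^ 2 := by
    have : 0 < ‖y‖ := norm_pos_iff.2 hy0
    positivity
  have a1 := VN_inner_le hr hL x hy
  have a2 := VN_inner_le hr hL (x - y) (L.neg_mem hy)
  rw [inner_neg_right, norm_neg, inner_sub_left, real_inner_self_eq_norm_sq] at a2
  have b1 : vn L x * ‖y‖ ^ 2 < 1 * ‖y‖ ^ 2 := mul_lt_mul_of_pos_right h1 hpos
  have b2 : vn L (x - y) * ‖y‖ ^ 2 < 1 * ‖y‖ ^ 2 := mul_lt_mul_of_pos_right h2 hpos
  linarith

/-- points of the Voronoi cell are the closest to the origin in their class -/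
theorem norm_le_of_vn (hr : 0 < r) (hL : Sep r L) {x y : V} (hy : y ∈ L) (h1 : vn L x ≤ 1) :
    ‖x‖ ≤ ‖x + y‖ := by
  have a1 := (vn_le_iff hr hL zero_le_one x).1 h1 (-y) (L.neg_mem hy)
  rw [inner_neg_right, norm_neg, one_mul] at a1
  have a2 := norm_add_sq_real x y
  refine le_of_sq_le_sq ?_ (norm_nonneg _)
  rw [a2]
  linarith

/-- the Voronoi cell contains the ball of radius `r/2` -/
theorem vn_ball (hr : 0 < r) (hL : Sep r L) {x : V} (hx : ‖x‖ ≤ r / 2) : vn L x ≤ 1 := by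
  refine (vn_le hr hL x).trans ?_
  have : 2 / r * ‖x‖ ≤ 2 / r * (r / 2) := mul_le_mul_of_nonneg_left hx (by positivity)
  refine this.trans (le_of_eq ?_)
  field_simp

theorem sep_finite [FiniteDimensional ℝ V] (hr : 0 < r) (hL : Sep r L) (R : ℝ) :
    {y : V | y ∈ L ∧ ‖y‖ ≤ R}.Finite := by
  have hproper : ProperSpace V := FiniteDimensional.proper_real V
  have htb : TotallyBounded (Metric.closedBall (0 : V) R) :=
    (isCompact_closedBall (0 : V) R).totallyBounded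
  obtain ⟨t, ht, hcov⟩ := Metric.totallyBounded_iff.1 htb (r / 2) (by positivity)
  have hsub : {y : V | y ∈ L ∧ ‖y‖ ≤ R} ⊆
      ⋃ z ∈ t, (Metric.ball z (r / 2) ∩ {y : V | y ∈ L ∧ ‖y‖ ≤ R}) := by
    intro y hy
    have h1 : y ∈ Metric.closedBall (0 : V) R := by
      rw [mem_closedBall_zero_iff]; exact hy.2
    obtain ⟨z, hz, hyz⟩ := Set.mem_iUnion₂.1 (hcov h1)
    exact Set.mem_iUnion₂.2 ⟨z, hz, hyz, hy⟩
  refine Set.Finite.subset (ht.biUnion fun z _ => Set.Subsingleton.finite ?_) hsub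
  rintro y ⟨hy1, hy2, _⟩ y' ⟨hy1', hy2', _⟩
  by_contra hne
  have h1 := hL (y - y') (L.sub_mem hy2 hy2') (sub_ne_zero.2 hne)
  rw [← dist_eq_norm] at h1
  have h2 := dist_triangle_right y y' z
  rw [Metric.mem_ball] at hy1 hy1'
  linarith

theorem sep_countable [FiniteDimensional ℝ V] (hr : 0 < r) (hL : Sep r L) : (L : Set V).Countable := by
  have h : (L : Set V) ⊆ ⋃ n : ℕ, {y : V | y ∈ L ∧ ‖y‖ ≤ n} := by
    intro y hy
    obtain ⟨n, hn⟩ := exists_nat_ge ‖y‖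
    exact Set.mem_iUnion.2 ⟨n, hy, hn⟩
  exact (Set.countable_iUnion fun n : ℕ => (sep_finite hr hL (n : ℝ)).countable).mono h

/-- the Voronoi cells cover -/
theorem exists_closest [FiniteDimensional ℝ V] (hr : 0 < r) (hL : Sep r L) (x : V) :
    ∃ y ∈ L, vn L (x - y) ≤ 1 := by
  have hfin := sep_finite hr hL (2 * ‖x‖ + 1)
  have h0 : (0 : V) ∈ {y : V | y ∈ L ∧ ‖y‖ ≤ 2 * ‖x‖ + 1} := by
    refine ⟨L.zero_mem, ?_⟩
    rw [norm_zero]; positivity
  obtain ⟨y, hy, hmin⟩ := Set.exists_min_image _ (fun y => ‖x - y‖) hfin ⟨0, h0⟩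
  have hall : ∀ z ∈ L, ‖x - y‖ ≤ ‖x - z‖ := by
    intro z hz
    by_cases hzn : ‖z‖ ≤ 2 * ‖x‖ + 1
    · exact hmin z ⟨hz, hzn⟩
    · push Not at hzn
      have h1 := hmin 0 h0
      simp only [sub_zero] at h1
      have h2 : ‖z‖ - ‖x‖ ≤ ‖x - z‖ := by
        rw [norm_sub_rev]; exact norm_sub_norm_le z x
      linarith
  refine ⟨y, hy.1, ?_⟩
  rw [vn_le_iff hr hL zero_le_one]
  intro z hz
  have h1 := hall (y + z) (L.add_mem hy.1 hz)
  have h2 : x - (y + z) = (x - y) - z := by abel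
  rw [h2] at h1
  have h3 : ‖x - y‖ ^ 2 ≤ ‖(x - y) - z‖ ^ 2 := pow_le_pow_left₀ (norm_nonneg _) h1 2
  rw [norm_sub_sq_real (x - y) z] at h3
  linarith

end

end H890
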